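import Pool.Agent.TH824.BK.LocalRep

open Polynomial IsDedekindDomain Matrix MeasureTheory
open scoped WithZero RestrictedProduct

noncomputable section

namespace TH824.BK

variable {F : Type} [Field F] [Valued F ℤᵐ⁰] [FinRes F] {G : Type} [Group G]
  [TopologicalSpace G] {V : Type} [AddCommGroup V] [Module ℂ V]

lemma span_range_add_le {H : Type} [Group H] (ρ : Representation ℂ H V) (y₁ y₂ : V) :
    Submodule.span ℂ (Set.range fun h => ρ h (y₁ + y₂)) ≤
      Submodule.span ℂ (Set.range fun h => ρ h y₁) ⊔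
        Submodule.span ℂ (Set.range fun h => ρ h y₂) := by
  rw [Submodule.span_le]
  rintro _ ⟨h, rfl⟩
  simp only [map_add, SetLike.mem_coe]
  exact add_mem (Submodule.mem_sup_left (Submodule.subset_span ⟨h, rfl⟩))
    (Submodule.mem_sup_right (Submodule.subset_span ⟨h, rfl⟩))

theorem adm_core (i : GL (Fin 2) F →* G) (hi : Splits i) (ρ : Representation ℂ G V) (p : Fˣ)
    (hp : Valued.v (p : F) = WithZero.exp (-1 : ℤ)) (u : V) (hu : IsStVec (pull i ρ) p u)
    {M : ℕ} (hM : 1 ≤ M) (y : V) (hy : y ∈ orb ρ u) :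
    ∃ s : Set V, s.Finite ∧ ∀ f ∈ Submodule.span ℂ (Set.range fun h => pull i ρ h y),
      ∃ M₀, ∀ M' ≥ M₀, avg (pull i ρ) (KM F M) (KM F M') f ∈ Submodule.span ℂ s := by
  refine Submodule.span_induction (p := fun y _ => ∃ s : Set V, s.Finite ∧
    ∀ f ∈ Submodule.span ℂ (Set.range fun h => pull i ρ h y),
      ∃ M₀, ∀ M' ≥ M₀, avg (pull i ρ) (KM F M) (KM F M') f ∈ Submodule.span ℂ s)
    ?_ ?_ ?_ ?_ hy
  · rintro _ ⟨g, rfl⟩
    obtain ⟨h₀, g', rfl, hg'⟩ := hi g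
    refine ⟨(ρ g') '' stSet (pull i ρ) p u M, (stSet_finite M).image _, fun f hf => ?_⟩
    refine Submodule.span_induction (p := fun f _ => ∃ M₀, ∀ M' ≥ M₀,
      avg (pull i ρ) (KM F M) (KM F M') f ∈
        Submodule.span ℂ ((ρ g') '' stSet (pull i ρ) p u M)) ?_ ?_ ?_ ?_ hf
    · rintro _ ⟨h, rfl⟩
      obtain ⟨M₀, hM₀⟩ := core_adm hp hu hM (h * h₀)
      refine ⟨M₀, fun M' hM' => ?_⟩
      have h1 : pull i ρ h (ρ (g' * i h₀) u) = ρ g' (pull i ρ (h * h₀) u) := by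
        have h3 : i h * (g' * i h₀) = g' * i (h * h₀) := by
          rw [map_mul, ← mul_assoc, ← mul_assoc, hg' h]
        have := congrArg (fun g => ρ g u) h3
        simpa [map_mul] using this
      change avg (pull i ρ) (KM F M) (KM F M') (pull i ρ h (ρ (g' * i h₀) u)) ∈ _
      rw [h1, avg_comm (pull i ρ) (KM F M) (KM F M') (ρ g'), Submodule.span_image]
      · exact Submodule.mem_map_of_mem (hM₀ M' hM')
      · intro k _ x
        have := congrArg (fun g => ρ g x) (hg' k)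
        simpa [map_mul] using this
    · exact ⟨0, fun M' _ => by rw [map_zero]; exact Submodule.zero_mem _⟩
    · rintro x y _ _ ⟨M₁, h₁⟩ ⟨M₂, h₂⟩
      refine ⟨max M₁ M₂, fun M' hM' => ?_⟩
      rw [map_add]
      exact Submodule.add_mem _ (h₁ M' (le_trans (le_max_left _ _) hM'))
        (h₂ M' (le_trans (le_max_right _ _) hM'))
    · rintro c x _ ⟨M₁, h₁⟩
      exact ⟨M₁, fun M' hM' => by rw [map_smul]; exact Submodule.smul_mem _ _ (h₁ M' hM')⟩
  · refine ⟨∅, Set.finite_empty, fun f hf => ⟨0, fun M' _ => ?_⟩⟩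
    have hf0 : f = 0 := by
      have : Submodule.span ℂ (Set.range fun h => pull i ρ h (0 : V)) ≤ ⊥ := by
        rw [Submodule.span_le]; rintro _ ⟨h, rfl⟩; simp
      exact this hf
    rw [hf0, map_zero]; exact Submodule.zero_mem _
  · rintro y₁ y₂ _ _ ⟨s₁, hs₁, h₁⟩ ⟨s₂, hs₂, h₂⟩
    refine ⟨s₁ ∪ s₂, hs₁.union hs₂, fun f hf => ?_⟩
    obtain ⟨f₁, hf₁, f₂, hf₂, rfl⟩ := Submodule.mem_sup.mp (span_range_add_le (pull i ρ) y₁ y₂ hf)
    obtain ⟨M₁, hM₁⟩ := h₁ f₁ hf₁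
    obtain ⟨M₂, hM₂⟩ := h₂ f₂ hf₂
    refine ⟨max M₁ M₂, fun M' hM' => ?_⟩
    rw [map_add, Submodule.span_union]
    exact add_mem (Submodule.mem_sup_left (hM₁ M' (le_trans (le_max_left _ _) hM')))
      (Submodule.mem_sup_right (hM₂ M' (le_trans (le_max_right _ _) hM')))
  · rintro c y₁ _ ⟨s₁, hs₁, h₁⟩
    refine ⟨s₁, hs₁, fun f hf => h₁ f ?_⟩
    refine (Submodule.span_le.mpr ?_) hf
    rintro _ ⟨h, rfl⟩
    simp only [map_smul, SetLike.mem_coe]
    exact Submodule.smul_mem _ _ (Submodule.subset_span ⟨h, rfl⟩)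

lemma orb_map {V' : Type} [AddCommGroup V'] [Module ℂ V'] (ρ : Representation ℂ G V)
    (ρ' : Representation ℂ G V') (T : V →ₗ[ℂ] V') (hT : ∀ g x, T (ρ g x) = ρ' g (T x))
    {u x : V} (hx : x ∈ orb ρ u) : T x ∈ orb ρ' (T u) := by
  refine Submodule.span_induction (p := fun x _ => T x ∈ orb ρ' (T u)) ?_ ?_ ?_ ?_ hx
  · rintro _ ⟨g, rfl⟩; simp only [hT]; exact orb_mem ρ' _ g
  · rw [map_zero]; exact Submodule.zero_mem _
  · intro x y _ _ hx hy; rw [map_add]; exact add_mem hx hy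
  · intro c x _ hx; rw [map_smul]; exact Submodule.smul_mem _ _ hx

/-- Admissibility of the span of a vector in `C ⊔ orb v₀`, where `v₀` is a Steinberg vector
modulo the finite dimensional stable subspace `C`. -/
theorem adm_general (i : GL (Fin 2) F →* G) (hi : Splits i) (ρ : Representation ℂ G V) (p : Fˣ)
    (hp : Valued.v (p : F) = WithZero.exp (-1 : ℤ)) (C : Submodule ℂ V) (hC : Stable ρ C)
    (hfin : ∃ s : Set V, s.Finite ∧ C ≤ Submodule.span ℂ s) (v₀ : V)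
    (hst : IsStVec (pull i (quotRep ρ C hC)) p (C.mkQ v₀)) (y : V) (hy : y ∈ C ⊔ orb ρ v₀)
    (U : Subgroup (GL (Fin 2) F)) (hU : IsOpen (U : Set (GL (Fin 2) F))) :
    ∃ s : Finset V, ∀ f ∈ Submodule.span ℂ (Set.range fun h => ρ (i h) y),
      (∀ k ∈ U, ρ (i k) f = f) → f ∈ Submodule.span ℂ (s : Set V) := by
  classical
  obtain ⟨sC, hsC, hCle⟩ := hfin
  obtain ⟨M₁, hM₁⟩ := open_contains_KM U hU
  set M := M₁ + 1 with hMdef
  have hMU : KM F M ≤ U := by
    refine le_trans ?_ hM₁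
    intro g hg
    refine ⟨hg.1, fun a b => (hg.2 a b).trans ?_⟩
    rw [WithZero.exp_le_exp]; omega
  have hyq : C.mkQ y ∈ orb (quotRep ρ C hC) (C.mkQ v₀) := by
    obtain ⟨c, hc, x, hx, rfl⟩ := Submodule.mem_sup.mp hy
    rw [map_add]
    have : C.mkQ c = 0 := by rw [Submodule.mkQ_apply, Submodule.Quotient.mk_eq_zero]; exact hc
    rw [this, zero_add]
    exact orb_map ρ (quotRep ρ C hC) C.mkQ (fun _ _ => rfl) hx
  obtain ⟨s, hs, h⟩ := adm_core i hi (quotRep ρ C hC) p hp (C.mkQ v₀) hst (M := M) (by omega)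
    (C.mkQ y) hyq
  -- lift
  choose lift hlift using C.mkQ_surjective
  have hfin2 : (lift '' s ∪ sC).Finite := (hs.image _).union hsC
  refine ⟨hfin2.toFinset, fun f hf hfix => ?_⟩
  rw [Set.Finite.coe_toFinset]
  have hfq : C.mkQ f ∈ Submodule.span ℂ
      (Set.range fun h => pull i (quotRep ρ C hC) h (C.mkQ y)) := by
    have h1 : C.mkQ f ∈ (Submodule.span ℂ (Set.range fun h => ρ (i h) y)).map C.mkQ :=
      Submodule.mem_map_of_mem hf
    rw [Submodule.map_span, ← Set.range_comp] at h1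
    exact h1
  obtain ⟨M₀, hM₀⟩ := h _ hfq
  have h2 := hM₀ M₀ le_rfl
  rw [avg_of_fixed] at h2
  · -- `mkQ f ∈ span s`
    have h3 : Submodule.span ℂ s ≤ (Submodule.span ℂ (lift '' s)).map C.mkQ := by
      rw [Submodule.span_le]
      intro x hx
      exact ⟨lift x, Submodule.subset_span ⟨x, hx, rfl⟩, hlift x⟩
    obtain ⟨f', hf', hff'⟩ := h3 h2
    have h4 : f - f' ∈ C := by
      rw [← Submodule.Quotient.mk_eq_zero (p := C), ← Submodule.mkQ_apply, map_sub, hff', sub_self]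
    have h5 : f = f' + (f - f') := by abel
    rw [h5, Submodule.span_union]
    exact add_mem (Submodule.mem_sup_left hf') (Submodule.mem_sup_right (hCle h4))
  · intro k hk
    change C.mkQ (ρ (i k) f) = C.mkQ f
    rw [hfix k (hMU hk)]

end TH824.BK
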