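import Pool.Agent.TH824.BK.LocalRep

open Polynomial IsDedekindDomain Matrix MeasureTheory
open scoped WithZero RestrictedProduct

noncomputable section

namespace TH824.BK

/-! ### Bookkeeping for the adelic group -/

/-- the maximal compact subgroup -/
def Kmax : Subgroup GA := UA (fun v => GO (Kv v)) (GO Kinf)

lemma mem_Kmax {g : GA} : g ∈ Kmax ↔ (∀ v, g.1 v ∈ GO (Kv v)) ∧ g.2 ∈ GO Kinf := Iff.rfl

@[simp] lemma iinf_fst (h : GL (Fin 2) Kinf) : (iinf h).1 = 1 := rfl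
@[simp] lemma iinf_snd (h : GL (Fin 2) Kinf) : (iinf h).2 = h := rfl
@[simp] lemma iv_snd (v : Pl) (h : GL (Fin 2) (Kv v)) : (iv v h).2 = 1 := rfl
@[simp] lemma iv_fst_same (v : Pl) (h : GL (Fin 2) (Kv v)) : (iv v h).1 v = h := by
  change Pi.mulSingle (M := fun w => GL (Fin 2) (Kv w)) v h v = h
  simp
lemma iv_fst_ne {v w : Pl} (hw : w ≠ v) (h : GL (Fin 2) (Kv v)) : (iv v h).1 w = 1 := by
  change Pi.mulSingle (M := fun w => GL (Fin 2) (Kv w)) v h w = 1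
  exact Pi.mulSingle_eq_of_ne (M := fun w => GL (Fin 2) (Kv w)) hw h
@[simp] lemma idiag_fst (γ : GL (Fin 2) Kx) (v : Pl) :
    (idiag γ).1 v = Matrix.GeneralLinearGroup.map (algebraMap Kx (Kv v)) γ := rfl
@[simp] lemma idiag_snd (γ : GL (Fin 2) Kx) :
    (idiag γ).2 = Matrix.GeneralLinearGroup.map (algebraMap Kx Kinf) γ := rfl
@[simp] lemma GA_mul_fst (a b : GA) (v : Pl) : (a * b).1 v = a.1 v * b.1 v := rfl
@[simp] lemma GA_mul_snd (a b : GA) : (a * b).2 = a.2 * b.2 := rfl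
@[simp] lemma GA_one_fst (v : Pl) : (1 : GA).1 v = 1 := rfl
@[simp] lemma GA_one_snd : (1 : GA).2 = 1 := rfl
@[simp] lemma GA_inv_fst (a : GA) (v : Pl) : (a⁻¹).1 v = (a.1 v)⁻¹ := rfl
@[simp] lemma GA_inv_snd (a : GA) : (a⁻¹).2 = (a.2)⁻¹ := rfl

lemma GA_ext {a b : GA} (h : ∀ v, a.1 v = b.1 v) (h' : a.2 = b.2) : a = b :=
  Prod.ext (by apply RestrictedProduct.ext; exact h) h'

lemma zmat_comm {F : Type} [Field F] (z : Fˣ) (g : GL (Fin 2) F) : zmat z * g = g * zmat z := by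
  ext i j
  fin_cases i <;> fin_cases j <;> simp [Matrix.mul_apply, Fin.sum_univ_two, mul_comm]

lemma zmat_mul {F : Type} [Field F] (z z' : Fˣ) :
    (zmat z * zmat z' : GL (Fin 2) F) = zmat (z * z') := by
  ext i j
  fin_cases i <;> fin_cases j <;> simp [Matrix.mul_apply, Fin.sum_univ_two]

lemma zmat_one {F : Type} [Field F] : (zmat 1 : GL (Fin 2) F) = 1 := by
  ext i j
  fin_cases i <;> fin_cases j <;> simp

lemma zmat_inv {F : Type} [Field F] (z : Fˣ) : (zmat z : GL (Fin 2) F)⁻¹ = zmat z⁻¹ := by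
  rw [inv_eq_iff_mul_eq_one, zmat_mul, mul_inv_cancel, zmat_one]

lemma iinf_z_central (z : Kinfˣ) (g : GA) : iinf (zmat z) * g = g * iinf (zmat z) := by
  apply GA_ext
  · intro v; simp
  · simpa using zmat_comm z g.2

lemma iinf_comm_of_snd {g : GA} (hg : g.2 = 1) (h : GL (Fin 2) Kinf) :
    g * iinf h = iinf h * g := by
  apply GA_ext
  · intro v; simp
  · simp [hg]

lemma iv_comm_of_fst {v : Pl} {g : GA} (hg : g.1 v = 1) (h : GL (Fin 2) (Kv v)) :
    g * iv v h = iv v h * g := by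
  apply GA_ext
  · intro w
    by_cases hw : w = v
    · subst hw; simp [hg]
    · simp [iv_fst_ne hw]
  · simp

lemma splits_iinf : Splits iinf := by
  intro g
  refine ⟨g.2, g * iinf (g.2)⁻¹, ?_, fun h => iinf_comm_of_snd (by simp) h⟩
  rw [mul_assoc, ← map_mul]; simp

lemma splits_iv (v : Pl) : Splits (iv v) := by
  intro g
  refine ⟨g.1 v, g * iv v (g.1 v)⁻¹, ?_, fun h => iv_comm_of_fst (by simp) h⟩
  rw [mul_assoc, ← map_mul]; simp

/-- `GL_2(F_2[t]) → GL_2(K)` -/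
def ofR : GL (Fin 2) Rx →* GL (Fin 2) Kx := Matrix.GeneralLinearGroup.map (algebraMap Rx Kx)

lemma map_ofR (γ : GL (Fin 2) Rx) :
    Matrix.GeneralLinearGroup.map (algebraMap Kx Kinf) (ofR γ) =
      Matrix.GeneralLinearGroup.map ((algebraMap Kx Kinf).comp (algebraMap Rx Kx)) γ := by
  ext i j; rfl

lemma v_Rx_le (v : Pl) (r : Rx) : Valued.v (algebraMap Kx (Kv v) (algebraMap Rx Kx r)) ≤ 1 := by
  rw [v_alg]; exact v.valuation_le_one r

lemma ofR_mem (γ : GL (Fin 2) Rx) (v : Pl) :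
    Matrix.GeneralLinearGroup.map (algebraMap Kx (Kv v)) (ofR γ) ∈ GO (Kv v) := by
  have h1 : ∀ γ : GL (Fin 2) Rx, ∀ i j, Valued.v
      ((Matrix.GeneralLinearGroup.map (algebraMap Kx (Kv v)) (ofR γ) :
        GL (Fin 2) (Kv v)) i j) ≤ 1 := fun γ i j => v_Rx_le v _
  have hdet : ∀ γ : GL (Fin 2) Rx,
      ((Matrix.GeneralLinearGroup.map (algebraMap Kx (Kv v)) (ofR γ) :
        GL (Fin 2) (Kv v)) : Matrix (Fin 2) (Fin 2) (Kv v)).det =
      algebraMap Kx (Kv v) (algebraMap Rx Kx (γ : Matrix (Fin 2) (Fin 2) Rx).det) := by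
    intro γ
    rw [RingHom.map_det, RingHom.map_det]; rfl
  refine ⟨h1 γ, ?_⟩
  apply le_antisymm
  · rw [hdet]; exact v_Rx_le v _
  · have h2 : Valued.v (((Matrix.GeneralLinearGroup.map (algebraMap Kx (Kv v)) (ofR γ⁻¹) :
        GL (Fin 2) (Kv v)) : Matrix (Fin 2) (Fin 2) (Kv v)).det) ≤ 1 := by
      rw [hdet]; exact v_Rx_le v _
    have h3 : ((Matrix.GeneralLinearGroup.map (algebraMap Kx (Kv v)) (ofR γ) :
        GL (Fin 2) (Kv v)) : Matrix (Fin 2) (Fin 2) (Kv v)).det *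
        ((Matrix.GeneralLinearGroup.map (algebraMap Kx (Kv v)) (ofR γ⁻¹) :
        GL (Fin 2) (Kv v)) : Matrix (Fin 2) (Fin 2) (Kv v)).det = 1 := by
      rw [← Matrix.det_mul, ← Units.val_mul, ← map_mul, ← map_mul]; simp
    have h4 := congrArg Valued.v h3
    rw [map_mul, map_one] at h4
    rw [← h4]
    exact mul_le_of_le_one_right' h2

lemma exists_ofR (γ : GL (Fin 2) Kx)
    (h : ∀ v : Pl, Matrix.GeneralLinearGroup.map (algebraMap Kx (Kv v)) γ ∈ GO (Kv v)) :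
    ∃ γ' : GL (Fin 2) Rx, ofR γ' = γ ∧ (γ' : Matrix (Fin 2) (Fin 2) Rx).det = 1 := by
  obtain ⟨⟨M, hM⟩, hdet⟩ := mem_GLR γ h
  have hMdet : M.det = 1 := by
    have hinj : Function.Injective (algebraMap Rx Kx) := IsFractionRing.injective Rx Kx
    apply hinj
    rw [RingHom.map_det, map_one, ← hdet, hM]; rfl
  refine ⟨Matrix.GeneralLinearGroup.mk'' M (by rw [hMdet]; exact isUnit_one), ?_, ?_⟩
  · apply Units.ext
    rw [hM]; rfl
  · exact hMdet

/-! ### The height function `GA → ℕ` (splitting type of rank two bundles on `P^1`) -/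

/-- `diag(t^n, 1)` -/
def an (n : ℕ) : GL (Fin 2) Kinf := amat (pinf⁻¹ ^ n)

/-- `g ∈ G(K) diag(t^n,1)_∞ K_max Z_∞` -/
def HasHt (g : GA) (n : ℕ) : Prop :=
  ∃ γ : GL (Fin 2) Kx, ∃ k ∈ Kmax, ∃ z : Kinfˣ, g = idiag γ * iinf (an n) * k * iinf (zmat z)

lemma ht_exists (g : GA) : ∃ n, HasHt g n := by
  obtain ⟨a, d, x, h⟩ := gfin_decomp strong_approx_fin g.1
  set γ₀ : GL (Fin 2) Kx := bmat a d x with hγ₀
  set g₁ : GA := (idiag γ₀)⁻¹ * g with hg₁
  obtain ⟨γ, n, k, hk, z, hz⟩ := half_line g₁.2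
  refine ⟨n, γ₀ * ofR γ, ((idiag (ofR γ))⁻¹ * g₁) * iinf ((g₁.2)⁻¹ *
    Matrix.GeneralLinearGroup.map (algebraMap Kx Kinf) (ofR γ) * k), ?_, z, ?_⟩
  · rw [mem_Kmax]
    constructor
    · intro v
      simp only [GA_mul_fst, GA_inv_fst, idiag_fst, iinf_fst]
      refine (GO (Kv v)).mul_mem ((GO (Kv v)).mul_mem ((GO (Kv v)).inv_mem (ofR_mem γ v)) ?_)
        (GO (Kv v)).one_mem
      exact h v
    · simp only [GA_mul_snd, GA_inv_snd, idiag_snd, iinf_snd]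
      have : (Matrix.GeneralLinearGroup.map (algebraMap Kx Kinf) (ofR γ))⁻¹ * g₁.2 *
          ((g₁.2)⁻¹ * Matrix.GeneralLinearGroup.map (algebraMap Kx Kinf) (ofR γ) * k) = k := by
        group
      rw [this]; exact hk
  · have hg : g = idiag γ₀ * g₁ := by rw [hg₁]; group
    apply GA_ext
    · intro v
      rw [hg]
      simp only [GA_mul_fst, GA_inv_fst, idiag_fst, iinf_fst, map_mul, RestrictedProduct.one_apply]
      group
    · rw [hg]
      simp only [GA_mul_snd, GA_inv_snd, idiag_snd, iinf_snd, map_mul]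
      have h2 : g₁.2 = Matrix.GeneralLinearGroup.map (algebraMap Kx Kinf) (ofR γ) * an n * k *
          zmat z := by
        rw [map_ofR]; exact hz
      have h3 : (Matrix.GeneralLinearGroup.map (algebraMap Kx Kinf) (ofR γ))⁻¹ * g₁.2 *
          ((g₁.2)⁻¹ * Matrix.GeneralLinearGroup.map (algebraMap Kx Kinf) (ofR γ) * k) = k := by
        group
      rw [h3, mul_assoc _ _ (an n), mul_assoc, mul_assoc]
      congr 1
      rw [h2]; group

lemma ht_unique {g : GA} {n m : ℕ} (h : HasHt g n) (h' : HasHt g m) : n = m := by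
  obtain ⟨γ, k, hk, z, hz⟩ := h
  obtain ⟨γ', k', hk', z', hz'⟩ := h'
  set δ : GL (Fin 2) Kx := γ'⁻¹ * γ with hδ
  have e1 : idiag γ * iinf (an n) * k * iinf (zmat z) =
      idiag γ' * iinf (an m) * k' * iinf (zmat z') := hz.symm.trans hz'
  have hfin : ∀ v, Matrix.GeneralLinearGroup.map (algebraMap Kx (Kv v)) δ ∈ GO (Kv v) := by
    intro v
    have e2 := congrArg (fun g : GA => g.1 v) e1
    simp only [GA_mul_fst, idiag_fst, iinf_fst, RestrictedProduct.one_apply, mul_one] at e2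
    have e3 : Matrix.GeneralLinearGroup.map (algebraMap Kx (Kv v)) δ = k'.1 v * (k.1 v)⁻¹ := by
      rw [hδ, map_mul, map_inv, inv_mul_eq_iff_eq_mul, ← mul_assoc, ← e2]; group
    rw [e3]
    exact (GO (Kv v)).mul_mem (hk'.1 v) ((GO (Kv v)).inv_mem (hk.1 v))
  obtain ⟨δ', hδ', -⟩ := exists_ofR δ hfin
  have e4 := congrArg (fun g : GA => g.2) e1
  simp only [GA_mul_snd, idiag_snd, iinf_snd] at e4
  symm
  refine half_line_unique δ' m n (k.2 * (k'.2)⁻¹)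
    ((GO Kinf).mul_mem hk.2 ((GO Kinf).inv_mem hk'.2)) (z * z'⁻¹) ?_
  rw [← map_ofR, hδ', hδ, map_mul, map_inv, ← zmat_mul, ← zmat_inv]
  change an m = _ * an n * _ * _
  have e5 : an m = (Matrix.GeneralLinearGroup.map (algebraMap Kx Kinf) γ')⁻¹ *
      (Matrix.GeneralLinearGroup.map (algebraMap Kx Kinf) γ * an n * k.2 * zmat z) *
      (zmat z')⁻¹ * (k'.2)⁻¹ := by
    rw [e4]; group
  rw [e5]
  have hc := zmat_comm z'⁻¹ ((k'.2)⁻¹)
  have hc2 := zmat_comm z ((k'.2)⁻¹)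
  simp only [zmat_inv] at *
  simp only [mul_assoc]
  congr 4
  rw [hc, ← mul_assoc, hc2, mul_assoc]

/-- the height -/
def ht (g : GA) : ℕ := Classical.choose (ht_exists g)

lemma ht_spec (g : GA) : HasHt g (ht g) := Classical.choose_spec (ht_exists g)

lemma ht_eq {g : GA} {n : ℕ} (h : HasHt g n) : ht g = n := ht_unique (ht_spec g) h

lemma HasHt.left {g : GA} {n : ℕ} (h : HasHt g n) (γ : GL (Fin 2) Kx) :
    HasHt (idiag γ * g) n := by
  obtain ⟨γ', k, hk, z, hz⟩ := h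
  exact ⟨γ * γ', k, hk, z, by rw [hz, map_mul]; group⟩

lemma HasHt.right {g : GA} {n : ℕ} (h : HasHt g n) {k : GA} (hk : k ∈ Kmax) :
    HasHt (g * k) n := by
  obtain ⟨γ', k', hk', z, hz⟩ := h
  refine ⟨γ', k' * k, Kmax.mul_mem hk' hk, z, ?_⟩
  rw [hz, mul_assoc _ (iinf (zmat z)) k, iinf_z_central]; group

lemma HasHt.z {g : GA} {n : ℕ} (h : HasHt g n) (z' : Kinfˣ) :
    HasHt (g * iinf (zmat z')) n := by
  obtain ⟨γ', k', hk', z, hz⟩ := h
  refine ⟨γ', k', hk', z * z', ?_⟩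
  rw [hz, ← zmat_mul, map_mul]; group

lemma ht_left (γ : GL (Fin 2) Kx) (g : GA) : ht (idiag γ * g) = ht g :=
  ht_eq ((ht_spec g).left γ)

lemma ht_right (g : GA) {k : GA} (hk : k ∈ Kmax) : ht (g * k) = ht g :=
  ht_eq ((ht_spec g).right hk)

lemma ht_z (g : GA) (z : Kinfˣ) : ht (g * iinf (zmat z)) = ht g :=
  ht_eq ((ht_spec g).z z)

lemma ht_an (n : ℕ) : ht (iinf (an n)) = n :=
  ht_eq ⟨1, 1, Kmax.one_mem, 1, by rw [zmat_one]; simp⟩

/-- A function on `G(A)` invariant under `G(K)` on the left and `K_max Z_∞` on the right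
only depends on the height. -/
lemma eq_of_ht {Φ : GA → ℂ} (hl : ∀ γ g, Φ (idiag γ * g) = Φ g)
    (hr : ∀ g, ∀ k ∈ Kmax, Φ (g * k) = Φ g) (hz : ∀ g z, Φ (g * iinf (zmat z)) = Φ g) (g : GA) :
    Φ g = Φ (iinf (an (ht g))) := by
  obtain ⟨γ, k, hk, z, h⟩ := ht_spec g
  conv_lhs => rw [h]
  rw [hz, hr _ _ hk, hl]

end TH824.BK
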