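import Pool.Agent.TH824.BK.Adm
import Pool.Agent.TH824.BK.Ht

open Polynomial IsDedekindDomain Matrix MeasureTheory
open scoped WithZero RestrictedProduct

noncomputable section

namespace TH824.BK

instance : Fact (∀ v : Pl, IsOpen ((GO (Kv v) : Subgroup (GL (Fin 2) (Kv v))) :
    Set (GL (Fin 2) (Kv v)))) := ⟨fun _ => GO_isOpen⟩

instance : IsTopologicalGroup GA := inferInstance

theorem exists_quot {G : Type} [Group G] [TopologicalSpace G] {V : Type} [AddCommGroup V]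
    [Module ℂ V] (ρ : Representation ℂ G V) (C : Submodule ℂ V) (hC : Stable ρ C) (v₀ : V)
    (hv₀ : v₀ ∉ C) (hsm : ∀ x ∈ C ⊔ orb ρ v₀, IsSmooth ρ x)
    (hW : Stable ρ (C ⊔ orb ρ v₀)) (hvW : v₀ ∈ C ⊔ orb ρ v₀) :
    ∃ π : SmoothIrrep G, ∃ T : ↥(C ⊔ orb ρ v₀) →ₗ[ℂ] π.V, Function.Surjective T ∧
      (∀ g x, T (subRep ρ _ hW g x) = π.ρ g (T x)) ∧ T ⟨v₀, hvW⟩ ≠ 0 ∧
      ∀ x : ↥(C ⊔ orb ρ v₀), (x : V) ∈ C → T x = 0 := by
  obtain ⟨N, hN, hCN, hNW, hv₀N, hmax⟩ := exists_max_stable ρ C hC v₀ hv₀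
  refine ⟨quotIrrep ρ (C ⊔ orb ρ v₀) N hW hN ⟨v₀, hvW, hv₀N⟩ hmax hNW hsm,
    prj (C ⊔ orb ρ v₀) N, Submodule.mkQ_surjective _, fun _ _ => rfl, ?_, ?_⟩
  · intro h
    have h' : (N.comap (C ⊔ orb ρ v₀).subtype).mkQ ⟨v₀, hvW⟩ = 0 := h
    rw [Submodule.mkQ_apply, Submodule.Quotient.mk_eq_zero] at h'
    exact hv₀N h'
  · intro x hx
    change (N.comap (C ⊔ orb ρ v₀).subtype).mkQ x = 0
    rw [Submodule.mkQ_apply, Submodule.Quotient.mk_eq_zero]
    exact hCN hx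

/-- the input of the construction -/
structure GoodData (C : Submodule ℂ (GA → ℂ)) (v₀ : GA → ℂ) : Prop where
  hC : Stable rt C
  hCfin : ∃ s : Set (GA → ℂ), s.Finite ∧ C ≤ Submodule.span ℂ s
  hCleft : ∀ F ∈ C, ∀ γ x, F (idiag γ * x) = F x
  hCsm : ∀ F ∈ C, IsSmooth rt F
  left : ∀ γ x, v₀ (idiag γ * x) = v₀ x
  sm : IsSmooth rt v₀
  st : IsStVec (pull iinf (quotRep rt C hC)) pinf (C.mkQ v₀)
  notin : v₀ ∉ C

variable {C : Submodule ℂ (GA → ℂ)} {v₀ : GA → ℂ}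

lemma GoodData.stable (d : GoodData C v₀) : Stable rt (C ⊔ orb rt v₀) :=
  stable_sup rt d.hC (orb_stable rt v₀)

lemma mem_W (C : Submodule ℂ (GA → ℂ)) (v₀ : GA → ℂ) : v₀ ∈ C ⊔ orb rt v₀ :=
  Submodule.mem_sup_right (self_mem_orb rt v₀)

lemma GoodData.smooth (d : GoodData C v₀) : ∀ x ∈ C ⊔ orb rt v₀, IsSmooth rt x := by
  intro x hx
  obtain ⟨c, hc, y, hy, rfl⟩ := Submodule.mem_sup.mp hx
  exact (d.hCsm c hc).add (smooth_of_mem_orb d.sm hy)

lemma GoodData.left_inv (d : GoodData C v₀) : ∀ F ∈ C ⊔ orb rt v₀, ∀ γ x,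
    F (idiag γ * x) = F x := by
  intro F hF
  obtain ⟨c, hc, y, hy, rfl⟩ := Submodule.mem_sup.mp hF
  have hy' : ∀ γ x, y (idiag γ * x) = y x := by
    refine Submodule.span_induction (p := fun y _ => ∀ γ x, y (idiag γ * x) = y x)
      ?_ ?_ ?_ ?_ hy
    · rintro _ ⟨g, rfl⟩ γ x
      change v₀ (idiag γ * x * g) = v₀ (x * g)
      rw [mul_assoc, d.left]
    · intro γ x; rfl
    · intro a b _ _ ha hb γ x
      rw [Pi.add_apply, Pi.add_apply, ha, hb]
    · intro c a _ ha γ x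
      rw [Pi.smul_apply, Pi.smul_apply, ha]
  intro γ x
  rw [Pi.add_apply, Pi.add_apply, d.hCleft c hc, hy']

lemma GoodData.isAutForm (d : GoodData C v₀) : ∀ F ∈ C ⊔ orb rt v₀, IsAutForm F := by
  intro F hF
  refine ⟨d.left_inv F hF, ?_, ?_⟩
  · obtain ⟨U, hU, hU'⟩ := d.smooth F hF
    exact ⟨U, hU, fun u hu x => congrFun (hU' u hu) x⟩
  · intro U hU
    exact adm_general iinf splits_iinf rt pinf v_pinf C d.hC d.hCfin v₀ d.st F hF U hU

/-- the output of the construction -/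
theorem GoodData.exists_rep (d : GoodData C v₀) : ∃ π : SmoothIrrep GA,
    ∃ T : ↥(C ⊔ orb rt v₀) →ₗ[ℂ] π.V, Function.Surjective T ∧
      (∀ g x, T (subRep rt _ d.stable g x) = π.ρ g (T x)) ∧ T ⟨v₀, mem_W C v₀⟩ ≠ 0 ∧
      IsStVec (pull iinf π.ρ) pinf (T ⟨v₀, mem_W C v₀⟩) := by
  obtain ⟨π, T, hsurj, hT, hne, hker⟩ := exists_quot rt C d.hC v₀ d.notin d.smooth d.stable
    (mem_W C v₀)
  refine ⟨π, T, hsurj, hT, hne, ?_⟩
  set u : ↥(C ⊔ orb rt v₀) := ⟨v₀, mem_W C v₀⟩ with hu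
  have hrel : ∀ x : ↥(C ⊔ orb rt v₀), C.mkQ (x : GA → ℂ) = 0 → T x = 0 := by
    intro x hx
    rw [Submodule.mkQ_apply, Submodule.Quotient.mk_eq_zero] at hx
    exact hker x hx
  have hstab := d.stable
  refine ⟨fun g hg => ?_, fun z => ?_, ?_, ?_⟩
  · have h1 := d.st.iw g hg
    have h2 : T (subRep rt _ d.stable (iinf g) u - u) = 0 := by
      apply hrel
      change C.mkQ (rt (iinf g) v₀ - v₀) = 0
      rw [map_sub, sub_eq_zero]; exact h1
    rw [map_sub, hT, sub_eq_zero] at h2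
    exact h2
  · have h1 := d.st.z z
    have h2 : T (subRep rt _ d.stable (iinf (zmat z)) u - u) = 0 := by
      apply hrel
      change C.mkQ (rt (iinf (zmat z)) v₀ - v₀) = 0
      rw [map_sub, sub_eq_zero]; exact h1
    rw [map_sub, hT, sub_eq_zero] at h2
    exact h2
  · have h1 := d.st.w
    have h2 : T (subRep rt _ d.stable (iinf (wmat pinf)) u + u) = 0 := by
      apply hrel
      change C.mkQ (rt (iinf (wmat pinf)) v₀ + v₀) = 0
      rw [map_add, ← eq_neg_iff_add_eq_zero]; exact h1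
    rw [map_add, hT, ← eq_neg_iff_add_eq_zero] at h2
    exact h2
  · have h1 := d.st.star
    have h2 : T (u + subRep rt _ d.stable (iinf smat) u +
        subRep rt _ d.stable (iinf (nmat 1 * smat)) u) = 0 := by
      apply hrel
      change C.mkQ (v₀ + rt (iinf smat) v₀ + rt (iinf (nmat 1 * smat)) v₀) = 0
      rw [map_add, map_add]; exact h1
    rw [map_add, map_add, hT, hT] at h2
    exact h2

/-! ### The common component at infinity -/

/-- product of two representations -/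
def prodRep {H V V' : Type} [Group H] [AddCommGroup V] [Module ℂ V] [AddCommGroup V']
    [Module ℂ V'] (ρ : Representation ℂ H V) (ρ' : Representation ℂ H V') :
    Representation ℂ H (V × V') where
  toFun h := (ρ h).prodMap (ρ' h)
  map_one' := by ext <;> simp
  map_mul' a b := by ext <;> simp

@[simp] lemma prodRep_apply {H V V' : Type} [Group H] [AddCommGroup V] [Module ℂ V]
    [AddCommGroup V'] [Module ℂ V'] (ρ : Representation ℂ H V) (ρ' : Representation ℂ H V')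
    (h : H) (x : V × V') : prodRep ρ ρ' h x = (ρ h x.1, ρ' h x.2) := rfl

lemma IsStVec.prod {F : Type} [Field F] [Valued F ℤᵐ⁰] {V V' : Type} [AddCommGroup V] [Module ℂ V]
    [AddCommGroup V'] [Module ℂ V'] {ρ : Representation ℂ (GL (Fin 2) F) V}
    {ρ' : Representation ℂ (GL (Fin 2) F) V'} {p : Fˣ} {u : V} {u' : V'}
    (h : IsStVec ρ p u) (h' : IsStVec ρ' p u') : IsStVec (prodRep ρ ρ') p (u, u') := by
  refine ⟨fun g hg => ?_, fun z => ?_, ?_, ?_⟩
  · rw [prodRep_apply, h.iw g hg, h'.iw g hg]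
  · rw [prodRep_apply, h.z, h'.z]
  · rw [prodRep_apply, h.w, h'.w]; rfl
  · rw [prodRep_apply, prodRep_apply, Prod.mk_add_mk, Prod.mk_add_mk, h.star, h'.star]; rfl

lemma continuous_iinf : Continuous iinf := by
  have : (iinf : GL (Fin 2) Kinf → GA) = fun h => (1, h) := rfl
  rw [this]; fun_prop

lemma IsSmooth.pull {G H : Type} [Group G] [TopologicalSpace G] [Group H] [TopologicalSpace H]
    {V : Type} [AddCommGroup V] [Module ℂ V] {ρ : Representation ℂ G V} {x : V}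
    (h : IsSmooth ρ x) {i : H →* G} (hi : Continuous i) : IsSmooth (pull i ρ) x := by
  obtain ⟨U, hU, hU'⟩ := h
  exact ⟨U.comap i, hU.preimage hi, fun g hg => hU' _ hg⟩

lemma IsSmooth.prod {H V V' : Type} [Group H] [TopologicalSpace H] [AddCommGroup V] [Module ℂ V]
    [AddCommGroup V'] [Module ℂ V'] {ρ : Representation ℂ H V} {ρ' : Representation ℂ H V'}
    {x : V} {x' : V'} (h : IsSmooth ρ x) (h' : IsSmooth ρ' x') :
    IsSmooth (prodRep ρ ρ') (x, x') := by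
  obtain ⟨U, hU, hU1⟩ := h
  obtain ⟨U', hU', hU1'⟩ := h'
  refine ⟨U ⊓ U', hU.inter hU', fun g hg => ?_⟩
  rw [prodRep_apply, hU1 g hg.1, hU1' g hg.2]

theorem exists_common (π π' : SmoothIrrep GA) (u : π.V) (u' : π'.V) (hu0 : u ≠ 0)
    (hu0' : u' ≠ 0) (hu : IsStVec (pull iinf π.ρ) pinf u)
    (hu' : IsStVec (pull iinf π'.ρ) pinf u') :
    ∃ σ : SmoothIrrep (GL (Fin 2) Kinf), IsComp iinf π σ ∧ IsComp iinf π' σ ∧
      ¬ Iso (trivIrrep (GL (Fin 2) Kinf)) σ := by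
  set R := prodRep (pull iinf π.ρ) (pull iinf π'.ρ) with hR
  have hst : IsStVec R pinf (u, u') := hu.prod hu'
  have hne : ((u, u') : π.V × π'.V) ≠ 0 := fun h => hu0 (congrArg Prod.fst h)
  have hsm : ∀ x ∈ orb R (u, u'), IsSmooth R x := by
    intro x _
    have h1 : IsSmooth π.ρ x.1 := π.smooth x.1
    have h2 : IsSmooth π'.ρ x.2 := π'.smooth x.2
    exact (h1.pull continuous_iinf).prod (h2.pull continuous_iinf)
  set σ := orbIrrep R (u, u') hne (fun z hz hz0 => st_irred R pinf v_pinf res_inf (u, u') hst z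
    hz hz0) hsm with hσ
  refine ⟨σ, ?_, ?_, ?_⟩
  · refine ⟨LinearMap.fst ℂ π.V π'.V ∘ₗ (orb R (u, u')).subtype, ?_, fun h x => rfl⟩
    intro h
    have := LinearMap.congr_fun h ⟨(u, u'), self_mem_orb R _⟩
    exact hu0 this
  · refine ⟨LinearMap.snd ℂ π.V π'.V ∘ₗ (orb R (u, u')).subtype, ?_, fun h x => rfl⟩
    intro h
    have := LinearMap.congr_fun h ⟨(u, u'), self_mem_orb R _⟩
    exact hu0' this
  · rintro ⟨e, he⟩
    have hfix : ∀ (g : GL (Fin 2) Kinf) (x : σ.V), σ.ρ g x = x := by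
      intro g x
      have h1 := he g (e.symm x)
      have h2 : (trivIrrep (GL (Fin 2) Kinf)).ρ g (e.symm x) = e.symm x := rfl
      rw [h2, LinearEquiv.apply_symm_apply] at h1
      exact h1.symm
    have h1 := hfix (wmat pinf) ⟨(u, u'), self_mem_orb R _⟩
    have h2 : R (wmat pinf) (u, u') = (u, u') := congrArg Subtype.val h1
    rw [hst.w] at h2
    have h3 : (2 : ℂ) • ((u, u') : π.V × π'.V) = 0 := by
      have : ((u, u') : π.V × π'.V) + (u, u') = 0 := by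
        nth_rewrite 1 [← h2]; simp
      rw [two_smul]; exact this
    exact hne ((smul_eq_zero.mp h3).resolve_left (by norm_num))

/-! ### The trivial representation as an isobaric sum -/

/-- the constant function one -/
def one' : GA → ℂ := fun _ => 1

lemma rt_one' (g : GA) : rt g one' = one' := rfl

/-- constants -/
def Const : Submodule ℂ (GA → ℂ) := Submodule.span ℂ {one'}

lemma mem_Const {F : GA → ℂ} : F ∈ Const ↔ ∃ c : ℂ, c • one' = F := Submodule.mem_span_singleton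

lemma rt_const {F : GA → ℂ} (hF : F ∈ Const) (g : GA) : rt g F = F := by
  obtain ⟨c, rfl⟩ := mem_Const.mp hF
  rw [map_smul, rt_one']

lemma const_stable : Stable rt Const := fun g x hx => by rw [rt_const hx]; exact hx

lemma const_isAutForm {F : GA → ℂ} (hF : F ∈ Const) : IsAutForm F := by
  classical
  refine ⟨fun γ x => ?_, ⟨⊤, isOpen_univ, fun u _ x => congrFun (rt_const hF u) x⟩, ?_⟩
  · obtain ⟨c, rfl⟩ := mem_Const.mp hF; rfl
  · intro U _
    refine ⟨{one'}, fun f hf _ => ?_⟩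
    have h1 : infSpan F ≤ Const := by
      rw [infSpan, Submodule.span_le]
      rintro _ ⟨g, rfl⟩
      exact const_stable _ _ hF
    simpa [Const] using h1 hf

lemma triv_isAutomorphic : IsAutomorphic (trivIrrep GA) := by
  refine ⟨Const, fun F hF => const_isAutForm hF, const_stable, ?_⟩
  refine ⟨(LinearMap.proj (R := ℂ) (φ := fun _ : GA => ℂ) 1) ∘ₗ Const.subtype, ?_, ?_⟩
  · intro c
    change ℂ at c
    refine ⟨⟨c • one', Submodule.smul_mem _ _ (Submodule.mem_span_singleton_self _)⟩, ?_⟩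
    change c * 1 = c
    ring
  · intro g F
    change (rt g (F : GA → ℂ)) 1 = (F : GA → ℂ) 1
    rw [rt_const F.2]

lemma sqrtAbs_ne_zero {F : Type} [Field F] [Valued F ℤᵐ⁰] {q : ℕ} (hq : q ≠ 0) (x : Fˣ) :
    sqrtAbs q x ≠ 0 := by
  unfold sqrtAbs
  apply zpow_ne_zero
  have : (0 : ℝ) < Real.sqrt q := Real.sqrt_pos.mpr (by exact_mod_cast Nat.pos_of_ne_zero hq)
  exact_mod_cast this.ne'

lemma norm_sqrtAbs_le {F : Type} [Field F] [Valued F ℤᵐ⁰] {q : ℕ} (hq : q ≠ 0) (x : Fˣ)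
    (hx : Valued.v (x : F) ≤ 1) : ‖sqrtAbs q x‖ ≤ 1 := by
  unfold sqrtAbs
  rw [norm_zpow]
  have h1 : (1 : ℝ) ≤ ‖((Real.sqrt q : ℝ) : ℂ)‖ := by
    rw [Complex.norm_real, Real.norm_of_nonneg (Real.sqrt_nonneg _)]
    rw [Real.one_le_sqrt]
    exact_mod_cast Nat.one_le_iff_ne_zero.mpr hq
  have hv0 : Valued.v (x : F) ≠ 0 := by
    rw [Valuation.ne_zero_iff]; exact x.ne_zero
  have h2 : WithZero.log (Valued.v (x : F)) ≤ 0 := by
    rw [← WithZero.exp_log hv0, ← WithZero.exp_zero, WithZero.exp_le_exp] at hx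
    exact hx
  exact zpow_le_one_of_nonpos₀ h1 h2

/-- constants as functions -/
def constMap (X : Type) : ℂ →ₗ[ℂ] (X → ℂ) where
  toFun c _ := c
  map_add' _ _ := rfl
  map_smul' _ _ := rfl

lemma triv_locSum {F : Type} [Field F] [Valued F ℤᵐ⁰] {q : ℕ} (hq : q ≠ 0) (χ₁ χ₂ : Fˣ →* ℂˣ)
    (h₁ : ∀ x, ((χ₁ x : ℂˣ) : ℂ) = (sqrtAbs q x)⁻¹) (h₂ : ∀ x, ((χ₂ x : ℂˣ) : ℂ) = sqrtAbs q x) :
    IsLocSum q χ₁ χ₂ (trivIrrep (GL (Fin 2) F)) := by
  refine ⟨χ₁, χ₂, Or.inl ⟨rfl, rfl⟩, ?_, ?_⟩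
  · intro x hx
    rw [h₁, h₂, norm_inv]
    have h3 := norm_sqrtAbs_le hq x hx
    have h4 : 0 < ‖sqrtAbs q x‖ := norm_pos_iff.mpr (sqrtAbs_ne_zero hq x)
    exact h3.trans ((one_le_inv₀ h4).mpr h3)
  · refine ⟨constMap (GL (Fin 2) F), ?_, ?_, ?_⟩
    · intro a b hab; exact congrFun hab 1
    · intro c
      change ℂ at c
      refine ⟨⟨⊤, isOpen_univ, fun _ _ _ => rfl⟩, fun a d x g => ?_⟩
      change (c : ℂ) = _ * (c : ℂ)
      rw [h₁, h₂]
      have ha := sqrtAbs_ne_zero hq a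
      have hd := sqrtAbs_ne_zero hq d
      have : (sqrtAbs q a)⁻¹ * sqrtAbs q d * (sqrtAbs q a / sqrtAbs q d) = 1 := by
        field_simp
      rw [this, one_mul]
    · intro g x h; rfl

lemma triv_comp {G H : Type} [Group G] [TopologicalSpace G] [Group H] [TopologicalSpace H]
    (i : H →* G) : IsComp i (trivIrrep G) (trivIrrep H) := by
  refine ⟨LinearMap.id, ?_, fun h x => rfl⟩
  intro h
  have h1 : (1 : ℂ) = 0 := LinearMap.congr_fun h (1 : ℂ)
  exact one_ne_zero h1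

lemma triv_isIsobaric : IsIsobaric (trivIrrep GA) := by
  right
  refine ⟨triv_isAutomorphic, ?_⟩
  obtain ⟨χ₁, χ₂, h1, h2, h3, h4⟩ := exists_hecke
  refine ⟨χ₁, χ₂, fun v => ⟨trivIrrep _, triv_comp _, ?_⟩, ⟨trivIrrep _, triv_comp _, ?_⟩⟩
  · exact triv_locSum (Pool.Agent.TH304.BK.J843.qv_ne_zero v) _ _ (h1 v) (h2 v)
  · exact triv_locSum two_ne_zero _ _ h3 h4

end TH824.BK
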