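import Pool.Agent.TH824.BK.Rep

open Polynomial IsDedekindDomain Matrix MeasureTheory
open scoped WithZero RestrictedProduct

noncomputable section

namespace TH824.BK

section Avg

variable {H : Type} [Group H] {V : Type} [AddCommGroup V] [Module ℂ V]

/-- averaging over `K / S` -/
def avg (ρ : Representation ℂ H V) (K S : Subgroup H) [Finite (K ⧸ S.subgroupOf K)] :
    V →ₗ[ℂ] V :=
  letI := Fintype.ofFinite (K ⧸ S.subgroupOf K)
  ((Nat.card (K ⧸ S.subgroupOf K) : ℂ)⁻¹) • ∑ q : K ⧸ S.subgroupOf K, ρ ((q.out : K) : H)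

variable (ρ : Representation ℂ H V) (K S : Subgroup H) [Finite (K ⧸ S.subgroupOf K)]

lemma card_quot_ne_zero : (Nat.card (K ⧸ S.subgroupOf K) : ℂ) ≠ 0 := by
  have : Nat.card (K ⧸ S.subgroupOf K) ≠ 0 := Nat.card_pos.ne'
  exact_mod_cast this

lemma avg_apply (x : V) :
    avg ρ K S x = letI := Fintype.ofFinite (K ⧸ S.subgroupOf K)
      ((Nat.card (K ⧸ S.subgroupOf K) : ℂ)⁻¹) •
        ∑ q : K ⧸ S.subgroupOf K, ρ ((q.out : K) : H) x := by
  simp [avg, LinearMap.sum_apply]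

lemma avg_of_fixed {x : V} (hx : ∀ k ∈ K, ρ k x = x) : avg ρ K S x = x := by
  letI := Fintype.ofFinite (K ⧸ S.subgroupOf K)
  rw [avg_apply, Finset.sum_congr rfl (fun q _ => hx _ (q.out : K).2)]
  rw [Finset.sum_const, Finset.card_univ, ← Nat.card_eq_fintype_card]
  rw [← Nat.cast_smul_eq_nsmul ℂ, smul_smul, inv_mul_cancel₀ (card_quot_ne_zero K S), one_smul]

lemma rho_eq_of_mk_eq {x : V} (hx : ∀ s ∈ S, ρ s x = x) {a b : K}
    (hab : (QuotientGroup.mk a : K ⧸ S.subgroupOf K) = QuotientGroup.mk b) :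
    ρ (a : H) x = ρ (b : H) x := by
  rw [QuotientGroup.eq] at hab
  have h1 : ((a⁻¹ * b : K) : H) ∈ S := hab
  have h2 := hx _ h1
  have h3 : (b : H) = (a : H) * ((a⁻¹ * b : K) : H) := by simp
  rw [h3, map_mul]
  change _ = ρ (a : H) (ρ _ x)
  rw [h2]

lemma avg_fixed {x : V} (hx : ∀ s ∈ S, ρ s x = x) (k : H) (hk : k ∈ K) :
    ρ k (avg ρ K S x) = avg ρ K S x := by
  letI := Fintype.ofFinite (K ⧸ S.subgroupOf K)
  rw [avg_apply, map_smul, map_sum]
  congr 1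
  have h1 : ∀ q : K ⧸ S.subgroupOf K, ρ k (ρ ((q.out : K) : H) x) =
      ρ ((((⟨k, hk⟩ : K) • q).out : K) : H) x := by
    intro q
    have h2 : ρ k (ρ ((q.out : K) : H) x) = ρ (((⟨k, hk⟩ * q.out : K)) : H) x := by
      rw [Subgroup.coe_mul, map_mul]; rfl
    rw [h2]
    apply rho_eq_of_mk_eq ρ K S hx
    rw [QuotientGroup.out_eq']
    conv_rhs => rw [← QuotientGroup.out_eq' q]
    rfl
  rw [Finset.sum_congr rfl (fun q _ => h1 q)]
  exact Fintype.sum_equiv (MulAction.toPerm (⟨k, hk⟩ : K)) _ _ (fun q => rfl)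

lemma avg_right [(S.subgroupOf K).Normal] {x : V} (hx : ∀ s ∈ S, ρ s x = x) (k : H) (hk : k ∈ K) :
    avg ρ K S (ρ k x) = avg ρ K S x := by
  letI := Fintype.ofFinite (K ⧸ S.subgroupOf K)
  rw [avg_apply, avg_apply]
  congr 1
  have h1 : ∀ q : K ⧸ S.subgroupOf K, ρ ((q.out : K) : H) (ρ k x) =
      ρ (((q * (QuotientGroup.mk (⟨k, hk⟩ : K) : K ⧸ S.subgroupOf K)).out : K) : H) x := by
    intro q
    have h2 : ρ ((q.out : K) : H) (ρ k x) = ρ (((q.out * ⟨k, hk⟩ : K)) : H) x := by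
      rw [Subgroup.coe_mul, map_mul]; rfl
    rw [h2]
    apply rho_eq_of_mk_eq ρ K S hx
    rw [QuotientGroup.out_eq', QuotientGroup.mk_mul, QuotientGroup.out_eq']
  rw [Finset.sum_congr rfl (fun q _ => h1 q)]
  exact Fintype.sum_equiv (Equiv.mulRight (QuotientGroup.mk (⟨k, hk⟩ : K) : K ⧸ S.subgroupOf K))
    _ _ (fun q => rfl)

lemma avg_comm (T : V →ₗ[ℂ] V) (hT : ∀ k ∈ K, ∀ x, T (ρ k x) = ρ k (T x)) (x : V) :
    avg ρ K S (T x) = T (avg ρ K S x) := by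
  letI := Fintype.ofFinite (K ⧸ S.subgroupOf K)
  rw [avg_apply, avg_apply, map_smul, map_sum]
  congr 1
  exact Finset.sum_congr rfl fun q _ => (hT _ (q.out : K).2 x).symm

lemma avg_conj [(S.subgroupOf K).Normal] {x : V} (hx : ∀ s ∈ S, ρ s x = x) (k : H)
    (hK : ∀ g ∈ K, k * g * k⁻¹ ∈ K) (hK' : ∀ g ∈ K, k⁻¹ * g * k ∈ K)
    (hS : ∀ g ∈ S, k⁻¹ * g * k ∈ S) :
    avg ρ K S (ρ k x) = ρ k (avg ρ K S x) := by
  letI := Fintype.ofFinite (K ⧸ S.subgroupOf K)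
  have hmul : ∀ a b : H, ρ a (ρ b x) = ρ (a * b) x := fun a b => by rw [map_mul]; rfl
  have hfixk : ∀ s ∈ S, ρ s (ρ k x) = ρ k x := by
    intro s hs
    have h1 := hx _ (hS s hs)
    have h2 : s * k = k * (k⁻¹ * s * k) := by group
    rw [hmul, h2, ← hmul, h1]
  have h1 : avg ρ K S (ρ k (avg ρ K S x)) = ρ k (avg ρ K S x) := by
    apply avg_of_fixed
    intro g hg
    have h2 : g * k = k * (k⁻¹ * g * k) := by group
    have h3 := avg_fixed ρ K S hx _ (hK' g hg)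
    have h4 : ρ g (ρ k (avg ρ K S x)) = ρ k (ρ (k⁻¹ * g * k) (avg ρ K S x)) := by
      have := congrArg (fun a => ρ a (avg ρ K S x)) h2
      simpa [map_mul] using this
    rw [h4, h3]
  rw [← h1]
  conv_rhs => rw [avg_apply ρ K S x]
  rw [map_smul, map_smul, map_sum, map_sum]
  have h2 : ∀ q : K ⧸ S.subgroupOf K, avg ρ K S (ρ k (ρ ((q.out : K) : H) x)) =
      avg ρ K S (ρ k x) := by
    intro q
    have h3 : k * ((q.out : K) : H) = (k * ((q.out : K) : H) * k⁻¹) * k := by group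
    rw [hmul, h3, ← hmul]
    exact avg_right ρ K S hfixk _ (hK _ (q.out : K).2)
  rw [Finset.sum_congr rfl (fun q _ => h2 q), Finset.sum_const, Finset.card_univ,
    ← Nat.card_eq_fintype_card, ← Nat.cast_smul_eq_nsmul ℂ, smul_smul,
    inv_mul_cancel₀ (card_quot_ne_zero K S), one_smul]

lemma avg_map {V' : Type} [AddCommGroup V'] [Module ℂ V'] (ρ' : Representation ℂ H V')
    (T : V →ₗ[ℂ] V') (hT : ∀ k ∈ K, ∀ x, T (ρ k x) = ρ' k (T x)) (x : V) :
    T (avg ρ K S x) = avg ρ' K S (T x) := by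
  letI := Fintype.ofFinite (K ⧸ S.subgroupOf K)
  rw [avg_apply, avg_apply, map_smul, map_sum]
  congr 1
  exact Finset.sum_congr rfl fun q _ => (hT _ (q.out : K).2 x)

end Avg

section Comp

variable {G H : Type} [Group G] [TopologicalSpace G] [Group H]

/-- pull back of a representation -/
def pull {V : Type} [AddCommGroup V] [Module ℂ V] (i : H →* G) (ρ : Representation ℂ G V) :
    Representation ℂ H V := MonoidHom.comp ρ i

@[simp] lemma pull_apply {V : Type} [AddCommGroup V] [Module ℂ V] (i : H →* G)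
    (ρ : Representation ℂ G V) (h : H) : pull i ρ h = ρ (i h) := rfl

/-- `G` is generated by `i H` and elements commuting with `i H`. -/
def Splits (i : H →* G) : Prop :=
  ∀ g : G, ∃ h : H, ∃ g' : G, g = g' * i h ∧ ∀ h', g' * i h' = i h' * g'

variable (i : H →* G) (π : SmoothIrrep G) (K : Subgroup H) (S : ℕ → Subgroup H)
  [∀ M, Finite (K ⧸ (S M).subgroupOf K)]

lemma avg_orb_eventually (hi : Splits i) (z : π.V)
    (hz : ∀ h : H, ∃ M₀, ∀ M ≥ M₀, avg (pull i π.ρ) K (S M) (π.ρ (i h) z) = 0)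
    (x : π.V) (hx : x ∈ orb π.ρ z) : ∃ M₀, ∀ M ≥ M₀, avg (pull i π.ρ) K (S M) x = 0 := by
  refine Submodule.span_induction
    (p := fun x _ => ∃ M₀, ∀ M ≥ M₀, avg (pull i π.ρ) K (S M) x = 0) ?_ ?_ ?_ ?_ hx
  · rintro _ ⟨g, rfl⟩
    obtain ⟨h, g', rfl, hg'⟩ := hi g
    obtain ⟨M₀, hM₀⟩ := hz h
    refine ⟨M₀, fun M hM => ?_⟩
    have h1 : π.ρ (g' * i h) z = π.ρ g' (π.ρ (i h) z) := by rw [map_mul]; rfl
    change avg (pull i π.ρ) K (S M) (π.ρ (g' * i h) z) = 0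
    rw [h1, avg_comm (pull i π.ρ) K (S M) (π.ρ g'), hM₀ M hM, map_zero]
    intro k _ x
    change π.ρ g' (π.ρ (i k) x) = π.ρ (i k) (π.ρ g' x)
    have := congrArg (fun g => π.ρ g x) (hg' k)
    simpa [map_mul] using this
  · exact ⟨0, fun M _ => map_zero _⟩
  · rintro x y _ _ ⟨M₁, h₁⟩ ⟨M₂, h₂⟩
    refine ⟨max M₁ M₂, fun M hM => ?_⟩
    rw [map_add, h₁ M (le_trans (le_max_left _ _) hM), h₂ M (le_trans (le_max_right _ _) hM),
      add_zero]
  · rintro c x _ ⟨M₁, h₁⟩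
    exact ⟨M₁, fun M hM => by rw [map_smul, h₁ M hM, smul_zero]⟩

/-- If `u` is a spherical vector with the Hecke eigenvalues of the trivial representation for
`H`, then `H` acts trivially. -/
lemma trivial_of_avg (hi : Splits i) (u : π.V) (hu : u ≠ 0)
    (hav : ∀ h : H, ∃ M₀, ∀ M ≥ M₀, avg (pull i π.ρ) K (S M) (π.ρ (i h) u) = u) :
    ∀ (h : H) (x : π.V), π.ρ (i h) x = x := by
  have key : ∀ h : H, π.ρ (i h) u = u := by
    intro h
    by_contra hne
    set z := π.ρ (i h) u - u with hzdef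
    have hz : z ≠ 0 := sub_ne_zero.mpr hne
    have htop := π.orb_eq_top z hz
    have h1 : ∀ h' : H, ∃ M₀, ∀ M ≥ M₀, avg (pull i π.ρ) K (S M) (π.ρ (i h') z) = 0 := by
      intro h'
      obtain ⟨M₁, h₁⟩ := hav (h' * h)
      obtain ⟨M₂, h₂⟩ := hav h'
      refine ⟨max M₁ M₂, fun M hM => ?_⟩
      have h3 : π.ρ (i h') z = π.ρ (i (h' * h)) u - π.ρ (i h') u := by
        rw [hzdef, map_sub, map_mul, map_mul]; rfl
      rw [h3, map_sub, h₁ M (le_trans (le_max_left _ _) hM),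
        h₂ M (le_trans (le_max_right _ _) hM), sub_self]
    obtain ⟨M₁, h₁⟩ := avg_orb_eventually i π K S hi z h1 u (by rw [htop]; trivial)
    obtain ⟨M₂, h₂⟩ := hav 1
    have h3 := h₁ (max M₁ M₂) (le_max_left _ _)
    have h4 := h₂ (max M₁ M₂) (le_max_right _ _)
    have h5 : π.ρ (i 1) u = u := by simp
    rw [h5, h3] at h4
    exact hu h4.symm
  intro h x
  have hx : x ∈ orb π.ρ u := by rw [π.orb_eq_top u hu]; trivial
  refine Submodule.span_induction (p := fun x _ => π.ρ (i h) x = x) ?_ ?_ ?_ ?_ hx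
  · rintro _ ⟨g, rfl⟩
    obtain ⟨h₁, g', rfl, hg'⟩ := hi g
    have h2 : π.ρ (i h) (π.ρ (g' * i h₁) u) = π.ρ g' (π.ρ (i (h * h₁)) u) := by
      have h3 : i h * (g' * i h₁) = g' * i (h * h₁) := by
        rw [map_mul, ← mul_assoc, ← mul_assoc, hg' h]
      have := congrArg (fun g => π.ρ g u) h3
      simpa [map_mul] using this
    have h4 : π.ρ (g' * i h₁) u = π.ρ g' (π.ρ (i h₁) u) := by rw [map_mul]; rfl
    change π.ρ (i h) (π.ρ (g' * i h₁) u) = π.ρ (g' * i h₁) u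
    rw [h2, h4, key, key]
  · simp
  · intro x y _ _ hx hy; rw [map_add, hx, hy]
  · intro c x _ hx; rw [map_smul, hx]

/-- no `K`-fixed vectors -/
lemma no_fixed_of_avg (hi : Splits i) (u : π.V) (hu : u ≠ 0)
    (hav : ∀ h : H, ∃ M₀, ∀ M ≥ M₀, avg (pull i π.ρ) K (S M) (π.ρ (i h) u) = 0) :
    ∀ x : π.V, (∀ k ∈ K, π.ρ (i k) x = x) → x = 0 := by
  intro x hx
  have hxo : x ∈ orb π.ρ u := by rw [π.orb_eq_top u hu]; trivial
  obtain ⟨M₁, h₁⟩ := avg_orb_eventually i π K S hi u hav x hxo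
  have h2 := h₁ M₁ le_rfl
  rw [avg_of_fixed (pull i π.ρ) K (S M₁) (x := x) hx] at h2
  exact h2

/-- If `H` acts trivially on `π` then every component of `π` along `i` is a component of the
trivial representation. -/
lemma comp_triv_of_trivial [TopologicalSpace H] (htr : ∀ (h : H) (x : π.V), π.ρ (i h) x = x)
    (σ : SmoothIrrep H) (hσ : IsComp i π σ) : IsComp i (trivIrrep G) σ := by
  obtain ⟨T, hT0, hT⟩ := hσ
  obtain ⟨x₀, hx₀⟩ : ∃ x, T x ≠ 0 := by
    by_contra h; push Not at h; exact hT0 (LinearMap.ext h)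
  obtain ⟨ℓ, hℓ⟩ : ∃ ℓ : Module.Dual ℂ π.V, ℓ (T x₀) ≠ 0 := by
    by_contra h; push Not at h
    exact hx₀ ((Module.forall_dual_apply_eq_zero_iff ℂ (T x₀)).mp h)
  refine ⟨ℓ ∘ₗ T, ?_, ?_⟩
  · intro h
    exact hℓ (LinearMap.congr_fun h x₀)
  · intro h x
    change ℓ (T (σ.ρ h x)) = (1 : Representation ℂ G ℂ) (i h) (ℓ (T x))
    rw [hT, htr]; rfl

/-- if `π` has no `K`-fixed vectors along `i`, its components are not `K`-spherical. -/
lemma no_unram_comp [TopologicalSpace H]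
    (hfix : ∀ x : π.V, (∀ k ∈ K, π.ρ (i k) x = x) → x = 0)
    (σ : SmoothIrrep H) (hσ : IsComp i π σ) (x : σ.V) (hx : x ≠ 0)
    (hxK : ∀ k ∈ K, σ.ρ k x = x) : False := by
  obtain ⟨T, hT0, hT⟩ := hσ
  have hker : LinearMap.ker T = ⊥ := by
    rcases σ.irred (LinearMap.ker T) (by
      intro h x hx
      rw [LinearMap.mem_ker] at hx ⊢
      rw [hT, hx, map_zero]) with h | h
    · exact h
    · exact absurd (LinearMap.ker_eq_top.mp h) hT0
  have h1 : T x = 0 := by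
    apply hfix
    intro k hk
    rw [← hT, hxK k hk]
  exact hx (LinearMap.ker_eq_bot'.mp hker x h1)

end Comp

end TH824.BK
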