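import Pool.Agent.TH822.J838
import Pool.Agent.TH142.BK.J2
import Pool.Agent.TH142.BK.J7
import Pool.Agent.TH419.BK.J3
import Pool.Agent.TH928.J841
import Pool.Agent.TH129.BK.Red
import Pool.Agent.TH304.BK.J843
import Pool.Agent.TH454.BKJ8

open Polynomial IsDedekindDomain Matrix MeasureTheory
open scoped WithZero RestrictedProduct

noncomputable section
namespace TH824.BK

theorem half_line (g : GL (Fin 2) Kinf) : ∃ γ : GL (Fin 2) Rx, ∃ n : ℕ, ∃ k ∈ GO Kinf,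
    ∃ z : Kinfˣ, g = Matrix.GeneralLinearGroup.map
      ((algebraMap Kx Kinf).comp (algebraMap Rx Kx)) γ * amat (pinf⁻¹ ^ n) * k * zmat z :=
  TH129.BK.half_line approx_inf v_pinf g

theorem half_line_unique
    (γ : GL (Fin 2) Rx) (m n : ℕ) (k : GL (Fin 2) Kinf) (hk : k ∈ GO Kinf)
    (z : Kinfˣ) (h : amat (pinf⁻¹ ^ m) = Matrix.GeneralLinearGroup.map
      ((algebraMap Kx Kinf).comp (algebraMap Rx Kx)) γ * amat (pinf⁻¹ ^ n) * k * zmat z) :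
    m = n := TH129.BK.half_line_unique v_pinf γ m n k hk z h

theorem exists_hecke : ∃ χ₁ χ₂ : HeckeChar,
    (∀ v x, ((χ₁.fin v x : ℂˣ) : ℂ) = (sqrtAbs (qv v) x)⁻¹) ∧
    (∀ v x, ((χ₂.fin v x : ℂˣ) : ℂ) = sqrtAbs (qv v) x) ∧
    (∀ x, ((χ₁.inf x : ℂˣ) : ℂ) = (sqrtAbs 2 x)⁻¹) ∧
    (∀ x, ((χ₂.inf x : ℂˣ) : ℂ) = sqrtAbs 2 x) := Pool.Agent.TH304.BK.J843.exists_hecke

end TH824.BK
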