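import Pool.Agent.TH824.BK.Eis2
import Pool.Agent.TH592.BK.J9

open Polynomial IsDedekindDomain Matrix MeasureTheory
open scoped WithZero RestrictedProduct

noncomputable section

namespace TH824.BK

/-- the logarithm of the valuation of the determinant -/
def dl (h : GL (Fin 2) Kinf) : ℤ :=
  WithZero.log (Valued.v (h : Matrix (Fin 2) (Fin 2) Kinf).det)

lemma det_val_ne (h : GL (Fin 2) Kinf) :
    Valued.v (h : Matrix (Fin 2) (Fin 2) Kinf).det ≠ 0 := by
  rw [Valuation.ne_zero_iff]; exact h.det.ne_zero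

lemma dl_mul (a b : GL (Fin 2) Kinf) : dl (a * b) = dl a + dl b := by
  unfold dl
  rw [Units.val_mul, Matrix.det_mul, map_mul, WithZero.log_mul (det_val_ne a) (det_val_ne b)]

lemma dl_of_one {h : GL (Fin 2) Kinf} (hh : Valued.v (h : Matrix (Fin 2) (Fin 2) Kinf).det = 1) :
    dl h = 0 := by unfold dl; rw [hh]; simp

lemma dl_zmat (z : Kinfˣ) : dl (zmat z) = 2 * WithZero.log (Valued.v (z : Kinf)) := by
  have hz : Valued.v (z : Kinf) ≠ 0 := by rw [Valuation.ne_zero_iff]; exact z.ne_zero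
  unfold dl
  have : (zmat z : GL (Fin 2) Kinf).val.det = (z : Kinf) * z := by
    rw [coe_zmat, Matrix.det_fin_two_of]; ring
  rw [this, map_mul, WithZero.log_mul hz hz]; ring

lemma dl_ww : dl ww = -1 := by
  unfold dl
  have : (ww : GL (Fin 2) Kinf).val.det = -(pinf : Kinf) := by
    rw [ww, coe_wmat, Matrix.det_fin_two_of]; ring
  rw [this, Valuation.map_neg, v_pinf]; simp

lemma v_Tpow (n : ℕ) : Valued.v (((pinf⁻¹ ^ n : Kinfˣ) : Kinf)) = WithZero.exp (n : ℤ) := by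
  rw [Units.val_pow_eq_pow_val, map_pow, Units.val_inv_eq_inv_val, map_inv₀, v_pinf,
    ← WithZero.exp_neg, ← WithZero.exp_nsmul]; simp

lemma dl_an (n : ℕ) : dl (an n) = n := by
  unfold dl
  have : (an n : GL (Fin 2) Kinf).val.det = ((pinf⁻¹ ^ n : Kinfˣ) : Kinf) := by
    rw [an, coe_amat, Matrix.det_fin_two_of]; ring
  rw [this, v_Tpow]; simp

lemma dl_Iw {ι : GL (Fin 2) Kinf} (h : ι ∈ Iw Kinf) : dl ι = 0 := dl_of_one h.1.2

/-- the stabilizer of an (unoriented) edge -/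
def InJ (h : GL (Fin 2) Kinf) : Prop :=
  ∃ z : Kinfˣ, ∃ ι ∈ Iw Kinf, h = zmat z * ι ∨ h = zmat z * ι * ww

/-- the sign character -/
def eps (h : GL (Fin 2) Kinf) : ℂ := (-1) ^ dl h

lemma eps_mul (a b : GL (Fin 2) Kinf) : eps (a * b) = eps a * eps b := by
  unfold eps; rw [dl_mul, zpow_add₀ (by norm_num)]

lemma eps_z (z : Kinfˣ) : eps (zmat z) = 1 := by
  unfold eps; rw [dl_zmat, _root_.zpow_mul]; simp

lemma eps_ww : eps ww = -1 := by
  unfold eps; rw [dl_ww]; norm_num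

lemma eps_Iw {ι : GL (Fin 2) Kinf} (h : ι ∈ Iw Kinf) : eps ι = 1 := by
  unfold eps; rw [dl_Iw h]; simp

lemma ww_conj' {ι : GL (Fin 2) Kinf} (hι : ι ∈ Iw Kinf) : ww * ι * ww⁻¹ ∈ Iw Kinf := by
  have h1 := ww_conj hι
  have h2 : ww * ι * ww⁻¹ = ww⁻¹ * ι * ww := by
    have h3 : ww * ww * ι = ι * (ww * ww) := by rw [ww_sq, zmat_comm]
    have h4 : ww⁻¹ * (ww * ww * ι) * ww⁻¹ = ww⁻¹ * (ι * (ww * ww)) * ww⁻¹ := by rw [h3]
    calc ww * ι * ww⁻¹ = ww⁻¹ * (ww * ww * ι) * ww⁻¹ := by group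
      _ = ww⁻¹ * (ι * (ww * ww)) * ww⁻¹ := h4
      _ = _ := by group
  rw [h2]; exact h1

lemma InJ.mul_Iw {h : GL (Fin 2) Kinf} (hh : InJ h) {ι : GL (Fin 2) Kinf} (hι : ι ∈ Iw Kinf) :
    InJ (h * ι) := by
  obtain ⟨z, ι', hι', rfl | rfl⟩ := hh
  · exact ⟨z, ι' * ι, (Iw Kinf).mul_mem hι' hι, Or.inl (by rw [mul_assoc])⟩
  · refine ⟨z, ι' * (ww * ι * ww⁻¹), (Iw Kinf).mul_mem hι' (ww_conj' hι), Or.inr ?_⟩
    group

lemma InJ.mul_z {h : GL (Fin 2) Kinf} (hh : InJ h) (z' : Kinfˣ) : InJ (h * zmat z') := by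
  obtain ⟨z, ι', hι', rfl | rfl⟩ := hh
  · refine ⟨z' * z, ι', hι', Or.inl ?_⟩
    rw [← zmat_comm, ← mul_assoc, zmat_mul]
  · refine ⟨z' * z, ι', hι', Or.inr ?_⟩
    rw [← zmat_comm, ← zmat_mul]; group

lemma InJ.mul_ww {h : GL (Fin 2) Kinf} (hh : InJ h) : InJ (h * ww) := by
  obtain ⟨z, ι', hι', rfl | rfl⟩ := hh
  · exact ⟨z, ι', hι', Or.inr rfl⟩
  · refine ⟨z * pinf, ι', hι', Or.inl ?_⟩
    rw [mul_assoc _ ww ww, ww_sq, ← zmat_mul, mul_assoc, ← zmat_comm pinf ι', ← mul_assoc]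

lemma InJ_one : InJ 1 := ⟨1, 1, (Iw Kinf).one_mem, Or.inl (by rw [zmat_one, one_mul])⟩

/-- the support of the cusp form modulo `G(K)` -/
def InS (x : GA) : Prop := (∀ v, x.1 v ∈ GO (Kv v)) ∧ InJ x.2

/-- the value of the cusp form on the support -/
def cval (x : GA) : ℂ := cfun (x.1 v3) * eps x.2

/-- integral and unramified at all finite places -/
lemma poly_const {r : Rx} (h : Valued.v (algebraMap Kx Kinf (algebraMap Rx Kx r)) ≤ 1) :
    ∃ a : ZMod 2, r = C a := by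
  by_cases h0 : r = 0
  · exact ⟨0, by rw [h0, map_zero]⟩
  · have h1 := TH129.BK.v_poly_ne r h0
    rw [h1, ← WithZero.exp_zero, WithZero.exp_le_exp] at h
    exact ⟨_, eq_C_of_natDegree_eq_zero (by omega)⟩

lemma ofR_Iw {γ : GL (Fin 2) Rx} (hdet : (γ : Matrix (Fin 2) (Fin 2) Rx).det = 1)
    (h : Matrix.GeneralLinearGroup.map (algebraMap Kx Kinf) (ofR γ) ∈ Iw Kinf) :
    ofR γ = 1 ∨ ofR γ = nmat 1 := by
  have h00 : ∃ a : ZMod 2, (γ : Matrix (Fin 2) (Fin 2) Rx) 0 0 = C a := poly_const (h.1.1 0 0)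
  have h01 : ∃ a : ZMod 2, (γ : Matrix (Fin 2) (Fin 2) Rx) 0 1 = C a := poly_const (h.1.1 0 1)
  have h11 : ∃ a : ZMod 2, (γ : Matrix (Fin 2) (Fin 2) Rx) 1 1 = C a := poly_const (h.1.1 1 1)
  have h10 : (γ : Matrix (Fin 2) (Fin 2) Rx) 1 0 = 0 := TH129.BK.poly_eq_zero_of_lt _ h.2
  obtain ⟨a, ha⟩ := h00
  obtain ⟨b, hb⟩ := h01
  obtain ⟨d, hd⟩ := h11
  rw [Matrix.det_fin_two, h10, ha, hd, mul_zero, sub_zero, ← C_mul, ← C_1] at hdet
  have had : a * d = 1 := C_injective hdet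
  have ha1 : a = 1 := by
    rcases zmod2_cases a with rfl | rfl
    · simp at had
    · rfl
  have hd1 : d = 1 := by
    rcases zmod2_cases d with rfl | rfl
    · simp at had
    · rfl
  have hval : ∀ i j, ((ofR γ : GL (Fin 2) Kx) : Matrix (Fin 2) (Fin 2) Kx) i j =
      algebraMap Rx Kx ((γ : Matrix (Fin 2) (Fin 2) Rx) i j) := fun i j => rfl
  rcases zmod2_cases b with rfl | rfl
  · left
    ext i j
    rw [hval]
    fin_cases i <;> fin_cases j <;> simp [ha, hb, hd, h10, ha1, hd1]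
  · right
    ext i j
    rw [hval]
    fin_cases i <;> fin_cases j <;> simp [ha, hb, hd, h10, ha1, hd1]

lemma map_fst_mem {γ : GL (Fin 2) Kx} {x : GA} (hx : ∀ v, x.1 v ∈ GO (Kv v))
    (hx' : ∀ v, (idiag γ * x).1 v ∈ GO (Kv v)) (v : Pl) :
    Matrix.GeneralLinearGroup.map (algebraMap Kx (Kv v)) γ ∈ GO (Kv v) := by
  have h1 := (GO (Kv v)).mul_mem (hx' v) ((GO (Kv v)).inv_mem (hx v))
  simpa using h1

lemma cval_unique {γ : GL (Fin 2) Kx} {x : GA} (hx : InS x) (hx' : InS (idiag γ * x)) :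
    cval (idiag γ * x) = cval x := by
  obtain ⟨γ', hγ', hdet⟩ := exists_ofR γ (map_fst_mem hx.1 hx'.1)
  subst hγ'
  set gi := Matrix.GeneralLinearGroup.map (algebraMap Kx Kinf) (ofR γ') with hgi
  have hdet1 : Valued.v (gi : Matrix (Fin 2) (Fin 2) Kinf).det = 1 := by
    have : (gi : Matrix (Fin 2) (Fin 2) Kinf).det =
        algebraMap Kx Kinf (algebraMap Rx Kx (γ' : Matrix (Fin 2) (Fin 2) Rx).det) := by
      rw [RingHom.map_det, RingHom.map_det]; rfl
    rw [this, hdet]; simp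
  have hdl : dl gi = 0 := dl_of_one hdet1
  have hx2 : (idiag (ofR γ') * x).2 = gi * x.2 := rfl
  have hIw : gi ∈ Iw Kinf := by
    obtain ⟨z, ι, hι, hz⟩ := hx.2
    obtain ⟨z', ι', hι', hz'⟩ := hx'.2
    rw [hx2] at hz'
    have hdlx : dl (gi * x.2) = dl x.2 := by rw [dl_mul, hdl, zero_add]
    have key : ∀ a b : GL (Fin 2) Kinf, a ∈ Iw Kinf → b ∈ Iw Kinf → gi * (zmat z * a) =
        zmat z' * b → gi ∈ Iw Kinf := by
      intro a b ha hb hab
      have h1 : gi = zmat (z' * z⁻¹) * (b * a⁻¹) := by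
        have : gi = zmat z' * b * (zmat z * a)⁻¹ := by rw [← hab]; group
        rw [this, _root_.mul_inv_rev, zmat_inv, ← zmat_mul, zmat_comm z' (zmat z⁻¹)]
        have h2 := zmat_comm z⁻¹ (zmat z' * b * a⁻¹)
        rw [← mul_assoc, ← h2]; group
      have h3 : dl (zmat (z' * z⁻¹) : GL (Fin 2) Kinf) = 0 := by
        have h4 : dl gi = dl (zmat (z' * z⁻¹) : GL (Fin 2) Kinf) + dl (b * a⁻¹) := by
          rw [← dl_mul, ← h1]
        rw [hdl, dl_Iw ((Iw Kinf).mul_mem hb ((Iw Kinf).inv_mem ha)), add_zero] at h4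
        exact h4.symm
      rw [dl_zmat] at h3
      have hv : Valued.v ((z' * z⁻¹ : Kinfˣ) : Kinf) = 1 := by
        have hne : Valued.v ((z' * z⁻¹ : Kinfˣ) : Kinf) ≠ 0 := by
          rw [Valuation.ne_zero_iff]; exact Units.ne_zero _
        rw [← WithZero.exp_log hne, ← WithZero.exp_zero]
        congr 1; omega
      rw [h1]
      refine (Iw Kinf).mul_mem ?_ ((Iw Kinf).mul_mem hb ((Iw Kinf).inv_mem ha))
      refine ⟨⟨fun i j => ?_, ?_⟩, by simp⟩
      · rw [coe_zmat]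
        fin_cases i <;> fin_cases j
        · exact hv.le
        · simp
        · simp
        · exact hv.le
      · rw [coe_zmat, Matrix.det_fin_two_of, mul_zero, sub_zero, map_mul, hv, one_mul]
    rcases hz with hz | hz <;> rcases hz' with hz' | hz'
    · exact key ι ι' hι hι' (by rw [← hz, hz'])
    · exfalso
      rw [hz', hz, dl_mul, dl_mul, dl_mul, dl_zmat, dl_zmat, dl_Iw hι, dl_Iw hι', dl_ww] at hdlx
      omega
    · exfalso
      rw [hz', hz, dl_mul, dl_mul, dl_mul, dl_zmat, dl_zmat, dl_Iw hι, dl_Iw hι', dl_ww] at hdlx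
      omega
    · refine key ι ι' hι hι' ?_
      have : gi * (zmat z * ι) * ww = zmat z' * ι' * ww := by rw [← hz', hz]; group
      exact mul_right_cancel this
  have heps : eps (idiag (ofR γ') * x).2 = eps x.2 := by
    rw [hx2, eps_mul, eps_Iw hIw, one_mul]
  unfold cval
  rw [heps]
  congr 1
  rcases ofR_Iw hdet hIw with h1 | h1
  · rw [h1, map_one, one_mul]
  · rw [h1]
    have : (idiag (nmat 1) * x).1 v3 = nmat 1 * x.1 v3 := by
      rw [GA_mul_fst, idiag_fst]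
      congr 1
      ext i j
      fin_cases i <;> fin_cases j <;> simp
    rw [this]
    exact cfun_n1 _ (hx.1 v3)

open Classical in
/-- The cusp form (level `t^3+t+1`, Steinberg at infinity). -/
def fcusp (g : GA) : ℂ :=
  if h : ∃ γ : GL (Fin 2) Kx, InS (idiag γ * g) then cval (idiag h.choose * g) else 0

lemma fcusp_eq {γ : GL (Fin 2) Kx} {g : GA} (h : InS (idiag γ * g)) :
    fcusp g = cval (idiag γ * g) := by
  have hex : ∃ γ : GL (Fin 2) Kx, InS (idiag γ * g) := ⟨γ, h⟩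
  rw [fcusp, dif_pos hex]
  have h1 : idiag hex.choose * g = idiag (hex.choose * γ⁻¹) * (idiag γ * g) := by
    rw [map_mul, map_inv]; group
  rw [h1]
  apply cval_unique h
  rw [← h1]; exact hex.choose_spec

lemma fcusp_of_InS {g : GA} (h : InS g) : fcusp g = cval g := by
  have := fcusp_eq (γ := 1) (g := g) (by rwa [map_one, one_mul])
  rwa [map_one, one_mul] at this

lemma fcusp_zero {g : GA} (h : ∀ γ : GL (Fin 2) Kx, ¬ InS (idiag γ * g)) : fcusp g = 0 := by
  rw [fcusp, dif_neg]; push Not; exact h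

lemma fcusp_left (γ : GL (Fin 2) Kx) (g : GA) : fcusp (idiag γ * g) = fcusp g := by
  by_cases h : ∃ γ' : GL (Fin 2) Kx, InS (idiag γ' * g)
  · obtain ⟨γ', h⟩ := h
    have h1 : idiag (γ' * γ⁻¹) * (idiag γ * g) = idiag γ' * g := by
      rw [map_mul, map_inv]; group
    rw [fcusp_eq h, fcusp_eq (γ := γ' * γ⁻¹) (by rw [h1]; exact h), h1]
  · push Not at h
    rw [fcusp_zero h, fcusp_zero]
    intro γ' h'
    rw [← mul_assoc, ← map_mul] at h'
    exact h _ h'

lemma fcusp_right {k : GA} {c : ℂ} (h1 : ∀ x, InS x → InS (x * k)) (h2 : ∀ x, InS (x * k) → InS x)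
    (h3 : ∀ x, InS x → cval (x * k) = c * cval x) (g : GA) :
    fcusp (g * k) = c * fcusp g := by
  by_cases h : ∃ γ' : GL (Fin 2) Kx, InS (idiag γ' * g)
  · obtain ⟨γ', h⟩ := h
    rw [fcusp_eq h, fcusp_eq (γ := γ') (by rw [← mul_assoc]; exact h1 _ h), ← mul_assoc, h3 _ h]
  · push Not at h
    rw [fcusp_zero h, fcusp_zero, mul_zero]
    intro γ' h'
    rw [← mul_assoc] at h'
    exact h _ (h2 _ h')

lemma InS_iinf {x : GA} {h : GL (Fin 2) Kinf} (hx : ∀ v, x.1 v ∈ GO (Kv v))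
    (hJ : InJ (x.2 * h)) : InS (x * iinf h) := ⟨fun v => by simpa using hx v, hJ⟩

lemma fcusp_Iw {ι : GL (Fin 2) Kinf} (hι : ι ∈ Iw Kinf) (g : GA) :
    fcusp (g * iinf ι) = fcusp g := by
  rw [fcusp_right (c := 1) (k := iinf ι), one_mul]
  · exact fun x hx => InS_iinf hx.1 (hx.2.mul_Iw hι)
  · intro x hx
    have := InS_iinf (h := ι⁻¹) hx.1 (hx.2.mul_Iw ((Iw Kinf).inv_mem hι))
    rwa [mul_assoc, ← map_mul, mul_inv_cancel, map_one, mul_one] at this
  · intro x _
    simp only [cval, GA_mul_fst, GA_mul_snd, iinf_fst, iinf_snd, RestrictedProduct.one_apply,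
      mul_one, eps_mul, eps_Iw hι, one_mul]

lemma fcusp_z (z : Kinfˣ) (g : GA) : fcusp (g * iinf (zmat z)) = fcusp g := by
  rw [fcusp_right (c := 1) (k := iinf (zmat z)), one_mul]
  · exact fun x hx => InS_iinf hx.1 (hx.2.mul_z z)
  · intro x hx
    have := InS_iinf (h := zmat z⁻¹) hx.1 (hx.2.mul_z z⁻¹)
    rwa [mul_assoc, ← map_mul, zmat_mul, mul_inv_cancel, zmat_one, map_one, mul_one] at this
  · intro x _
    simp only [cval, GA_mul_fst, GA_mul_snd, iinf_fst, iinf_snd, RestrictedProduct.one_apply,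
      mul_one, eps_mul, eps_z, one_mul]

lemma fcusp_ww (g : GA) : fcusp (g * iinf ww) = - fcusp g := by
  rw [fcusp_right (c := -1) (k := iinf ww), neg_one_mul]
  · exact fun x hx => InS_iinf hx.1 hx.2.mul_ww
  · intro x hx
    have h1 := InS_iinf (h := ww) hx.1 hx.2.mul_ww
    rw [mul_assoc, ← map_mul, ww_sq] at h1
    have h2 := InS_iinf (h := zmat pinf⁻¹) h1.1 (h1.2.mul_z pinf⁻¹)
    rwa [mul_assoc, ← map_mul, zmat_mul, mul_inv_cancel, zmat_one, map_one, mul_one] at h2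
  · intro x _
    simp only [cval, GA_mul_fst, GA_mul_snd, iinf_fst, iinf_snd, RestrictedProduct.one_apply,
      mul_one, eps_mul, eps_ww]
    ring

/-- moving an integral matrix from infinity to the finite places -/
def mv (γ : GL (Fin 2) Rx) (kf : GA) : GA :=
  (idiag (ofR γ))⁻¹ * iinf (Matrix.GeneralLinearGroup.map (algebraMap Kx Kinf) (ofR γ)) * kf

lemma mv_fst (γ : GL (Fin 2) Rx) (kf : GA) (v : Pl) : (mv γ kf).1 v =
    (Matrix.GeneralLinearGroup.map (algebraMap Kx (Kv v)) (ofR γ))⁻¹ * kf.1 v := by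
  simp [mv]

lemma mv_snd {γ : GL (Fin 2) Rx} {kf : GA} (h : kf.2 = 1) : (mv γ kf).2 = 1 := by
  simp [mv, h]

lemma mv_mem {γ : GL (Fin 2) Rx} {kf : GA} (h : ∀ v, kf.1 v ∈ GO (Kv v)) (v : Pl) :
    (mv γ kf).1 v ∈ GO (Kv v) := by
  rw [mv_fst]; exact (GO (Kv v)).mul_mem ((GO (Kv v)).inv_mem (ofR_mem γ v)) (h v)

lemma fcusp_mv (γ : GL (Fin 2) Rx) {kf : GA} (h : kf.2 = 1) (y : GL (Fin 2) Kinf) :
    fcusp (kf * iinf (Matrix.GeneralLinearGroup.map (algebraMap Kx Kinf) (ofR γ) * y)) =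
      fcusp (mv γ kf * iinf y) := by
  rw [← fcusp_left (ofR γ) (mv γ kf * iinf y)]
  congr 1
  apply GA_ext
  · intro v; simp [mv]
  · simp [mv, h]

/-- vanishing high in the cusps -/
lemma fcusp_an {kf : GA} (h : kf.2 = 1) (hk : ∀ v, kf.1 v ∈ GO (Kv v)) {n : ℕ} (hn : 1 ≤ n) :
    fcusp (kf * iinf (an n)) = 0 := by
  apply fcusp_zero
  intro γ hS
  have hmem : ∀ v, Matrix.GeneralLinearGroup.map (algebraMap Kx (Kv v)) γ ∈ GO (Kv v) := by
    intro v
    have h1 := (GO (Kv v)).mul_mem (hS.1 v) ((GO (Kv v)).inv_mem (hk v))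
    simpa using h1
  obtain ⟨γ', hγ', hdet⟩ := exists_ofR γ hmem
  subst hγ'
  set gi := Matrix.GeneralLinearGroup.map (algebraMap Kx Kinf) (ofR γ') with hgi
  have hdetv : (gi : Matrix (Fin 2) (Fin 2) Kinf).det = 1 := by
    have : (gi : Matrix (Fin 2) (Fin 2) Kinf).det =
        algebraMap Kx Kinf (algebraMap Rx Kx (γ' : Matrix (Fin 2) (Fin 2) Rx).det) := by
      rw [RingHom.map_det, RingHom.map_det]; rfl
    rw [this, hdet]; simp
  have hdl : dl gi = 0 := dl_of_one (by rw [hdetv, map_one])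
  have hx2 : (idiag (ofR γ') * (kf * iinf (an n))).2 = gi * an n := by simp [h, hgi]
  obtain ⟨z, ι, hι, hz⟩ := hS.2
  rw [hx2] at hz
  have hz0 : Valued.v (z : Kinf) ≠ 0 := by rw [Valuation.ne_zero_iff]; exact z.ne_zero
  set m : ℤ := WithZero.log (Valued.v (z : Kinf)) with hm
  have hzm : Valued.v (z : Kinf) = WithZero.exp m := (WithZero.exp_log hz0).symm
  have hcol : ∀ i, (gi * an n : GL (Fin 2) Kinf).val i 0 =
      (gi : Matrix (Fin 2) (Fin 2) Kinf) i 0 * ((pinf⁻¹ ^ n : Kinfˣ) : Kinf) := by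
    intro i
    rw [Units.val_mul, an, coe_amat]
    fin_cases i <;> simp [Matrix.mul_apply, Fin.sum_univ_two]
  -- both entries of the first column of `gi` have valuation `< 1`
  have hlt : ∀ i, Valued.v ((gi : Matrix (Fin 2) (Fin 2) Kinf) i 0) < 1 := by
    intro i
    have h1 : Valued.v ((gi * an n : GL (Fin 2) Kinf).val i 0) =
        Valued.v ((gi : Matrix (Fin 2) (Fin 2) Kinf) i 0) * WithZero.exp (n : ℤ) := by
      rw [hcol, map_mul, v_Tpow]
    have h2 : Valued.v ((gi * an n : GL (Fin 2) Kinf).val i 0) < WithZero.exp (n : ℤ) := by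
      rcases hz with hz | hz
      · have hdl2 : dl (gi * an n) = dl (zmat z * ι) := by rw [hz]
        rw [dl_mul, dl_mul, hdl, dl_an, dl_zmat, dl_Iw hι] at hdl2
        rw [hz]
        have h3 : (zmat z * ι : GL (Fin 2) Kinf).val i 0 =
            (z : Kinf) * (ι : Matrix (Fin 2) (Fin 2) Kinf) i 0 := by
          rw [Units.val_mul, coe_zmat]
          fin_cases i <;> simp [Matrix.mul_apply, Fin.sum_univ_two, Matrix.vecMul, dotProduct]
        rw [h3, map_mul, hzm]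
        refine lt_of_le_of_lt (mul_le_of_le_one_right' (hι.1.1 i 0)) ?_
        rw [WithZero.exp_lt_exp]; omega
      · have hdl2 : dl (gi * an n) = dl (zmat z * ι * ww) := by rw [hz]
        rw [dl_mul, dl_mul, dl_mul, hdl, dl_an, dl_zmat, dl_Iw hι, dl_ww] at hdl2
        rw [hz]
        have h3 : (zmat z * ι * ww : GL (Fin 2) Kinf).val i 0 =
            (z : Kinf) * ((ι : Matrix (Fin 2) (Fin 2) Kinf) i 1 * (pinf : Kinf)) := by
          rw [Units.val_mul, Units.val_mul, coe_zmat, ww, coe_wmat]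
          fin_cases i <;> simp [Matrix.mul_apply, Fin.sum_univ_two, Matrix.vecMul, dotProduct,
            mul_assoc]
        rw [h3, map_mul, map_mul, hzm, v_pinf]
        have h4 : Valued.v ((ι : Matrix (Fin 2) (Fin 2) Kinf) i 1) * WithZero.exp (-1 : ℤ) ≤
            WithZero.exp (-1 : ℤ) := mul_le_of_le_one_left' (hι.1.1 i 1)
        refine lt_of_le_of_lt (mul_le_mul_right h4 _) ?_
        rw [← WithZero.exp_add, WithZero.exp_lt_exp]; omega
    rw [h1] at h2
    have h5 : (0 : ℤᵐ⁰) < WithZero.exp (n : ℤ) := WithZero.exp_pos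
    by_contra hcon
    push Not at hcon
    exact absurd h2 (not_lt.mpr (le_mul_of_one_le_left' hcon))
  have h00 : (γ' : Matrix (Fin 2) (Fin 2) Rx) 0 0 = 0 := TH129.BK.poly_eq_zero_of_lt _ (hlt 0)
  have h10 : (γ' : Matrix (Fin 2) (Fin 2) Rx) 1 0 = 0 := TH129.BK.poly_eq_zero_of_lt _ (hlt 1)
  rw [Matrix.det_fin_two, h00, h10] at hdet
  simp at hdet

lemma cval_kf {kf : GA} (h : kf.2 = 1) : cval kf = cfun (kf.1 v3) := by
  rw [cval, h, eps_Iw (Iw Kinf).one_mem, mul_one]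

lemma fcusp_kf {kf : GA} (h : kf.2 = 1) (hk : ∀ v, kf.1 v ∈ GO (Kv v)) :
    fcusp kf = cfun (kf.1 v3) := by
  rw [fcusp_of_InS ⟨hk, by rw [h]; exact InJ_one⟩, cval_kf h]

lemma an_smat (n : ℕ) : an (n + 1) * smat = zmat pinf⁻¹ * (an n * ww) := by
  rw [an_ww, ← mul_assoc, zmat_mul, inv_mul_cancel, zmat_one, one_mul]

lemma fcusp_z_mul (kf : GA) (z : Kinfˣ) (y : GL (Fin 2) Kinf) :
    fcusp (kf * iinf (zmat z * y)) = fcusp (kf * iinf y) := by
  rw [map_mul, iinf_z_central, ← mul_assoc, fcusp_z]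

lemma an_zero : an 0 = 1 := by
  ext i j; fin_cases i <;> fin_cases j <;> simp [an]

lemma star_kf {kf : GA} (h : kf.2 = 1) (hk : ∀ v, kf.1 v ∈ GO (Kv v)) (n : ℕ) :
    fcusp (kf * iinf (an n)) + fcusp (kf * iinf (an n * smat)) +
      fcusp (kf * iinf (an n * (nmat 1 * smat))) = 0 := by
  rcases n with _ | n
  · rw [an_zero, one_mul, one_mul, map_one, mul_one, fcusp_kf h hk]
    have e1 : fcusp (kf * iinf smat) = cfun (smat * kf.1 v3) := by
      have h1 := fcusp_mv sR h 1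
      rw [mul_one, map_sR, map_one, mul_one] at h1
      rw [h1, fcusp_kf (mv_snd h) (mv_mem hk), mv_fst, map_sR]
      rfl
    have e2 : fcusp (kf * iinf (nmat 1 * smat)) = cfun (smat * nmat 1 * kf.1 v3) := by
      have h1 := fcusp_mv (nR 1 * sR) h 1
      rw [mul_one, map_mul, map_mul, map_nR, map_sR, map_one, map_one, map_one, mul_one] at h1
      rw [h1, fcusp_kf (mv_snd h) (mv_mem hk), mv_fst, map_mul, map_mul, map_nR, map_sR]
      congr 2
      rw [inv_eq_iff_mul_eq_one]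
      have hc : (1 : Kv v3) + 1 = 0 := by
        have : (1 : Kx) + 1 = 0 := CharTwo.add_self_eq_zero 1
        have h3 := congrArg (algebraMap Kx (Kv v3)) this
        simpa using h3
      ext i j; fin_cases i <;> fin_cases j <;>
        simp [Matrix.mul_apply, Fin.sum_univ_two, hc]
    rw [e1, e2]
    exact cfun_star _ (hk v3)
  · have e0 : fcusp (kf * iinf (an (n + 1))) = 0 := fcusp_an h hk (by omega)
    have e1 : ∀ {k : GA}, fcusp (k * iinf (an (n + 1) * smat)) = - fcusp (k * iinf (an n)) := by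
      intro k
      rw [an_smat, fcusp_z_mul, map_mul, ← mul_assoc, fcusp_ww]
    have e2 : fcusp (kf * iinf (an (n + 1) * (nmat 1 * smat))) =
        - fcusp (mv (nR (X ^ (n + 1))) kf * iinf (an n)) := by
      rw [← mul_assoc, an_n1, mul_assoc, fcusp_mv _ h, e1]
    rw [e0, e1, e2]
    rcases n with _ | n
    · rw [an_zero, map_one, mul_one, mul_one, fcusp_kf h hk, fcusp_kf (mv_snd h) (mv_mem hk),
        mv_fst, map_nR]
      have h4 : (nmat ((algebraMap Kx (Kv v3)) ((algebraMap Rx Kx) (X ^ (0 + 1)))) :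
          GL (Fin 2) (Kv v3))⁻¹ = nmat (cst X) := by
        rw [inv_eq_iff_mul_eq_one]
        have hc : cst X + cst X = 0 := by
          have : (algebraMap Rx Kx X : Kx) + algebraMap Rx Kx X = 0 := CharTwo.add_self_eq_zero _
          have h3 := congrArg (algebraMap Kx (Kv v3)) this
          simpa [cst] using h3
        have hc' : algebraMap Kx (Kv v3) RatFunc.X + algebraMap Kx (Kv v3) RatFunc.X = 0 := by
          simpa [cst] using hc
        ext i j; fin_cases i <;> fin_cases j <;>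
          simp [Matrix.mul_apply, Fin.sum_univ_two, cst, hc']
      rw [h4, cfun_nt _ (hk v3)]; ring
    · rw [fcusp_an h hk (by omega), fcusp_an (mv_snd h) (mv_mem hk) (by omega)]; ring

/-- the star relation for `fcusp` -/
lemma fcusp_star (g : GA) :
    fcusp g + fcusp (g * iinf smat) + fcusp (g * iinf (nmat 1 * smat)) = 0 := by
  obtain ⟨γ, k, hk, z, hz⟩ := ht_spec g
  set n := ht g
  obtain ⟨kf, hkf⟩ : ∃ kf : GA, kf = k * iinf (k.2)⁻¹ := ⟨_, rfl⟩
  have h2 : kf.2 = 1 := by rw [hkf]; simp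
  have h1 : ∀ v, kf.1 v ∈ GO (Kv v) := by
    intro v; rw [hkf]; simpa using hk.1 v
  have hkk : k = kf * iinf k.2 := by rw [hkf, mul_assoc, ← map_mul]; simp
  have hred : ∀ r : GL (Fin 2) Kinf, fcusp (g * iinf r) = fcusp (kf * iinf (an n * (k.2 * r))) := by
    intro r
    have e1 : g * iinf r = idiag γ * (kf * iinf (an n * (k.2 * r)) * iinf (zmat z)) := by
      rw [hz]
      conv_lhs => rw [hkk]
      have e2 := iinf_comm_of_snd h2 (an n)
      have e3 := iinf_z_central z (iinf r)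
      calc idiag γ * iinf (an n) * (kf * iinf k.2) * iinf (zmat z) * iinf r
          = idiag γ * (iinf (an n) * kf) * iinf k.2 * (iinf (zmat z) * iinf r) := by group
        _ = idiag γ * (kf * iinf (an n)) * iinf k.2 * (iinf r * iinf (zmat z)) := by
            rw [e2, e3]
        _ = _ := by rw [map_mul, map_mul]; group
    rw [e1, fcusp_left, fcusp_z]
  have h0 := hred 1
  rw [map_one, mul_one, mul_one] at h0
  rw [h0, hred, hred]
  have hs := sum_KI res_inf (fun x => fcusp (kf * iinf (an n * x))) (by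
    intro x ι hι
    change fcusp (kf * iinf (an n * (x * ι))) = fcusp (kf * iinf (an n * x))
    rw [← mul_assoc (an n), map_mul iinf (an n * x), ← mul_assoc, fcusp_Iw hι]) hk.2
  rw [hs]
  simpa using star_kf h2 h1 n

lemma fcusp_st : IsStVec (pull iinf rt) pinf fcusp where
  iw g hg := funext fun x => fcusp_Iw hg x
  z z := funext fun x => fcusp_z z x
  w := funext fun x => fcusp_ww x
  star := funext fun x => fcusp_star x

/-- the level subgroup -/
def Ulev : Subgroup GA := UA (fun v => if v = v3 then KM (Kv v) 1 else GO (Kv v)) (Iw Kinf)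

lemma Ulev_isOpen : IsOpen (Ulev : Set GA) := by
  refine UA_isOpen _ _ (fun _ => GO_isOpen) (fun v => ?_) ?_ (fun v => ?_) Iw_isOpen
  · split_ifs
    · exact KM_le_GO 1
    · exact le_rfl
  · refine Filter.mem_of_superset (Set.Finite.compl_mem_cofinite (Set.finite_singleton v3)) ?_
    intro v hv
    have hv' : v ≠ v3 := hv
    simp [hv']
  · split_ifs
    · exact KM_isOpen 1
    · exact GO_isOpen

lemma Ulev_fst {k : GA} (hk : k ∈ Ulev) (v : Pl) : k.1 v ∈ GO (Kv v) := by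
  have := hk.1 v
  beta_reduce at this
  split_ifs at this
  · exact KM_le_GO 1 this
  · exact this

lemma Ulev_v3 {k : GA} (hk : k ∈ Ulev) : k.1 v3 ∈ KM (Kv v3) 1 := by
  have := hk.1 v3
  simpa using this

lemma fcusp_Ulev {k : GA} (hk : k ∈ Ulev) (g : GA) : fcusp (g * k) = fcusp g := by
  rw [fcusp_right (c := 1) (k := k), one_mul]
  · intro x hx
    exact ⟨fun v => (GO (Kv v)).mul_mem (hx.1 v) (Ulev_fst hk v), hx.2.mul_Iw hk.2⟩
  · intro x hx
    refine ⟨fun v => ?_, ?_⟩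
    · have := (GO (Kv v)).mul_mem (hx.1 v) ((GO (Kv v)).inv_mem (Ulev_fst hk v))
      simpa using this
    · have := hx.2.mul_Iw ((Iw Kinf).inv_mem hk.2)
      simpa using this
  · intro x hx
    simp only [cval, GA_mul_fst, GA_mul_snd, eps_mul, eps_Iw hk.2, mul_one, one_mul]
    rw [cfun_right _ _ (hx.1 v3) (Ulev_v3 hk)]

lemma fcusp_smooth : IsSmooth rt fcusp :=
  ⟨Ulev, Ulev_isOpen, fun k hk => funext fun g => fcusp_Ulev hk g⟩

lemma fcusp_ne : fcusp ≠ 0 := by
  obtain ⟨k, hk, hne⟩ := cfun_ne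
  intro h0
  have h1 := congrFun h0 (iv v3 k)
  have hmem : ∀ v, (iv v3 k).1 v ∈ GO (Kv v) := by
    intro v
    by_cases hv : v = v3
    · subst hv; simpa using hk
    · rw [iv_fst_ne hv]; exact (GO (Kv v)).one_mem
  rw [fcusp_kf (by simp) hmem] at h1
  exact hne (by simpa using h1)

lemma bot_stable : Stable rt (⊥ : Submodule ℂ (GA → ℂ)) := by
  intro g x hx
  rw [Submodule.mem_bot] at hx ⊢
  rw [hx, map_zero]

lemma fcusp_good : GoodData ⊥ fcusp where
  hC := bot_stable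
  hCfin := ⟨∅, Set.finite_empty, bot_le⟩
  hCleft := by
    intro F hF γ x
    rw [Submodule.mem_bot] at hF; subst hF; rfl
  hCsm := by
    intro F hF
    rw [Submodule.mem_bot] at hF; subst hF; exact IsSmooth.zero
  left := fcusp_left
  sm := fcusp_smooth
  st := by
    refine ⟨fun g hg => ?_, fun z => ?_, ?_, ?_⟩
    · change (⊥ : Submodule ℂ (GA → ℂ)).mkQ (rt (iinf g) fcusp) = _
      exact congrArg _ (fcusp_st.iw g hg)
    · change (⊥ : Submodule ℂ (GA → ℂ)).mkQ (rt (iinf (zmat z)) fcusp) = _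
      exact congrArg _ (fcusp_st.z z)
    · change (⊥ : Submodule ℂ (GA → ℂ)).mkQ (rt (iinf (wmat pinf)) fcusp) =
        -(⊥ : Submodule ℂ (GA → ℂ)).mkQ fcusp
      rw [← map_neg]
      exact congrArg _ fcusp_st.w
    · change (⊥ : Submodule ℂ (GA → ℂ)).mkQ fcusp + (⊥ : Submodule ℂ (GA → ℂ)).mkQ
        (rt (iinf smat) fcusp) + (⊥ : Submodule ℂ (GA → ℂ)).mkQ
        (rt (iinf (nmat 1 * smat)) fcusp) = 0
      rw [← map_add, ← map_add]
      have h1 : fcusp + rt (iinf smat) fcusp + rt (iinf (nmat 1 * smat)) fcusp = 0 :=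
        fcusp_st.star
      rw [h1, map_zero]
  notin := by rw [Submodule.mem_bot]; exact fcusp_ne

end TH824.BK
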