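import Pool.Agent.TH824.LL.Defs

open Polynomial IsDedekindDomain Matrix MeasureTheory
open scoped WithZero RestrictedProduct

noncomputable section

namespace TH824.BK

/-! ### The field, its places and completions -/

/-- `F_2[t]`. -/
abbrev Rx : Type := Polynomial (ZMod 2)
/-- `K = F_2(t)`. -/
abbrev Kx : Type := RatFunc (ZMod 2)
/-- The finite places of `K` (those not above `∞`). -/
abbrev Pl : Type := HeightOneSpectrum Rx
/-- The completion of `K` at a finite place. -/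
abbrev Kv (v : Pl) : Type := v.adicCompletion Kx

instance decEqKx : DecidableEq Kx := Classical.decEq _
instance decEqPl : DecidableEq Pl := Classical.decEq _

/-- The completion of `K` at the place `∞`, that is `F_2((1/t))`. -/
abbrev Kinf : Type := RatFunc.CompletionAtInfty (ZMod 2)

/-- The maximal compact subgroup `GL_2(O)` of `GL_2(F)`. -/
def GO (F : Type) [Field F] [Valued F ℤᵐ⁰] : Subgroup (GL (Fin 2) F) where
  carrier := {g | (∀ i j, Valued.v ((g : Matrix (Fin 2) (Fin 2) F) i j) ≤ 1) ∧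
    Valued.v (g : Matrix (Fin 2) (Fin 2) F).det = 1}
  one_mem' := by
    refine ⟨fun i j => ?_, by simp⟩
    by_cases h : i = j
    · subst h; simp
    · simp [Matrix.one_apply_ne h]
  mul_mem' := by
    rintro a b ⟨ha, ha'⟩ ⟨hb, hb'⟩
    refine ⟨fun i j => ?_, ?_⟩
    · simp only [Units.val_mul, Matrix.mul_apply, Fin.sum_univ_two]
      refine (Valuation.map_add _ _ _).trans (max_le ?_ ?_)
      · rw [map_mul]; exact mul_le_one' (ha _ _) (hb _ _)
      · rw [map_mul]; exact mul_le_one' (ha _ _) (hb _ _)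
    · simp [Units.val_mul, Matrix.det_mul, ha', hb']
  inv_mem' := by
    rintro a ⟨ha, ha'⟩
    have hdet : Valued.v ((a⁻¹ : GL (Fin 2) F) : Matrix (Fin 2) (Fin 2) F).det = 1 := by
      have h1 : ((a⁻¹ : GL (Fin 2) F) : Matrix (Fin 2) (Fin 2) F).det *
          (a : Matrix (Fin 2) (Fin 2) F).det = 1 := by
        rw [← Matrix.det_mul, ← Units.val_mul, inv_mul_cancel]; simp
      have h2 := congrArg Valued.v h1
      rw [map_mul, ha', mul_one, map_one] at h2
      exact h2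
    refine ⟨fun i j => ?_, hdet⟩
    have hd : (a : Matrix (Fin 2) (Fin 2) F).det ≠ 0 := by
      intro h; rw [h, map_zero] at ha'; exact zero_ne_one ha'
    have hinv : ((a⁻¹ : GL (Fin 2) F) : Matrix (Fin 2) (Fin 2) F) =
        ((a : Matrix (Fin 2) (Fin 2) F).det)⁻¹ • (a : Matrix (Fin 2) (Fin 2) F).adjugate := by
      rw [Matrix.coe_units_inv, Matrix.inv_def, Ring.inverse_eq_inv']
    rw [hinv, Matrix.smul_apply, smul_eq_mul, map_mul, map_inv₀, ha', inv_one, one_mul,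
      Matrix.adjugate_fin_two]
    fin_cases i <;> fin_cases j <;> simp [Valuation.map_neg, ha]

/-- The upper unipotent matrix. -/
def nmat {F : Type} [Field F] (x : F) : GL (Fin 2) F :=
  ⟨!![1, x; 0, 1], !![1, -x; 0, 1], by simp [Matrix.one_fin_two], by simp [Matrix.one_fin_two]⟩

/-- An upper triangular matrix. -/
def bmat {F : Type} [Field F] (a d : Fˣ) (x : F) : GL (Fin 2) F :=
  Matrix.GeneralLinearGroup.mkOfDetNeZero !![(a : F), x; 0, (d : F)] (by simp)

/-! ### The adelic group -/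

/-- The finite part of the adelic group: the restricted product of the `GL_2(K_v)`
with respect to the `GL_2(O_v)`. -/
abbrev Gfin : Type := Πʳ v : Pl, [GL (Fin 2) (Kv v), GO (Kv v)]

/-- `G(A) = GL_2(A_K)`. -/
abbrev GA : Type := Gfin × GL (Fin 2) Kinf

/-- `GL_2(K_v) → GL_2(A_K)` for a finite place `v`. -/
def iv (v : Pl) : GL (Fin 2) (Kv v) →* GA where
  toFun g := (⟨Pi.mulSingle v g, by
    refine Filter.mem_of_superset (Set.Finite.compl_mem_cofinite (Set.finite_singleton v)) ?_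
    intro w hw
    have hw' : w ≠ v := hw
    simp only [Set.mem_ofPred_eq, SetLike.mem_coe]
    rw [Pi.mulSingle_eq_of_ne hw']
    exact (GO (Kv w)).one_mem⟩, 1)
  map_one' := by
    refine Prod.ext ?_ rfl
    apply RestrictedProduct.ext
    intro w
    simp [Pi.mulSingle_one]
  map_mul' a b := by
    refine Prod.ext ?_ (by simp)
    apply RestrictedProduct.ext
    intro w
    simp [Pi.mulSingle_mul]

/-- `GL_2(K_∞) → GL_2(A_K)`. -/
def iinf : GL (Fin 2) Kinf →* GA := MonoidHom.inr _ _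

lemma eventually_val_le (x : Kx) :
    ∀ᶠ v : Pl in Filter.cofinite, Valued.v (algebraMap Kx (Kv v) x) ≤ 1 := by
  have h := (algebraMap Kx (FiniteAdeleRing Rx Kx) x).2
  filter_upwards [h] with v hv
  exact hv

lemma eventually_map_mem_GO (γ : GL (Fin 2) Kx) :
    ∀ᶠ v : Pl in Filter.cofinite,
      Matrix.GeneralLinearGroup.map (algebraMap Kx (Kv v)) γ ∈ (GO (Kv v) : Set _) := by
  have h1 : ∀ᶠ v : Pl in Filter.cofinite, ∀ i j,
      Valued.v (algebraMap Kx (Kv v) ((γ : Matrix (Fin 2) (Fin 2) Kx) i j)) ≤ 1 := by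
    rw [Filter.eventually_all]; intro i
    rw [Filter.eventually_all]; intro j
    exact eventually_val_le _
  have h2 := eventually_val_le (γ : Matrix (Fin 2) (Fin 2) Kx).det
  have h3 := eventually_val_le ((γ : Matrix (Fin 2) (Fin 2) Kx).det)⁻¹
  filter_upwards [h1, h2, h3] with v h1 h2 h3
  refine ⟨fun i j => ?_, ?_⟩
  · simpa using h1 i j
  · have hdet : (((Matrix.GeneralLinearGroup.map (algebraMap Kx (Kv v)) γ : GL (Fin 2) (Kv v)) :
        Matrix (Fin 2) (Fin 2) (Kv v))).det =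
        algebraMap Kx (Kv v) (γ : Matrix (Fin 2) (Fin 2) Kx).det := by
      rw [RingHom.map_det]; rfl
    rw [hdet]
    apply le_antisymm h2
    rw [map_inv₀, map_inv₀] at h3
    have hne : Valued.v (algebraMap Kx (Kv v) (γ : Matrix (Fin 2) (Fin 2) Kx).det) ≠ 0 := by
      rw [Valuation.ne_zero_iff]
      rw [Ne, map_eq_zero]
      intro h0
      have := γ.isUnit.map (Matrix.detMonoidHom)
      exact (γ.det.ne_zero) h0
    exact (inv_le_one₀ (zero_lt_iff.mpr hne)).mp h3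

/-- `GL_2(K) → GL_2(A_K)`. -/
def idiag : GL (Fin 2) Kx →* GA where
  toFun γ := (⟨fun v => Matrix.GeneralLinearGroup.map (algebraMap Kx (Kv v)) γ,
    eventually_map_mem_GO γ⟩, Matrix.GeneralLinearGroup.map (algebraMap Kx Kinf) γ)
  map_one' := by
    refine Prod.ext ?_ (by simp)
    apply RestrictedProduct.ext
    intro w
    simp
  map_mul' a b := by
    refine Prod.ext ?_ (by simp)
    apply RestrictedProduct.ext
    intro w
    simp

/-- The adele ring of `K`. -/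
abbrev AK : Type := FiniteAdeleRing Rx Kx × Kinf

/-- `x ↦ [[1,x],[0,1]]`, `A_K → GL_2(A_K)`. -/
def nA (x : AK) : GA :=
  (⟨fun v => nmat (x.1 v), by
    filter_upwards [x.1.2] with v hv
    refine ⟨fun i j => ?_, by simp [nmat]⟩
    have hv' : Valued.v (x.1 v) ≤ 1 := hv
    fin_cases i <;> fin_cases j <;> simp [nmat, hv']⟩, nmat x.2)

/-- `K` as an additive subgroup of `A_K`. -/
def KA : AddSubgroup AK := (algebraMap Kx AK).toAddMonoidHom.range

instance : MeasurableSpace (AK ⧸ KA) := borel _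
instance : BorelSpace (AK ⧸ KA) := ⟨rfl⟩

/-! ### Smooth irreducible representations -/

export TH824.LL (SmoothIrrep Iso isoSetoid Irr cls)

/-- `σ` is the component of `π` along `i : H → G` (for `G = GL_2(A_K)`, `H = GL_2(K_v)`):
there is a nonzero `H`-equivariant map `σ → π`. For an irreducible
`π = ⊗' π_v` this says exactly that `σ ≅ π_v`. -/
def IsComp {H G : Type} [Group H] [TopologicalSpace H] [Group G] [TopologicalSpace G]
    (i : H →* G) (π : SmoothIrrep G) (σ : SmoothIrrep H) : Prop :=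
  ∃ T : σ.V →ₗ[ℂ] π.V, T ≠ 0 ∧ ∀ h x, T (σ.ρ h x) = π.ρ (i h) (T x)

/-- `σ` is unramified: it has a nonzero vector fixed by `GL_2(O)`. -/
def IsUnram {F : Type} [Field F] [Valued F ℤᵐ⁰] (σ : SmoothIrrep (GL (Fin 2) F)) : Prop :=
  ∃ x : σ.V, x ≠ 0 ∧ ∀ k ∈ GO F, σ.ρ k x = x

/-! ### Automorphic forms -/

/-- Right translation on functions on `G(A)`. -/
def rt : Representation ℂ GA (GA → ℂ) where
  toFun g :=
    { toFun := fun F x => F (x * g)
      map_add' := fun _ _ => rfl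
      map_smul' := fun _ _ => rfl }
  map_one' := by ext F x; simp
  map_mul' a b := by ext F x; simp [mul_assoc]

/-- The span of the translates of `F` under `GL_2(K_∞)`. -/
def infSpan (F : GA → ℂ) : Submodule ℂ (GA → ℂ) :=
  Submodule.span ℂ (Set.range fun g : GL (Fin 2) Kinf => rt (iinf g) F)

/-- Automorphic forms on `GL_2(A_K)` (Borel-Jacquet): functions on `G(K)\G(A)`, right invariant
under an open subgroup, generating an admissible representation of `GL_2(K_∞)`. -/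
structure IsAutForm (F : GA → ℂ) : Prop where
  left_inv : ∀ (γ : GL (Fin 2) Kx) (x : GA), F (idiag γ * x) = F x
  smooth : ∃ U : Subgroup GA, IsOpen (U : Set GA) ∧ ∀ u ∈ U, ∀ x, F (x * u) = F x
  admissible : ∀ U : Subgroup (GL (Fin 2) Kinf), IsOpen (U : Set (GL (Fin 2) Kinf)) →
    ∃ s : Finset (GA → ℂ), ∀ f ∈ infSpan F, (∀ u ∈ U, rt (iinf u) f = f) →
      f ∈ Submodule.span ℂ (s : Set (GA → ℂ))

/-- Cusp forms: the constant term `∫_{K\A} F(n(x)g) dx` vanishes for all `g`. -/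
structure IsCuspForm (F : GA → ℂ) : Prop extends IsAutForm F where
  cuspidal : ∀ (g : GA) (μ : Measure (AK ⧸ KA)) [μ.IsAddHaarMeasure],
    ∫ x : AK ⧸ KA, F (nA (Quotient.out x) * g) ∂μ = 0

/-- `π` is an automorphic representation: an irreducible subquotient of the space of
automorphic forms. -/
def IsAutomorphic (π : SmoothIrrep GA) : Prop :=
  ∃ X : Submodule ℂ (GA → ℂ), (∀ F ∈ X, IsAutForm F) ∧ ∃ hX : ∀ g, ∀ F ∈ X, rt g F ∈ X,
    ∃ T : X →ₗ[ℂ] π.V, Function.Surjective T ∧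
      ∀ g (F : X), T ⟨rt g F, hX g F F.2⟩ = π.ρ g (T F)

/-- `π` is a cuspidal automorphic representation. -/
def IsCuspidal (π : SmoothIrrep GA) : Prop :=
  ∃ X : Submodule ℂ (GA → ℂ), (∀ F ∈ X, IsCuspForm F) ∧ ∃ hX : ∀ g, ∀ F ∈ X, rt g F ∈ X,
    ∃ T : X →ₗ[ℂ] π.V, Function.Surjective T ∧
      ∀ g (F : X), T ⟨rt g F, hX g F F.2⟩ = π.ρ g (T F)

/-! ### Isobaric representations of `GL_2(A_K)` and liftings -/

/-- The normalized absolute value `|x| = q ^ (log v(x))` to the power `1/2`, where `q` is the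
size of the residue field. -/
def sqrtAbs {F : Type} [Field F] [Valued F ℤᵐ⁰] (q : ℕ) (x : Fˣ) : ℂ :=
  ((Real.sqrt q : ℝ) : ℂ) ^ (WithZero.log (Valued.v (x : F)))

/-- The size of the residue field at a finite place. -/
def qv (v : Pl) : ℕ := Nat.card (Rx ⧸ v.asIdeal)

/-- A quasi-character of `A_K^* / K^*`, given by its local components. -/
structure HeckeChar where
  /-- components at the finite places -/
  fin : ∀ v : Pl, (Kv v)ˣ →* ℂˣ
  /-- component at infinity -/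
  inf : Kinfˣ →* ℂˣ
  smooth_fin : ∀ v, IsOpen ((fin v).ker : Set (Kv v)ˣ)
  smooth_inf : IsOpen (inf.ker : Set Kinfˣ)
  unram : ∀ᶠ v in Filter.cofinite, ∀ x : (Kv v)ˣ, Valued.v (x : Kv v) = 1 → fin v x = 1
  prod_eq_one : ∀ x : Kxˣ,
    (∏ᶠ v : Pl, fin v (Units.map (algebraMap Kx (Kv v)) x)) *
      inf (Units.map (algebraMap Kx Kinf) x) = 1

/-- `φ` lies in the normalized principal series `I(χ₁, χ₂)` of `GL_2(F)`. -/
def InPS {F : Type} [Field F] [Valued F ℤᵐ⁰] (q : ℕ) (χ₁ χ₂ : Fˣ →* ℂˣ)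
    (φ : GL (Fin 2) F → ℂ) : Prop :=
  (∃ U : Subgroup (GL (Fin 2) F), IsOpen (U : Set (GL (Fin 2) F)) ∧
    ∀ g, ∀ u ∈ U, φ (g * u) = φ g) ∧
  ∀ (a d : Fˣ) (x : F) (g : GL (Fin 2) F),
    φ (bmat a d x * g) = χ₁ a * χ₂ d * (sqrtAbs q a / sqrtAbs q d) * φ g

/-- `σ = χ₁ ⊞ χ₂` (local isobaric sum, i.e. Langlands quotient): for one of the two orders
with `|χ₁(x)| ≥ |χ₂(x)|` for integral `x`, `σ` embeds in `I(χ₁, χ₂)`.
(The Langlands quotient of `I(χ₂, χ₁)` is the irreducible subrepresentation of `I(χ₁, χ₂)`.) -/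
def IsLocSum {F : Type} [Field F] [Valued F ℤᵐ⁰] (q : ℕ) (χ₁ χ₂ : Fˣ →* ℂˣ)
    (σ : SmoothIrrep (GL (Fin 2) F)) : Prop :=
  ∃ η₁ η₂ : Fˣ →* ℂˣ, ((η₁ = χ₁ ∧ η₂ = χ₂) ∨ (η₁ = χ₂ ∧ η₂ = χ₁)) ∧
    (∀ x : Fˣ, Valued.v (x : F) ≤ 1 → ‖((η₂ x : ℂˣ) : ℂ)‖ ≤ ‖((η₁ x : ℂˣ) : ℂ)‖) ∧
    ∃ T : σ.V →ₗ[ℂ] (GL (Fin 2) F → ℂ), Function.Injective T ∧ (∀ x, InPS q η₁ η₂ (T x)) ∧
      ∀ g x h, T (σ.ρ g x) h = T x (h * g)

/-- `P` is an isobaric automorphic representation of `GL_2(A_K)`: either cuspidal, or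
`χ₁ ⊞ χ₂` with quasi-characters `χ₁, χ₂` of `A_K^*/K^*`. -/
def IsIsobaric (P : SmoothIrrep GA) : Prop :=
  IsCuspidal P ∨ (IsAutomorphic P ∧ ∃ χ₁ χ₂ : HeckeChar,
    (∀ v : Pl, ∃ σ, IsComp (iv v) P σ ∧ IsLocSum (qv v) (χ₁.fin v) (χ₂.fin v) σ) ∧
    ∃ σ, IsComp iinf P σ ∧ IsLocSum 2 χ₁.inf χ₂.inf σ)

/-- `P` is a global lifting of `π` with respect to the standard representation
`ρ = id : GL_2(ℂ) → GL_2(ℂ)`: it is isobaric and `P_v = π_v` at every
place `v` where `π_v` is unramified. -/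
def IsLift (π P : SmoothIrrep GA) : Prop :=
  IsIsobaric P ∧
  (∀ v : Pl, ∀ σ : SmoothIrrep (GL (Fin 2) (Kv v)), IsUnram σ →
    IsComp (iv v) π σ → IsComp (iv v) P σ) ∧
  (∀ σ : SmoothIrrep (GL (Fin 2) Kinf), IsUnram σ → IsComp iinf π σ → IsComp iinf P σ)

/-- The statement Q1 for `F = F_2((1/t))`, `G = GL_2`, `ρ = id`. -/
def LocalLiftExists : Prop :=
  ∃ l : Irr (GL (Fin 2) Kinf) → Irr (GL (Fin 2) Kinf),
    ∀ π P : SmoothIrrep GA, IsAutomorphic π → IsLift π P →
      ∀ σ τ : SmoothIrrep (GL (Fin 2) Kinf), IsComp iinf π σ → IsComp iinf P τ →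
        l (cls σ) = cls τ

end TH824.BK
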