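import Pool.Agent.TH824.BK.Ht

open Polynomial IsDedekindDomain Matrix MeasureTheory
open scoped WithZero RestrictedProduct

noncomputable section

namespace TH824.BK

/-! ### The three cosets of the Iwahori subgroup in `GL_2(O)` -/

section KI

variable {F : Type} [Field F] [Valued F ℤᵐ⁰]

open Classical in
/-- residue in `F_2` -/
def res2 (x : F) : ZMod 2 := if Valued.v x < 1 then 0 else 1

lemma res2_eq_zero {x : F} : res2 x = 0 ↔ Valued.v x < 1 := by
  unfold res2; split_ifs with h <;> simp [h]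

lemma v_lt_of_sub {x y : F} (hx : Valued.v (x - 1) < 1) (hy : Valued.v (y - 1) < 1)
    (h2 : Valued.v (2 : F) < 1) : Valued.v (x + y) < 1 := by
  have : x + y = (x - 1) + (y - 1) + 2 := by ring
  rw [this]
  exact (Valuation.map_add _ _ _).trans_lt (max_lt ((Valuation.map_add _ _ _).trans_lt
    (max_lt hx hy)) h2)

lemma res2_add (hres : ∀ x : F, Valued.v x ≤ 1 → Valued.v x < 1 ∨ Valued.v (x - 1) < 1)
    {x y : F} (hx : Valued.v x ≤ 1) (hy : Valued.v y ≤ 1) : res2 (x + y) = res2 x + res2 y := by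
  have h2 : Valued.v (2 : F) < 1 := by
    have h3 : Valued.v (2 : F) ≤ 1 := by
      have : (2 : F) = 1 + 1 := by norm_num
      rw [this]; exact (Valuation.map_add _ _ _).trans (by simp)
    rcases hres 2 h3 with h | h
    · exact h
    · exfalso
      have : (2 : F) - 1 = 1 := by norm_num
      rw [this] at h; simp at h
  have hone : ∀ z : F, Valued.v z ≤ 1 → ¬ Valued.v z < 1 → Valued.v (z - 1) < 1 :=
    fun z hz hz' => (hres z hz).resolve_left hz'
  unfold res2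
  by_cases h1 : Valued.v x < 1 <;> by_cases h3 : Valued.v y < 1
  · rw [if_pos h1, if_pos h3, if_pos ((Valuation.map_add _ _ _).trans_lt (max_lt h1 h3))]; rfl
  · rw [if_pos h1, if_neg h3, if_neg]; · rfl
    have h4 : Valued.v y = 1 := le_antisymm hy (not_lt.mp h3)
    rw [Valuation.map_add_eq_of_lt_right _ (by rw [h4]; exact h1), h4]
    exact lt_irrefl _
  · rw [if_neg h1, if_pos h3, if_neg]; · rfl
    have h4 : Valued.v x = 1 := le_antisymm hx (not_lt.mp h1)
    rw [Valuation.map_add_eq_of_lt_left _ (by rw [h4]; exact h3), h4]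
    exact lt_irrefl _
  · rw [if_neg h1, if_neg h3, if_pos (v_lt_of_sub (hone x hx h1) (hone y hy h3) h2)]; rfl

lemma res2_mul {x y : F} (hx : Valued.v x ≤ 1) (hy : Valued.v y ≤ 1) :
    res2 (x * y) = res2 x * res2 y := by
  unfold res2
  by_cases h1 : Valued.v x < 1 <;> by_cases h3 : Valued.v y < 1
  · rw [if_pos h1, if_pos h3, if_pos]; · rfl
    rw [map_mul]; exact (mul_le_of_le_one_right' hy).trans_lt h1
  · rw [if_pos h1, if_neg h3, if_pos]; · rfl
    rw [map_mul]; exact (mul_le_of_le_one_right' hy).trans_lt h1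
  · rw [if_neg h1, if_pos h3, if_pos]; · rfl
    rw [map_mul]; exact (mul_le_of_le_one_left' hx).trans_lt h3
  · rw [if_neg h1, if_neg h3, if_neg]; · rfl
    rw [map_mul, le_antisymm hx (not_lt.mp h1), le_antisymm hy (not_lt.mp h3)]; simp

lemma res2_neg {x : F} : res2 (-x) = res2 x := by
  unfold res2; rw [Valuation.map_neg]

lemma zmod2_cases (a : ZMod 2) : a = 0 ∨ a = 1 := by revert a; decide

/-- the classes modulo the Iwahori subgroup -/
lemma phi_cls (hres : ∀ x : F, Valued.v x ≤ 1 → Valued.v x < 1 ∨ Valued.v (x - 1) < 1)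
    (Φ : GL (Fin 2) F → ℂ) (hΦ : ∀ x, ∀ ι ∈ Iw F, Φ (x * ι) = Φ x) {κ : GL (Fin 2) F}
    (hκ : κ ∈ GO F) :
    Φ κ = if res2 ((κ : Matrix (Fin 2) (Fin 2) F) 1 0) = 0 then Φ 1
      else if res2 ((κ : Matrix (Fin 2) (Fin 2) F) 0 0) = 0 then Φ smat else
        Φ (nmat 1 * smat) := by
  split_ifs with h1 h2
  · have := hΦ 1 κ ⟨hκ, res2_eq_zero.mp h1⟩
    rwa [one_mul] at this
  · have h3 : (smat * κ : GL (Fin 2) F) ∈ Iw F := by
      refine ⟨(GO F).mul_mem smat_mem_GO hκ, ?_⟩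
      rw [res2_eq_zero] at h2
      simpa [Matrix.mul_apply, Fin.sum_univ_two] using h2
    have h4 := hΦ smat _ h3
    have h5 : (smat * (smat * κ) : GL (Fin 2) F) = κ := by
      rw [← mul_assoc]
      have : (smat * smat : GL (Fin 2) F) = 1 := by
        ext i j; fin_cases i <;> fin_cases j <;> simp
      rw [this, one_mul]
    rwa [h5] at h4
  · have ha : Valued.v ((κ : Matrix (Fin 2) (Fin 2) F) 0 0 - 1) < 1 :=
      (hres _ (hκ.1 0 0)).resolve_left (fun h => h2 (res2_eq_zero.mpr h))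
    have hc : Valued.v ((κ : Matrix (Fin 2) (Fin 2) F) 1 0 - 1) < 1 :=
      (hres _ (hκ.1 1 0)).resolve_left (fun h => h1 (res2_eq_zero.mpr h))
    have h3 : (smat * nmat (-1) * κ : GL (Fin 2) F) ∈ Iw F := by
      refine ⟨(GO F).mul_mem ((GO F).mul_mem smat_mem_GO (nmat_mem_GO (by simp))) hκ, ?_⟩
      have h6 : ((smat * nmat (-1) * κ : GL (Fin 2) F) : Matrix (Fin 2) (Fin 2) F) 1 0 =
          ((κ : Matrix (Fin 2) (Fin 2) F) 0 0 - 1) - ((κ : Matrix (Fin 2) (Fin 2) F) 1 0 - 1) := by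
        simp [Matrix.mul_apply, Fin.sum_univ_two]; ring
      rw [h6]
      exact (Valuation.map_sub _ _ _).trans_lt (max_lt ha hc)
    have h4 := hΦ (nmat 1 * smat) _ h3
    have h5 : (nmat 1 * smat * (smat * nmat (-1) * κ) : GL (Fin 2) F) = κ := by
      have : (nmat 1 * smat * (smat * nmat (-1)) : GL (Fin 2) F) = 1 := by
        ext i j; fin_cases i <;> fin_cases j <;> simp
      rw [← mul_assoc, this, one_mul]
    rwa [h5] at h4

lemma sum_KI (hres : ∀ x : F, Valued.v x ≤ 1 → Valued.v x < 1 ∨ Valued.v (x - 1) < 1)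
    (Φ : GL (Fin 2) F → ℂ) (hΦ : ∀ x, ∀ ι ∈ Iw F, Φ (x * ι) = Φ x) {κ : GL (Fin 2) F}
    (hκ : κ ∈ GO F) :
    Φ κ + Φ (κ * smat) + Φ (κ * (nmat 1 * smat)) = Φ 1 + Φ smat + Φ (nmat 1 * smat) := by
  have hs := smat_mem_GO (F := F)
  have hn : (nmat 1 * smat : GL (Fin 2) F) ∈ GO F :=
    (GO F).mul_mem (nmat_mem_GO (by simp)) smat_mem_GO
  rw [phi_cls hres Φ hΦ hκ, phi_cls hres Φ hΦ ((GO F).mul_mem hκ hs),
    phi_cls hres Φ hΦ ((GO F).mul_mem hκ hn)]
  have e1 : ((κ * smat : GL (Fin 2) F) : Matrix (Fin 2) (Fin 2) F) 1 0 =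
      (κ : Matrix (Fin 2) (Fin 2) F) 1 1 := by simp [Matrix.mul_apply, Fin.sum_univ_two]
  have e2 : ((κ * smat : GL (Fin 2) F) : Matrix (Fin 2) (Fin 2) F) 0 0 =
      (κ : Matrix (Fin 2) (Fin 2) F) 0 1 := by simp [Matrix.mul_apply, Fin.sum_univ_two]
  have e3 : ((κ * (nmat 1 * smat) : GL (Fin 2) F) : Matrix (Fin 2) (Fin 2) F) 1 0 =
      (κ : Matrix (Fin 2) (Fin 2) F) 1 0 + (κ : Matrix (Fin 2) (Fin 2) F) 1 1 := by
    simp [Matrix.mul_apply, Fin.sum_univ_two]
  have e4 : ((κ * (nmat 1 * smat) : GL (Fin 2) F) : Matrix (Fin 2) (Fin 2) F) 0 0 =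
      (κ : Matrix (Fin 2) (Fin 2) F) 0 0 + (κ : Matrix (Fin 2) (Fin 2) F) 0 1 := by
    simp [Matrix.mul_apply, Fin.sum_univ_two]
  rw [e1, e2, e3, e4, res2_add hres (hκ.1 _ _) (hκ.1 _ _), res2_add hres (hκ.1 _ _) (hκ.1 _ _)]
  have hdet : res2 ((κ : Matrix (Fin 2) (Fin 2) F) 0 0) * res2 ((κ : Matrix (Fin 2) (Fin 2) F) 1 1)
      + res2 ((κ : Matrix (Fin 2) (Fin 2) F) 0 1) * res2 ((κ : Matrix (Fin 2) (Fin 2) F) 1 0)
      = 1 := by
    rw [← res2_mul (hκ.1 _ _) (hκ.1 _ _), ← res2_mul (hκ.1 _ _) (hκ.1 _ _),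
      ← res2_neg (x := (κ : Matrix (Fin 2) (Fin 2) F) 0 1 * (κ : Matrix (Fin 2) (Fin 2) F) 1 0),
      ← res2_add hres ?_ ?_]
    · have h5 := hκ.2
      rw [Matrix.det_fin_two] at h5
      unfold res2
      rw [← sub_eq_add_neg, h5, if_neg (lt_irrefl _)]
    · rw [map_mul]; exact mul_le_one' (hκ.1 _ _) (hκ.1 _ _)
    · rw [Valuation.map_neg, map_mul]; exact mul_le_one' (hκ.1 _ _) (hκ.1 _ _)
  generalize res2 ((κ : Matrix (Fin 2) (Fin 2) F) 0 0) = a at *
  generalize res2 ((κ : Matrix (Fin 2) (Fin 2) F) 0 1) = b at *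
  generalize res2 ((κ : Matrix (Fin 2) (Fin 2) F) 1 0) = c at *
  generalize res2 ((κ : Matrix (Fin 2) (Fin 2) F) 1 1) = d at *
  have ha := zmod2_cases a
  have hb := zmod2_cases b
  have hc := zmod2_cases c
  have hd := zmod2_cases d
  rcases ha with rfl | rfl <;> rcases hb with rfl | rfl <;> rcases hc with rfl | rfl <;>
    rcases hd with rfl | rfl <;> first | (exfalso; revert hdet; decide) | skip
  all_goals
    have h11 : (1 : ZMod 2) + 1 = 0 := by decide
    simp [h11]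
    try ring

end KI

/-! ### Spherical functions -/

/-- functions on `G(K)\G(A)/K_max Z_∞` -/
structure Sph (F : GA → ℂ) : Prop where
  left : ∀ γ g, F (idiag γ * g) = F g
  right : ∀ g, ∀ k ∈ Kmax, F (g * k) = F g
  z : ∀ g z, F (g * iinf (zmat z)) = F g

@[simp] lemma rt_apply (g : GA) (F : GA → ℂ) (x : GA) : rt g F x = F (x * g) := rfl

/-- `w = [[0,1],[1/t,0]]` at infinity -/
def ww : GL (Fin 2) Kinf := wmat pinf

/-- the Hecke operator at infinity -/
def TT : (GA → ℂ) →ₗ[ℂ] (GA → ℂ) :=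
  rt (iinf ww) + rt (iinf (smat * ww)) + rt (iinf (nmat 1 * smat * ww))

lemma TT_apply (F : GA → ℂ) (g : GA) : TT F g = F (g * iinf ww) + F (g * iinf (smat * ww)) +
    F (g * iinf (nmat 1 * smat * ww)) := rfl

lemma ww_conj {ι : GL (Fin 2) Kinf} (hι : ι ∈ Iw Kinf) : ww⁻¹ * ι * ww ∈ Iw Kinf := by
  have hp0 : (pinf : Kinf) ≠ 0 := pinf.ne_zero
  have hinv : (ww⁻¹ : GL (Fin 2) Kinf) = ⟨!![0, (pinf : Kinf)⁻¹; 1, 0], !![0, 1; (pinf : Kinf), 0],
      by simp [Matrix.one_fin_two, hp0], by simp [Matrix.one_fin_two, hp0]⟩ := by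
    rw [inv_eq_iff_mul_eq_one]
    ext i j
    fin_cases i <;> fin_cases j <;> simp [ww, Matrix.mul_apply, Fin.sum_univ_two, hp0]
  have hval : ((ww⁻¹ * ι * ww : GL (Fin 2) Kinf) : Matrix (Fin 2) (Fin 2) Kinf) =
      !![(ι : Matrix (Fin 2) (Fin 2) Kinf) 1 1,
        (pinf : Kinf)⁻¹ * (ι : Matrix (Fin 2) (Fin 2) Kinf) 1 0;
        (ι : Matrix (Fin 2) (Fin 2) Kinf) 0 1 * (pinf : Kinf),
        (ι : Matrix (Fin 2) (Fin 2) Kinf) 0 0] := by
    rw [hinv]
    ext i j
    fin_cases i <;> fin_cases j <;>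
      simp [ww, Matrix.mul_apply, Fin.sum_univ_two, Matrix.vecMul, dotProduct]
    field_simp
  have hp : Valued.v (pinf : Kinf) = WithZero.exp (-1 : ℤ) := v_pinf
  have hlt : ∀ x : Kinf, Valued.v x < 1 → Valued.v x ≤ WithZero.exp (-1 : ℤ) := by
    intro x hx
    by_cases h0 : Valued.v x = 0
    · rw [h0]; exact zero_le'
    · rw [← WithZero.exp_log h0] at hx ⊢
      rw [← WithZero.exp_zero, WithZero.exp_lt_exp] at hx
      rw [WithZero.exp_le_exp]; omega
  refine ⟨⟨fun i j => ?_, ?_⟩, ?_⟩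
  · rw [hval]
    fin_cases i <;> fin_cases j
    · exact hι.1.1 1 1
    · change Valued.v ((pinf : Kinf)⁻¹ * (ι : Matrix (Fin 2) (Fin 2) Kinf) 1 0) ≤ 1
      rw [map_mul, map_inv₀, hp, ← WithZero.exp_neg]
      refine (mul_le_mul_right (hlt _ hι.2) _).trans ?_
      rw [← WithZero.exp_add]; simp
    · change Valued.v ((ι : Matrix (Fin 2) (Fin 2) Kinf) 0 1 * (pinf : Kinf)) ≤ 1
      rw [map_mul]
      refine mul_le_one' (hι.1.1 0 1) ?_
      rw [hp, ← WithZero.exp_zero, WithZero.exp_le_exp]; omega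
    · exact hι.1.1 0 0
  · rw [hval, Matrix.det_fin_two]
    have h1 := hι.1.2
    rw [Matrix.det_fin_two] at h1
    have h2 : (ι : Matrix (Fin 2) (Fin 2) Kinf) 1 1 * (ι : Matrix (Fin 2) (Fin 2) Kinf) 0 0 -
        (pinf : Kinf)⁻¹ * (ι : Matrix (Fin 2) (Fin 2) Kinf) 1 0 *
          ((ι : Matrix (Fin 2) (Fin 2) Kinf) 0 1 * (pinf : Kinf)) =
        (ι : Matrix (Fin 2) (Fin 2) Kinf) 0 0 * (ι : Matrix (Fin 2) (Fin 2) Kinf) 1 1 -
          (ι : Matrix (Fin 2) (Fin 2) Kinf) 0 1 * (ι : Matrix (Fin 2) (Fin 2) Kinf) 1 0 := by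
      field_simp
    simpa [h2] using h1
  · rw [hval]
    change Valued.v ((ι : Matrix (Fin 2) (Fin 2) Kinf) 0 1 * (pinf : Kinf)) < 1
    rw [map_mul, hp]
    refine (mul_le_of_le_one_left' (hι.1.1 0 1)).trans_lt ?_
    rw [← WithZero.exp_zero, WithZero.exp_lt_exp]; omega

lemma iinf_mem_Kmax {k : GL (Fin 2) Kinf} (hk : k ∈ GO Kinf) : iinf k ∈ Kmax :=
  ⟨fun v => by simpa using (GO (Kv v)).one_mem, hk⟩

lemma TT_sph {F : GA → ℂ} (hF : Sph F) : Sph (TT F) := by
  refine ⟨fun γ g => ?_, fun g k hk => ?_, fun g z => ?_⟩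
  · rw [TT_apply, TT_apply, mul_assoc, mul_assoc, mul_assoc, hF.left, hF.left, hF.left]
  · rw [TT_apply, TT_apply]
    obtain ⟨k', hk'⟩ : ∃ k' : GA, k' = k * iinf (k.2)⁻¹ := ⟨_, rfl⟩
    have hk'K : k' ∈ Kmax := by
      rw [hk']; exact Kmax.mul_mem hk (iinf_mem_Kmax ((GO Kinf).inv_mem hk.2))
    have hk2 : k'.2 = 1 := by rw [hk']; simp
    have hkk : k = k' * iinf k.2 := by rw [hk', mul_assoc, ← map_mul]; simp
    have hcomm : ∀ h, F (g * k * iinf h) = F (g * iinf (k.2 * h)) := by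
      intro h
      have e : k' * iinf (k.2 * h) = iinf (k.2 * h) * k' := iinf_comm_of_snd hk2 _
      have : g * k * iinf h = g * iinf (k.2 * h) * k' := by
        calc g * k * iinf h = g * (k' * iinf k.2) * iinf h := by rw [← hkk]
          _ = g * (k' * iinf (k.2 * h)) := by rw [map_mul]; group
          _ = _ := by rw [e]; group
      rw [this, hF.right _ _ hk'K]
    rw [hcomm, hcomm, hcomm]
    have := sum_KI res_inf (fun x => F (g * iinf (x * ww))) (by
      intro x ι hι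
      have h1 : g * iinf (x * ι * ww) = g * iinf (x * ww) * iinf (ww⁻¹ * ι * ww) := by
        rw [mul_assoc g, ← map_mul]; congr 2; group
      change F (g * iinf (x * ι * ww)) = F (g * iinf (x * ww))
      rw [h1, hF.right _ _ (iinf_mem_Kmax (ww_conj hι).1)]) hk.2
    simpa [mul_assoc] using this
  · rw [TT_apply, TT_apply]
    have : ∀ h, F (g * iinf (zmat z) * iinf h) = F (g * iinf h) := by
      intro h
      rw [mul_assoc, iinf_z_central, ← mul_assoc, hF.z]
    rw [this, this, this]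

lemma Sph.left_R {F : GA → ℂ} (hF : Sph F) (γ : GL (Fin 2) Rx) (y : GL (Fin 2) Kinf) :
    F (iinf (Matrix.GeneralLinearGroup.map (algebraMap Kx Kinf) (ofR γ) * y)) = F (iinf y) := by
  set k : GA := iinf (Matrix.GeneralLinearGroup.map (algebraMap Kx Kinf) (ofR γ)) *
    (idiag (ofR γ))⁻¹ with hk
  have hkK : k ∈ Kmax := by
    refine ⟨fun v => ?_, ?_⟩
    · simp only [hk, GA_mul_fst, iinf_fst, GA_inv_fst, idiag_fst, RestrictedProduct.one_apply,
        one_mul]
      exact (GO (Kv v)).inv_mem (ofR_mem γ v)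
    · simp only [hk, GA_mul_snd, iinf_snd, GA_inv_snd, idiag_snd, mul_inv_cancel]
      exact (GO Kinf).one_mem
  have hk2 : k.2 = 1 := by simp [hk]
  have h1 : iinf (Matrix.GeneralLinearGroup.map (algebraMap Kx Kinf) (ofR γ) * y) =
      idiag (ofR γ) * (iinf y * k) := by
    rw [← iinf_comm_of_snd hk2]
    apply GA_ext
    · intro v; simp [hk]
    · simp [hk]
  rw [h1, hF.left, hF.right _ _ hkK]

/-- `smat` over `F_2[t]` -/
def sR : GL (Fin 2) Rx := ⟨!![0, 1; 1, 0], !![0, 1; 1, 0], by simp [Matrix.one_fin_two],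
  by simp [Matrix.one_fin_two]⟩

/-- `nmat` over `F_2[t]` -/
def nR (r : Rx) : GL (Fin 2) Rx := ⟨!![1, r; 0, 1], !![1, -r; 0, 1], by simp [Matrix.one_fin_two],
  by simp [Matrix.one_fin_two]⟩

lemma map_sR {L : Type} [Field L] (f : Kx →+* L) :
    Matrix.GeneralLinearGroup.map f (ofR sR) = smat := by
  ext i j
  fin_cases i <;> fin_cases j <;> simp [ofR, sR]

lemma map_nR {L : Type} [Field L] (f : Kx →+* L) (r : Rx) :
    Matrix.GeneralLinearGroup.map f (ofR (nR r)) = nmat (f (algebraMap Rx Kx r)) := by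
  ext i j
  fin_cases i <;> fin_cases j <;> simp [ofR, nR]

lemma algX_inf : algebraMap Kx Kinf (algebraMap Rx Kx X) = (pinf : Kinf)⁻¹ := by
  simp [pinf]

lemma algXpow_inf (n : ℕ) :
    algebraMap Kx Kinf (algebraMap Rx Kx (X ^ n)) = ((pinf : Kinf)⁻¹) ^ n := by
  rw [map_pow, map_pow, algX_inf]

lemma an_ww (n : ℕ) : an n * ww = zmat pinf * (an (n + 1) * smat) := by
  have hp0 : (pinf : Kinf) ≠ 0 := pinf.ne_zero
  ext i j
  fin_cases i <;> fin_cases j <;>
    simp [an, ww, Matrix.mul_apply, Fin.sum_univ_two, pow_succ, mul_comm]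

lemma an_succ_sww (n : ℕ) : an (n + 1) * (smat * ww) = an n := by
  have hp0 : (pinf : Kinf) ≠ 0 := pinf.ne_zero
  ext i j
  fin_cases i <;> fin_cases j <;>
    simp [an, ww, Matrix.mul_apply, Fin.sum_univ_two, pow_succ]

lemma sww_eq : (smat * ww : GL (Fin 2) Kinf) = zmat pinf * (smat * an 1 * smat) := by
  have hp0 : (pinf : Kinf) ≠ 0 := pinf.ne_zero
  ext i j
  fin_cases i <;> fin_cases j <;>
    simp [an, ww, Matrix.mul_apply, Fin.sum_univ_two, hp0]

lemma an_n1 (n : ℕ) : an n * nmat 1 =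
    Matrix.GeneralLinearGroup.map (algebraMap Kx Kinf) (ofR (nR (X ^ n))) * an n := by
  rw [map_nR, algXpow_inf]
  ext i j
  fin_cases i <;> fin_cases j <;>
    simp [an, Matrix.mul_apply, Fin.sum_univ_two]

lemma Sph.iinf_z_mul {F : GA → ℂ} (hF : Sph F) (z : Kinfˣ) (y : GL (Fin 2) Kinf) :
    F (iinf (zmat z * y)) = F (iinf y) := by
  rw [map_mul, iinf_z_central, hF.z]

lemma Sph.iinf_mul_k {F : GA → ℂ} (hF : Sph F) {k : GL (Fin 2) Kinf} (hk : k ∈ GO Kinf)
    (y : GL (Fin 2) Kinf) : F (iinf (y * k)) = F (iinf y) := by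
  rw [map_mul, hF.right _ _ (iinf_mem_Kmax hk)]

lemma Sph.sww_zero {F : GA → ℂ} (hF : Sph F) :
    F (iinf (smat * ww)) = F (iinf (an 1)) := by
  rw [sww_eq, hF.iinf_z_mul, hF.iinf_mul_k smat_mem_GO]
  have := hF.left_R sR (an 1)
  rwa [map_sR] at this

lemma TT_an_zero {F : GA → ℂ} (hF : Sph F) : TT F (iinf (an 0)) = 3 * F (iinf (an 1)) := by
  rw [TT_apply]
  have h0 : an 0 = 1 := by
    ext i j; fin_cases i <;> fin_cases j <;> simp [an]
  have e1 : F (iinf (an 0) * iinf ww) = F (iinf (an 1)) := by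
    rw [← map_mul, an_ww, hF.iinf_z_mul, hF.iinf_mul_k smat_mem_GO]
  have e2 : F (iinf (an 0) * iinf (smat * ww)) = F (iinf (an 1)) := by
    rw [← map_mul, h0, one_mul, hF.sww_zero]
  have e3 : F (iinf (an 0) * iinf (nmat 1 * smat * ww)) = F (iinf (an 1)) := by
    rw [← map_mul, mul_assoc (nmat 1), ← mul_assoc, an_n1, mul_assoc, hF.left_R, h0, one_mul,
      hF.sww_zero]
  rw [e1, e2, e3]; ring

lemma TT_an_succ {F : GA → ℂ} (hF : Sph F) (n : ℕ) :
    TT F (iinf (an (n + 1))) = F (iinf (an (n + 2))) + 2 * F (iinf (an n)) := by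
  rw [TT_apply]
  have e1 : F (iinf (an (n + 1)) * iinf ww) = F (iinf (an (n + 2))) := by
    rw [← map_mul, an_ww, hF.iinf_z_mul, hF.iinf_mul_k smat_mem_GO]
  have e2 : F (iinf (an (n + 1)) * iinf (smat * ww)) = F (iinf (an n)) := by
    rw [← map_mul, an_succ_sww]
  have e3 : F (iinf (an (n + 1)) * iinf (nmat 1 * smat * ww)) = F (iinf (an n)) := by
    rw [← map_mul, mul_assoc (nmat 1), ← mul_assoc, an_n1, mul_assoc, hF.left_R, an_succ_sww]
  rw [e1, e2, e3]; ring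

lemma Sph.eq_ht {F : GA → ℂ} (hF : Sph F) (g : GA) : F g = F (iinf (an (ht g))) :=
  eq_of_ht hF.left hF.right hF.z g

/-- a spherical function with `T F = 3 F` is constant -/
lemma Sph.const_of_TT {F : GA → ℂ} (hF : Sph F) (hT : TT F = (3 : ℂ) • F) (g : GA) :
    F g = F 1 := by
  have h0 : F (iinf (an 1)) = F (iinf (an 0)) := by
    have := congrFun hT (iinf (an 0))
    rw [TT_an_zero hF] at this
    simp only [Pi.smul_apply, smul_eq_mul] at this
    exact mul_left_cancel₀ (by norm_num) this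
  have h1 : ∀ n, F (iinf (an (n + 1))) = F (iinf (an n)) := by
    intro n
    induction n with
    | zero => exact h0
    | succ n ih =>
      have := congrFun hT (iinf (an (n + 1)))
      rw [TT_an_succ hF] at this
      simp only [Pi.smul_apply, smul_eq_mul] at this
      linear_combination this + 2 * ih
  have h2 : ∀ n, F (iinf (an n)) = F (iinf (an 0)) := by
    intro n
    induction n with
    | zero => rfl
    | succ n ih => rw [h1, ih]
  rw [hF.eq_ht g, hF.eq_ht 1, h2, h2 (ht 1)]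

/-- the profile of the Eisenstein function -/
def phiE (n : ℕ) : ℂ := 4 * 2 ^ n - 3 * n - 4

/-- the (regularized) Eisenstein function at the edge of the trivial representation -/
def feis (g : GA) : ℂ := phiE (ht g)

lemma feis_sph : Sph feis :=
  ⟨fun γ g => by rw [feis, feis, ht_left], fun g k hk => by rw [feis, feis, ht_right g hk],
    fun g z => by rw [feis, feis, ht_z]⟩

lemma feis_an (n : ℕ) : feis (iinf (an n)) = phiE n := by rw [feis, ht_an]

/-- the constant function one -/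
def oneF : GA → ℂ := fun _ => 1

lemma TT_feis : TT feis = (3 : ℂ) • feis + (3 : ℂ) • oneF := by
  funext g
  rw [(TT_sph feis_sph).eq_ht g]
  have hg : feis g = phiE (ht g) := rfl
  simp only [Pi.add_apply, Pi.smul_apply, smul_eq_mul, oneF, hg]
  rcases Nat.eq_zero_or_pos (ht g) with h | h
  · rw [h, TT_an_zero feis_sph, feis_an]; simp [phiE]; norm_num
  · obtain ⟨n, hn⟩ : ∃ n, ht g = n + 1 := ⟨ht g - 1, by omega⟩
    rw [hn, TT_an_succ feis_sph, feis_an, feis_an]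
    simp only [phiE]
    push_cast
    ring

end TH824.BK
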