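import Pool.Agent.TH824.BK.Assemble
import Pool.Agent.TH824.BK.Eis

open Polynomial IsDedekindDomain Matrix MeasureTheory
open scoped WithZero RestrictedProduct

noncomputable section

namespace TH824.BK

lemma rt_mul (a b : GA) (F : GA → ℂ) : rt a (rt b F) = rt (a * b) F := by
  rw [map_mul]; rfl

/-- the Eisenstein vector -/
def veis : GA → ℂ := feis - rt (iinf ww) feis

lemma rt_feis_of_mem {k : GA} (hk : k ∈ Kmax) : rt k feis = feis :=
  funext fun g => feis_sph.right g k hk

lemma ww_sq : ww * ww = zmat pinf := by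
  ext i j
  fin_cases i <;> fin_cases j <;> simp [ww, Matrix.mul_apply, Fin.sum_univ_two]

lemma Kmax_isOpen : IsOpen (Kmax : Set GA) :=
  UA_isOpen _ _ (fun _ => GO_isOpen) (fun _ => le_rfl) (Filter.Eventually.of_forall fun _ => rfl)
    (fun _ => GO_isOpen) GO_isOpen

lemma feis_smooth : IsSmooth rt feis := ⟨Kmax, Kmax_isOpen, fun _ hk => rt_feis_of_mem hk⟩

lemma veis_smooth : IsSmooth rt veis := by
  have h := feis_smooth.add (IsSmooth.smul (-1 : ℂ) (feis_smooth.translate (iinf ww)))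
  have : feis + (-1 : ℂ) • rt (iinf ww) feis = veis := by
    rw [veis, neg_one_smul, ← sub_eq_add_neg]
  rwa [this] at h

lemma oneF_eq : oneF = one' := rfl

lemma rt_z_feis (z : Kinfˣ) : rt (iinf (zmat z)) feis = feis :=
  funext fun g => feis_sph.z g z

lemma veis_st : IsStVec (pull iinf (quotRep rt Const const_stable)) pinf (Const.mkQ veis) := by
  have hmk : ∀ F : GA → ℂ, F ∈ Const → Const.mkQ F = 0 := by
    intro F hF; rw [Submodule.mkQ_apply, Submodule.Quotient.mk_eq_zero]; exact hF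
  refine ⟨fun g hg => ?_, fun z => ?_, ?_, ?_⟩
  · change Const.mkQ (rt (iinf g) veis) = Const.mkQ veis
    congr 1
    rw [veis, map_sub, rt_feis_of_mem (iinf_mem_Kmax hg.1), rt_mul, ← map_mul]
    have h1 : g * ww = ww * (ww⁻¹ * g * ww) := by group
    rw [h1, map_mul, ← rt_mul, rt_feis_of_mem (iinf_mem_Kmax (ww_conj hg).1)]
  · change Const.mkQ (rt (iinf (zmat z)) veis) = Const.mkQ veis
    congr 1
    rw [veis, map_sub, rt_z_feis, rt_mul, iinf_z_central, ← rt_mul, rt_z_feis]
  · change Const.mkQ (rt (iinf (wmat pinf)) veis) = -Const.mkQ veis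
    rw [← map_neg]
    congr 1
    change rt (iinf ww) veis = - veis
    rw [veis, map_sub, rt_mul, ← map_mul, ww_sq, rt_z_feis]
    abel
  · change Const.mkQ (veis + rt (iinf smat) veis + rt (iinf (nmat 1 * smat)) veis) = 0
    apply hmk
    have h1 : veis + rt (iinf smat) veis + rt (iinf (nmat 1 * smat)) veis =
        (3 : ℂ) • feis - TT feis := by
      rw [veis, map_sub, map_sub, rt_feis_of_mem (iinf_mem_Kmax smat_mem_GO),
        rt_feis_of_mem (iinf_mem_Kmax ((GO Kinf).mul_mem (nmat_mem_GO (by simp)) smat_mem_GO)),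
        rt_mul, rt_mul, ← map_mul, ← map_mul]
      change feis - rt (iinf ww) feis + (feis - rt (iinf (smat * ww)) feis) +
        (feis - rt (iinf (nmat 1 * smat * ww)) feis) = (3 : ℂ) • feis -
          (rt (iinf ww) feis + rt (iinf (smat * ww)) feis + rt (iinf (nmat 1 * smat * ww)) feis)
      module
    rw [h1, TT_feis, sub_add_cancel_left, oneF_eq, ← smul_neg]
    refine Submodule.smul_mem _ _ (Submodule.neg_mem _ (Submodule.mem_span_singleton_self _))

lemma veis_notin : veis ∉ Const := by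
  intro h
  obtain ⟨c, hc⟩ := mem_Const.mp h
  have h1 : ∀ n, feis (iinf (an n) * iinf ww) = phiE (n + 1) := by
    intro n
    rw [← map_mul, an_ww, feis_sph.iinf_z_mul, feis_sph.iinf_mul_k smat_mem_GO, feis_an]
  have e0 := congrFun hc (iinf (an 0))
  have e1 := congrFun hc (iinf (an 1))
  simp only [veis, Pi.smul_apply, one', smul_eq_mul, mul_one, Pi.sub_apply, rt_apply, h1,
    feis_an] at e0 e1
  rw [e0] at e1
  simp only [phiE] at e1
  norm_num at e1

lemma veis_good : GoodData Const veis where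
  hC := const_stable
  hCfin := ⟨{one'}, Set.finite_singleton _, le_rfl⟩
  hCleft := fun F hF γ x => (const_isAutForm hF).left_inv γ x
  hCsm := fun F hF => ⟨⊤, isOpen_univ, fun g _ => rt_const hF g⟩
  left := by
    intro γ x
    change feis (idiag γ * x) - feis (idiag γ * x * iinf ww) = feis x - feis (x * iinf ww)
    rw [feis_sph.left, mul_assoc, feis_sph.left]
  sm := veis_smooth
  st := veis_st
  notin := veis_notin

/-- the key step: at a finite place every Hecke operator acts on `feis` as on the constants, up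
to an additive constant. -/
lemma avg_feis (v : Pl) (h : GL (Fin 2) (Kv v)) : ∃ M₀, ∀ M ≥ M₀, ∃ c : ℂ,
    avg (pull (iv v) rt) (GO (Kv v)) (KM (Kv v) M) (rt (iv v h) feis) = feis + c • one' := by
  -- `KM M` fixes `rt (iv v h) feis` for `M` large
  have hopen : IsOpen (((GO (Kv v)).comap (MulAut.conj h⁻¹).toMonoidHom :
      Subgroup (GL (Fin 2) (Kv v))) : Set (GL (Fin 2) (Kv v))) := by
    have hc : Continuous fun g : GL (Fin 2) (Kv v) => h⁻¹ * g * h := by fun_prop
    have := (GO_isOpen (F := Kv v)).preimage hc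
    convert this using 1
    ext g; simp
  obtain ⟨M₀, hM₀⟩ := open_contains_KM _ hopen
  refine ⟨M₀, fun M hM => ?_⟩
  have hKM : ∀ s ∈ KM (Kv v) M, h⁻¹ * s * h ∈ GO (Kv v) := by
    intro s hs
    have h1 : s ∈ KM (Kv v) M₀ := by
      refine ⟨hs.1, fun a b => (hs.2 a b).trans ?_⟩
      rw [WithZero.exp_le_exp]; omega
    simpa using hM₀ h1
  have hivK : ∀ k ∈ GO (Kv v), iv v k ∈ Kmax := by
    intro k hk
    refine ⟨fun w => ?_, (GO Kinf).one_mem⟩
    by_cases hw : w = v
    · subst hw; simpa using hk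
    · rw [iv_fst_ne hw]; exact (GO (Kv w)).one_mem
  set A := avg (pull (iv v) rt) (GO (Kv v)) (KM (Kv v) M) with hA
  set x₀ : GA → ℂ := rt (iv v h) feis with hx₀
  have hfix : ∀ s ∈ KM (Kv v) M, pull (iv v) rt s x₀ = x₀ := by
    intro s hs
    change rt (iv v s) (rt (iv v h) feis) = rt (iv v h) feis
    have h1 : s * h = h * (h⁻¹ * s * h) := by group
    rw [rt_mul, ← map_mul, h1, map_mul, ← rt_mul, rt_feis_of_mem (hivK _ (hKM s hs))]
  set F₁ : GA → ℂ := A x₀ with hF₁
  -- `A` commutes with elements having trivial `v`-component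
  have hAcomm : ∀ g : GA, g.1 v = 1 → ∀ F, A (rt g F) = rt g (A F) := by
    intro g hg F
    apply avg_comm
    intro k _ x
    change rt g (rt (iv v k) x) = rt (iv v k) (rt g x)
    rw [rt_mul, rt_mul, iv_comm_of_fst hg]
  have hleft : ∀ γ g, F₁ (idiag γ * g) = F₁ g := by
    intro γ g
    letI := Fintype.ofFinite (GO (Kv v) ⧸ (KM (Kv v) M).subgroupOf (GO (Kv v)))
    rw [hF₁, hA, avg_apply]
    simp only [Pi.smul_apply, Finset.sum_apply]
    congr 1
    refine Finset.sum_congr rfl fun q _ => ?_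
    change feis (idiag γ * g * _ * _) = feis (g * _ * _)
    rw [mul_assoc, mul_assoc, feis_sph.left, mul_assoc]
  have hz : ∀ g z, F₁ (g * iinf (zmat z)) = F₁ g := by
    intro g z
    have h1 : rt (iinf (zmat z)) F₁ = F₁ := by
      rw [hF₁, ← hAcomm _ (by simp), hx₀, rt_mul, iinf_z_central, ← rt_mul, rt_z_feis]
    exact congrFun h1 g
  have hright : ∀ g, ∀ k ∈ Kmax, F₁ (g * k) = F₁ g := by
    intro g k hk
    obtain ⟨k', hk'⟩ : ∃ k' : GA, k' = k * iv v (k.1 v)⁻¹ := ⟨_, rfl⟩
    have hk'1 : k'.1 v = 1 := by rw [hk']; simp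
    have hk'K : k' ∈ Kmax := by
      rw [hk']; exact Kmax.mul_mem hk (hivK _ ((GO (Kv v)).inv_mem (hk.1 v)))
    have hkk : k = k' * iv v (k.1 v) := by rw [hk', mul_assoc, ← map_mul]; simp
    have h1 : rt (iv v (k.1 v)) F₁ = F₁ := avg_fixed (pull (iv v) rt) _ _ hfix _ (hk.1 v)
    have h2 : rt k' F₁ = F₁ := by
      rw [hF₁, ← hAcomm _ hk'1, hx₀, rt_mul, iv_comm_of_fst hk'1, ← rt_mul, rt_feis_of_mem hk'K]
    have h3 : rt k F₁ = F₁ := by
      rw [hkk, ← rt_mul, h1, h2]
    exact congrFun h3 g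
  have hsph : Sph F₁ := ⟨hleft, hright, hz⟩
  -- `T F₁ = 3 F₁ + 3`
  have hTA : ∀ F, TT (A F) = A (TT F) := by
    intro F
    simp only [TT, LinearMap.add_apply, map_add]
    rw [hAcomm _ (by simp), hAcomm _ (by simp), hAcomm _ (by simp)]
  have hTv : ∀ F, TT (rt (iv v h) F) = rt (iv v h) (TT F) := by
    intro F
    simp only [TT, LinearMap.add_apply, map_add]
    rw [rt_mul, rt_mul, rt_mul, rt_mul, rt_mul, rt_mul, iinf_comm_of_snd (by simp),
      iinf_comm_of_snd (by simp), iinf_comm_of_snd (by simp)]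
  have hAone : A one' = one' := avg_of_fixed _ _ _ fun k _ => rfl
  have hT1 : TT F₁ = (3 : ℂ) • F₁ + (3 : ℂ) • one' := by
    rw [hF₁, hTA, hx₀, hTv, TT_feis, map_add, map_smul, map_smul, oneF_eq, rt_one', map_add,
      map_smul, map_smul, hAone]
  have hD : Sph (F₁ - feis) := by
    refine ⟨fun γ g => ?_, fun g k hk => ?_, fun g z => ?_⟩
    · rw [Pi.sub_apply, Pi.sub_apply, hsph.left, feis_sph.left]
    · rw [Pi.sub_apply, Pi.sub_apply, hsph.right g k hk, feis_sph.right g k hk]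
    · rw [Pi.sub_apply, Pi.sub_apply, hsph.z, feis_sph.z]
  have hTD : TT (F₁ - feis) = (3 : ℂ) • (F₁ - feis) := by
    rw [map_sub, hT1, TT_feis, oneF_eq, smul_sub]; abel
  have hconst := hD.const_of_TT hTD
  refine ⟨(F₁ - feis) 1, ?_⟩
  funext g
  have := hconst g
  simp only [Pi.sub_apply, Pi.add_apply, Pi.smul_apply, one', smul_eq_mul, mul_one] at this ⊢
  rw [← this]; ring

lemma avg_veis (v : Pl) (h : GL (Fin 2) (Kv v)) : ∃ M₀, ∀ M ≥ M₀,
    avg (pull (iv v) rt) (GO (Kv v)) (KM (Kv v) M) (rt (iv v h) veis) = veis := by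
  obtain ⟨M₀, hM₀⟩ := avg_feis v h
  refine ⟨M₀, fun M hM => ?_⟩
  obtain ⟨c, hc⟩ := hM₀ M hM
  have h1 : rt (iv v h) veis = rt (iv v h) feis - rt (iinf ww) (rt (iv v h) feis) := by
    rw [veis, map_sub, rt_mul, rt_mul, iinf_comm_of_snd (by simp)]
  rw [h1, map_sub, avg_comm (pull (iv v) rt) _ _ (rt (iinf ww)), hc, map_add, map_smul, rt_one',
    veis]
  · abel
  · intro k _ x
    change rt (iinf ww) (rt (iv v k) x) = rt (iv v k) (rt (iinf ww) x)
    rw [rt_mul, rt_mul, iinf_comm_of_snd (by simp)]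

/-- The residual side: an automorphic representation whose global lifting is trivial. -/
theorem exists_eis : ∃ π : SmoothIrrep GA, IsAutomorphic π ∧ IsLift π (trivIrrep GA) ∧
    ∃ u : π.V, u ≠ 0 ∧ IsStVec (pull iinf π.ρ) pinf u := by
  obtain ⟨π, T, hsurj, hT, hne, hst⟩ := veis_good.exists_rep
  set u := T ⟨veis, mem_W Const veis⟩ with hu
  refine ⟨π, ⟨Const ⊔ orb rt veis, veis_good.isAutForm, veis_good.stable, T, hsurj, hT⟩,
    ⟨triv_isIsobaric, ?_, ?_⟩, u, hne, hst⟩
  · intro v σ _ hσ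
    refine comp_triv_of_trivial (iv v) π ?_ σ hσ
    apply trivial_of_avg (iv v) π (GO (Kv v)) (fun M => KM (Kv v) M) (splits_iv v) u hne
    intro h
    obtain ⟨M₀, hM₀⟩ := avg_veis v h
    refine ⟨M₀, fun M hM => ?_⟩
    have h1 := hM₀ M hM
    have h2 : avg (pull (iv v) (subRep rt _ veis_good.stable)) (GO (Kv v)) (KM (Kv v) M)
        (subRep rt _ veis_good.stable (iv v h) ⟨veis, mem_W Const veis⟩) =
        ⟨veis, mem_W Const veis⟩ := by
      apply Subtype.ext
      have h3 := avg_map (pull (iv v) (subRep rt _ veis_good.stable)) (GO (Kv v)) (KM (Kv v) M)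
        (pull (iv v) rt) (Submodule.subtype _) (fun _ _ _ => rfl)
        (subRep rt _ veis_good.stable (iv v h) ⟨veis, mem_W Const veis⟩)
      exact h3.trans h1
    have h4 := congrArg T h2
    rw [avg_map (pull (iv v) (subRep rt _ veis_good.stable)) (GO (Kv v)) (KM (Kv v) M)
      (pull (iv v) π.ρ) T (fun k _ x => hT (iv v k) x), hT] at h4
    exact h4
  · intro σ hσ hσ'
    exfalso
    obtain ⟨x, hx, hxK⟩ := hσ
    refine no_unram_comp iinf π (GO Kinf) ?_ σ hσ' x hx hxK
    exact no_fixed_of_avg iinf π (GO Kinf) (fun M => KM Kinf M) splits_iinf u hne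
      (fun h => avg_st_zero v_pinf hst h)

end TH824.BK
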