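import Pool.Agent.TH824.BK.Avg
import Pool.Agent.TH824.BK.Base

open Polynomial IsDedekindDomain Matrix MeasureTheory
open scoped WithZero RestrictedProduct

noncomputable section

namespace TH824.BK

/-- finiteness of the residue rings `O / p^M` -/
class FinRes (F : Type) [Field F] [Valued F ℤᵐ⁰] : Prop where
  out : ∀ M : ℕ, ∃ s : Finset F, ∀ x : F, Valued.v x ≤ 1 →
      ∃ y ∈ s, Valued.v y ≤ 1 ∧ Valued.v (x - y) ≤ WithZero.exp (-(M : ℤ))

instance (v : Pl) : FinRes (Kv v) := ⟨fin_res_v v⟩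
instance : FinRes Kinf := ⟨fin_res_inf⟩

section

variable {F : Type} [Field F] [Valued F ℤᵐ⁰]

lemma KM_le_GO (M : ℕ) : KM F M ≤ GO F := fun _ hg => hg.1

lemma KM_conj {M : ℕ} {k g : GL (Fin 2) F} (hk : k ∈ GO F) (hg : g ∈ KM F M) :
    k * g * k⁻¹ ∈ KM F M := by
  refine ⟨(GO F).mul_mem ((GO F).mul_mem hk hg.1) ((GO F).inv_mem hk), fun i j => ?_⟩
  have h1 : ((k * g * k⁻¹ : GL (Fin 2) F) : Matrix (Fin 2) (Fin 2) F) - 1 =
      (k : Matrix (Fin 2) (Fin 2) F) * ((g : Matrix (Fin 2) (Fin 2) F) - 1) *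
        ((k⁻¹ : GL (Fin 2) F) : Matrix (Fin 2) (Fin 2) F) := by
    rw [mul_sub, sub_mul, mul_one, ← Units.val_mul, ← Units.val_mul, ← Units.val_mul,
      mul_inv_cancel]; simp
  have h2 := congrFun (congrFun h1 i) j
  rw [Matrix.sub_apply] at h2
  rw [h2, Matrix.mul_apply, Fin.sum_univ_two]
  have hk' := ((GO F).inv_mem hk).1
  have h3 : ∀ a b, Valued.v (((k : Matrix (Fin 2) (Fin 2) F) *
      ((g : Matrix (Fin 2) (Fin 2) F) - 1)) a b) ≤ WithZero.exp (-(M : ℤ)) := by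
    intro a b
    rw [Matrix.mul_apply, Fin.sum_univ_two]
    refine (Valuation.map_add _ _ _).trans (max_le ?_ ?_)
    · rw [map_mul]; exact mul_le_of_le_one_of_le (hk.1 _ _) (hg.2 _ _)
    · rw [map_mul]; exact mul_le_of_le_one_of_le (hk.1 _ _) (hg.2 _ _)
  refine (Valuation.map_add _ _ _).trans (max_le ?_ ?_)
  · rw [map_mul]; exact mul_le_of_le_of_le_one (h3 _ _) (hk' _ _)
  · rw [map_mul]; exact mul_le_of_le_of_le_one (h3 _ _) (hk' _ _)

instance KM_normal_GO (M : ℕ) : ((KM F M).subgroupOf (GO F)).Normal := by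
  refine ⟨fun n hn g => ?_⟩
  rw [Subgroup.mem_subgroupOf] at hn ⊢
  simpa using KM_conj g.2 hn

instance KM_normal_KM (M M' : ℕ) : ((KM F M').subgroupOf (KM F M)).Normal := by
  refine ⟨fun n hn g => ?_⟩
  rw [Subgroup.mem_subgroupOf] at hn ⊢
  simpa using KM_conj (KM_le_GO M g.2) hn

instance finite_GO_KM [FinRes F] (M : ℕ) : Finite (GO F ⧸ (KM F M).subgroupOf (GO F)) := by
  have := finite_index_KM (F := F) FinRes.out M
  infer_instance

instance finite_KM_KM [FinRes F] (M M' : ℕ) :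
    Finite (KM F M ⧸ (KM F M').subgroupOf (KM F M)) := by
  have h1 := finite_index_KM (F := F) FinRes.out M'
  have h2 : (KM F M').relIndex (GO F) ≠ 0 := h1.index_ne_zero
  have h3 : (KM F M').relIndex (KM F M) ≠ 0 := fun h =>
    h2 (Subgroup.relIndex_eq_zero_of_le_right (KM_le_GO M) h)
  have : ((KM F M').subgroupOf (KM F M)).FiniteIndex := ⟨h3⟩
  infer_instance

lemma amat_pow (p : Fˣ) (n : ℕ) : amat p ^ n = amat (p ^ n) := by
  induction n with
  | zero => ext i j; fin_cases i <;> fin_cases j <;> simp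
  | succ n ih =>
    rw [pow_succ, ih]
    ext i j
    fin_cases i <;> fin_cases j <;> simp [Matrix.mul_apply, Fin.sum_univ_two, pow_succ]

lemma smat_mem_GO : (smat : GL (Fin 2) F) ∈ GO F := by
  refine ⟨fun i j => ?_, by simp⟩
  fin_cases i <;> fin_cases j <;> simp

lemma nmat_mem_GO {x : F} (hx : Valued.v x ≤ 1) : (nmat x : GL (Fin 2) F) ∈ GO F := by
  refine ⟨fun i j => ?_, by simp⟩
  fin_cases i <;> fin_cases j <;> simp [hx]

lemma nmat_mem_KM {x : F} {M : ℕ} (hx : Valued.v x ≤ WithZero.exp (-(M : ℤ))) :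
    (nmat x : GL (Fin 2) F) ∈ KM F M := by
  refine ⟨nmat_mem_GO (hx.trans ?_), fun i j => ?_⟩
  · rw [← WithZero.exp_zero, WithZero.exp_le_exp]; omega
  · rw [WithZero.exp_neg] at hx ⊢
    fin_cases i <;> fin_cases j <;> simp [hx]

variable {V : Type} [AddCommGroup V] [Module ℂ V] {ρ : Representation ℂ (GL (Fin 2) F) V}
  {p : Fˣ} {u : V}

lemma vpow (hp : Valued.v (p : F) = WithZero.exp (-1 : ℤ)) (n : ℕ) :
    Valued.v ((p : F) ^ n) = WithZero.exp (-(n : ℤ)) := by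
  rw [map_pow, hp, ← WithZero.exp_nsmul]; simp

/-- conjugating `KM M` by `diag(p^n,1)`, `n ≤ M`, `1 ≤ M`, lands in the Iwahori. -/
lemma conj_amat_mem_Iw (hp : Valued.v (p : F) = WithZero.exp (-1 : ℤ)) {n M : ℕ} (hn : n ≤ M)
    (hM : 1 ≤ M) {g : GL (Fin 2) F} (hg : g ∈ KM F M) :
    (amat (p ^ n))⁻¹ * g * amat (p ^ n) ∈ Iw F := by
  have hp0 : (p : F) ≠ 0 := p.ne_zero
  have hinv : (((amat (p ^ n))⁻¹ : GL (Fin 2) F) : Matrix (Fin 2) (Fin 2) F) =
      !![((p : F) ^ n)⁻¹, 0; 0, 1] := by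
    have : (amat (p ^ n) : GL (Fin 2) F)⁻¹ = amat ((p ^ n)⁻¹) := by
      rw [inv_eq_iff_mul_eq_one]
      ext i j
      fin_cases i <;> fin_cases j <;> simp [Matrix.mul_apply, Fin.sum_univ_two, hp0]
    rw [this, coe_amat]; simp
  have hval : (((amat (p ^ n))⁻¹ * g * amat (p ^ n) : GL (Fin 2) F) :
      Matrix (Fin 2) (Fin 2) F) =
      !![(g : Matrix (Fin 2) (Fin 2) F) 0 0,
        ((p : F) ^ n)⁻¹ * (g : Matrix (Fin 2) (Fin 2) F) 0 1;
        (p : F) ^ n * (g : Matrix (Fin 2) (Fin 2) F) 1 0, (g : Matrix (Fin 2) (Fin 2) F) 1 1] := by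
    rw [Units.val_mul, Units.val_mul, hinv]
    ext i j
    fin_cases i <;> fin_cases j <;>
      simp [Matrix.mul_apply, Fin.sum_univ_two, Matrix.vecMul, Matrix.vecHead, Matrix.vecTail]
    · field_simp
    · ring
  have hvp := vpow hp n
  have h01 : Valued.v ((g : Matrix (Fin 2) (Fin 2) F) 0 1) ≤ WithZero.exp (-(M : ℤ)) := by
    simpa using hg.2 0 1
  have h10 : Valued.v ((g : Matrix (Fin 2) (Fin 2) F) 1 0) ≤ WithZero.exp (-(M : ℤ)) := by
    simpa using hg.2 1 0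
  have hpn1 : Valued.v ((p : F) ^ n) ≤ 1 := by
    rw [hvp, ← WithZero.exp_zero, WithZero.exp_le_exp]; omega
  have h10' : Valued.v ((g : Matrix (Fin 2) (Fin 2) F) 1 0) < 1 := by
    refine lt_of_le_of_lt h10 ?_
    rw [← WithZero.exp_zero, WithZero.exp_lt_exp]; omega
  refine ⟨⟨fun i j => ?_, ?_⟩, ?_⟩
  · rw [hval]
    fin_cases i <;> fin_cases j
    · exact hg.1.1 0 0
    · change Valued.v (((p : F) ^ n)⁻¹ * (g : Matrix (Fin 2) (Fin 2) F) 0 1) ≤ 1
      rw [map_mul, map_inv₀, hvp, ← WithZero.exp_neg]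
      refine (mul_le_mul_right h01 _).trans ?_
      rw [← WithZero.exp_add, ← WithZero.exp_zero, WithZero.exp_le_exp]; omega
    · change Valued.v ((p : F) ^ n * (g : Matrix (Fin 2) (Fin 2) F) 1 0) ≤ 1
      rw [map_mul]; exact mul_le_one' hpn1 (hg.1.1 1 0)
    · exact hg.1.1 1 1
  · rw [Units.val_mul, Units.val_mul, Matrix.det_mul, Matrix.det_mul, hinv]
    have : (amat (p ^ n) : GL (Fin 2) F).val.det = (p : F) ^ n := by
      rw [coe_amat]; simp
    rw [this]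
    simp only [map_mul]
    rw [hg.1.2]
    simp [hp0]
  · rw [hval]
    change Valued.v ((p : F) ^ n * (g : Matrix (Fin 2) (Fin 2) F) 1 0) < 1
    rw [map_mul]; exact (mul_le_of_le_one_left' hpn1).trans_lt h10'

lemma st_fixed_KM (hp : Valued.v (p : F) = WithZero.exp (-1 : ℤ)) (hu : IsStVec ρ p u)
    {n M : ℕ} (hn : n ≤ M) (hM : 1 ≤ M) (g : GL (Fin 2) F) (hg : g ∈ KM F M) :
    ρ g (ρ (amat (p ^ n)) u) = ρ (amat (p ^ n)) u := by
  have h1 := hu.iw _ (conj_amat_mem_Iw hp hn hM hg)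
  have h2 : ρ g (ρ (amat (p ^ n)) u) =
      ρ (amat (p ^ n)) (ρ ((amat (p ^ n))⁻¹ * g * amat (p ^ n)) u) := by
    have h3 : g * amat (p ^ n) = amat (p ^ n) * ((amat (p ^ n))⁻¹ * g * amat (p ^ n)) := by group
    have := congrArg (fun g => ρ g u) h3
    simpa [map_mul] using this
  rw [h2, h1]

lemma sum_digits_val_le (hp : Valued.v (p : F) = WithZero.exp (-1 : ℤ)) {n m : ℕ}
    (c : Fin n → Fin 2) :
    Valued.v (∑ i : Fin n, ((c i : ℕ) : F) * (p : F) ^ (m + (i : ℕ))) ≤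
      WithZero.exp (-(m : ℤ)) := by
  refine Valuation.map_sum_le _ fun i _ => ?_
  rw [map_mul, vpow hp]
  have h1 : Valued.v (((c i : ℕ) : F)) ≤ 1 := by
    have : (c i : ℕ) = 0 ∨ (c i : ℕ) = 1 := by omega
    rcases this with h | h <;> simp [h]
  refine (mul_le_of_le_one_left' h1).trans ?_
  rw [WithZero.exp_le_exp]; push_cast; omega

lemma star_avg [FinRes F] (hu : IsStVec ρ p u) {M : ℕ} (hM : 1 ≤ M) :
    avg ρ (GO F) (KM F M) u = 0 := by
  have hfix : ∀ s ∈ KM F M, ρ s u = u := by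
    intro s hs
    refine hu.iw s ⟨hs.1, ?_⟩
    have : Valued.v ((s : Matrix (Fin 2) (Fin 2) F) 1 0) ≤ WithZero.exp (-(M : ℤ)) := by
      simpa using hs.2 1 0
    refine lt_of_le_of_lt this ?_
    rw [← WithZero.exp_zero, WithZero.exp_lt_exp]; omega
  have h1 := congrArg (avg ρ (GO F) (KM F M)) hu.star
  rw [map_add, map_add, map_zero, avg_right ρ (GO F) (KM F M) hfix smat smat_mem_GO,
    avg_right ρ (GO F) (KM F M) hfix _ ((GO F).mul_mem (nmat_mem_GO (by simp)) smat_mem_GO)] at h1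
  have h2 : (3 : ℂ) • avg ρ (GO F) (KM F M) u = 0 := by
    rw [← h1]; module
  exact (smul_eq_zero.mp h2).resolve_left (by norm_num)

/-- A Steinberg vector: all translates have zero average over `GL_2(O)`. -/
theorem avg_st_zero [FinRes F] (hp : Valued.v (p : F) = WithZero.exp (-1 : ℤ))
    (hu : IsStVec ρ p u) (h : GL (Fin 2) F) :
    ∃ M₀, ∀ M ≥ M₀, avg ρ (GO F) (KM F M) (ρ h u) = 0 := by
  obtain ⟨k, hk, n, hn⟩ := st_cartan ρ p hp u hu h
  refine ⟨n + 1, fun M hM => ?_⟩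
  have hfix : ∀ s ∈ KM F M, ρ s (ρ (amat (p ^ n)) u) = ρ (amat (p ^ n)) u :=
    fun s hs => st_fixed_KM hp hu (by omega) (by omega) s hs
  have h1 : avg ρ (GO F) (KM F M) (ρ (amat (p ^ n)) u) = 0 := by
    have h2 := st_sum ρ p u hu n 0
    have h3 : ρ (amat (p ^ 0)) u = u := by
      have : (amat (p ^ 0) : GL (Fin 2) F) = 1 := by
        ext i j; fin_cases i <;> fin_cases j <;> simp
      rw [this]; simp
    rw [h3] at h2
    have h4 := congrArg (avg ρ (GO F) (KM F M)) h2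
    rw [star_avg hu (by omega), map_sum] at h4
    have h5 : ∀ c : Fin n → Fin 2, avg ρ (GO F) (KM F M)
        (ρ (nmat (∑ i : Fin n, ((c i : ℕ) : F) * (p : F) ^ (0 + (i : ℕ))) *
          amat (p ^ (0 + n))) u) = avg ρ (GO F) (KM F M) (ρ (amat (p ^ n)) u) := by
      intro c
      rw [map_mul, zero_add]
      change avg ρ (GO F) (KM F M) (ρ (nmat _) (ρ (amat (p ^ n)) u)) = _
      apply avg_right ρ (GO F) (KM F M) hfix
      apply nmat_mem_GO
      simpa using sum_digits_val_le hp (m := 0) c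
    rw [Finset.sum_congr rfl (fun c _ => h5 c), Finset.sum_const] at h4
    rw [← Nat.cast_smul_eq_nsmul ℂ] at h4
    refine (smul_eq_zero.mp h4.symm).resolve_left ?_
    simp
  have h6 : avg ρ (GO F) (KM F M) (ρ (k * amat (p ^ n)) u) = 0 := by
    rw [map_mul]
    change avg ρ (GO F) (KM F M) (ρ k (ρ (amat (p ^ n)) u)) = _
    rw [avg_right ρ (GO F) (KM F M) hfix k hk, h1]
  rcases hn with hn | hn
  · rw [hn, h6]
  · rw [hn, map_neg, h6, neg_zero]

/-- the finite set of vectors spanning the `KM M`-fixed vectors -/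
def stSet (ρ : Representation ℂ (GL (Fin 2) F) V) (p : Fˣ) (u : V) [FinRes F] (M : ℕ) :
    Set V :=
  Set.range fun x : (GO F ⧸ (KM F M).subgroupOf (GO F)) × Fin (M + 1) =>
    ρ ((x.1.out : GO F) : GL (Fin 2) F) (ρ (amat (p ^ (x.2 : ℕ))) u)

lemma stSet_finite [FinRes F] (M : ℕ) : (stSet ρ p u M).Finite := Set.finite_range _

theorem core_adm [FinRes F] (hp : Valued.v (p : F) = WithZero.exp (-1 : ℤ))
    (hu : IsStVec ρ p u) {M : ℕ} (hM : 1 ≤ M) (h : GL (Fin 2) F) :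
    ∃ M₀, ∀ M' ≥ M₀, avg ρ (KM F M) (KM F M') (ρ h u) ∈ Submodule.span ℂ (stSet ρ p u M) := by
  obtain ⟨k, hk, n, hn⟩ := st_cartan ρ p hp u hu h
  refine ⟨n + M + 1, fun M' hM' => ?_⟩
  have hfix : ∀ s ∈ KM F M', ρ s (ρ (amat (p ^ n)) u) = ρ (amat (p ^ n)) u :=
    fun s hs => st_fixed_KM hp hu (by omega) (by omega) s hs
  -- vectors in the span
  have hspan : ∀ m ≤ M, ρ k (ρ (amat (p ^ m)) u) ∈ Submodule.span ℂ (stSet ρ p u M) := by
    intro m hm
    apply Submodule.subset_span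
    refine ⟨((QuotientGroup.mk (⟨k, hk⟩ : GO F) : GO F ⧸ (KM F M).subgroupOf (GO F)),
      ⟨m, by omega⟩), ?_⟩
    have := rho_eq_of_mk_eq ρ (GO F) (KM F M) (x := ρ (amat (p ^ m)) u)
      (fun s hs => st_fixed_KM hp hu hm hM s hs)
      (a := (QuotientGroup.mk (⟨k, hk⟩ : GO F) : GO F ⧸ (KM F M).subgroupOf (GO F)).out)
      (b := ⟨k, hk⟩) (QuotientGroup.out_eq' _)
    exact this
  -- average of `ρ(a^n) u`
  have h1 : ∃ c : ℂ, ∃ m ≤ M, avg ρ (KM F M) (KM F M') (ρ (amat (p ^ n)) u) =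
      c • ρ (amat (p ^ m)) u := by
    by_cases hnM : n ≤ M
    · refine ⟨1, n, hnM, ?_⟩
      rw [one_smul]
      exact avg_of_fixed ρ (KM F M) (KM F M') fun s hs => st_fixed_KM hp hu hnM hM s hs
    · push Not at hnM
      obtain ⟨j, rfl⟩ := Nat.exists_eq_add_of_le hnM.le
      have h2 := st_sum ρ p u hu j M
      have h4 := congrArg (avg ρ (KM F M) (KM F M')) h2
      rw [avg_of_fixed ρ (KM F M) (KM F M') (x := ρ (amat (p ^ M)) u)
        (fun s hs => st_fixed_KM hp hu le_rfl hM s hs), map_sum] at h4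
      have h5 : ∀ c : Fin j → Fin 2, avg ρ (KM F M) (KM F M')
          (ρ (nmat (∑ i : Fin j, ((c i : ℕ) : F) * (p : F) ^ (M + (i : ℕ))) *
            amat (p ^ (M + j))) u) =
          avg ρ (KM F M) (KM F M') (ρ (amat (p ^ (M + j))) u) := by
        intro c
        rw [map_mul]
        change avg ρ (KM F M) (KM F M') (ρ (nmat _) (ρ (amat (p ^ (M + j))) u)) = _
        apply avg_right ρ (KM F M) (KM F M') hfix
        exact nmat_mem_KM (sum_digits_val_le hp c)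
      rw [Finset.sum_congr rfl (fun c _ => h5 c), Finset.sum_const,
        ← Nat.cast_smul_eq_nsmul ℂ] at h4
      set q : ℂ := ((Finset.univ : Finset (Fin j → Fin 2)).card : ℂ) with hq
      have hq0 : q ≠ 0 := by rw [hq]; simp
      refine ⟨q⁻¹, M, le_rfl, ?_⟩
      rw [h4, smul_smul, inv_mul_cancel₀ hq0, one_smul]
  obtain ⟨c, m, hm, h1⟩ := h1
  -- conjugation by `k`
  have h2 : avg ρ (KM F M) (KM F M') (ρ (k * amat (p ^ n)) u) = c • ρ k (ρ (amat (p ^ m)) u) := by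
    rw [map_mul]
    change avg ρ (KM F M) (KM F M') (ρ k (ρ (amat (p ^ n)) u)) = _
    have h3 : avg ρ (KM F M) (KM F M') (ρ k (ρ (amat (p ^ n)) u)) =
        ρ k (avg ρ (KM F M) (KM F M') (ρ (amat (p ^ n)) u)) := by
      refine avg_conj ρ (KM F M) (KM F M') hfix k (fun g hg => KM_conj hk hg) ?_ ?_
      · intro g hg
        simpa using KM_conj ((GO F).inv_mem hk) hg
      · intro g hg
        simpa using KM_conj ((GO F).inv_mem hk) hg
    rw [h3, h1, map_smul]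
  have h4 : avg ρ (KM F M) (KM F M') (ρ (k * amat (p ^ n)) u) ∈
      Submodule.span ℂ (stSet ρ p u M) := by
    rw [h2]; exact Submodule.smul_mem _ _ (hspan m hm)
  rcases hn with hn | hn
  · rw [hn]; exact h4
  · rw [hn, map_neg]; exact Submodule.neg_mem _ h4

end

end TH824.BK
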