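import Pool.Agent.TH824.BK.Cusp
import Pool.Agent.TH698.BKJ10

open Polynomial IsDedekindDomain Matrix MeasureTheory
open scoped WithZero RestrictedProduct

noncomputable section

namespace TH824.BK

/-- vanishing of the constant terms -/
def CuspVan : Prop := ∀ F ∈ orb rt fcusp, ∀ (g : GA) (μ : Measure (AK ⧸ KA)) [μ.IsAddHaarMeasure],
      ∫ x : AK ⧸ KA, F (nA (Quotient.out x) * g) ∂μ = 0

theorem exists_cusp (hcv : CuspVan) : ∃ π : SmoothIrrep GA, IsAutomorphic π ∧ IsCuspidal π ∧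
    ∃ u : π.V, u ≠ 0 ∧ IsStVec (pull iinf π.ρ) pinf u := by
  obtain ⟨π, T, hsurj, hT, hne, hst⟩ := fcusp_good.exists_rep
  refine ⟨π, ⟨⊥ ⊔ orb rt fcusp, fcusp_good.isAutForm, fcusp_good.stable, T, hsurj, hT⟩,
    ⟨⊥ ⊔ orb rt fcusp, fun F hF => ?_, fcusp_good.stable, T, hsurj, hT⟩, _, hne, hst⟩
  refine ⟨fcusp_good.isAutForm F hF, fun g μ hμ => ?_⟩
  rw [bot_sup_eq] at hF
  exact @hcv F hF g μ hμ

theorem main (hcv : CuspVan) : ¬ LocalLiftExists := by
  rintro ⟨l, hl⟩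
  obtain ⟨π, haut, hlift, u, hu0, hu⟩ := exists_eis
  obtain ⟨π', haut', hcusp', u', hu0', hu'⟩ := exists_cusp hcv
  obtain ⟨σ, hσ, hσ', hniso⟩ := exists_common π π' u u' hu0 hu0' hu hu'
  have h1 := hl π (trivIrrep GA) haut hlift σ (trivIrrep (GL (Fin 2) Kinf)) hσ (triv_comp iinf)
  have h2 := hl π' π' haut' ⟨Or.inl hcusp', fun _ _ _ h => h, fun _ _ h => h⟩ σ σ hσ' hσ'
  exact hniso (Quotient.exact (h1.symm.trans h2))

theorem cuspVan : CuspVan :=
  cuspidal_of fcusp fcusp_left fcusp_smooth fcusp_st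
    (fun kf h hk _ hN => fcusp_an h hk hN)

theorem not_localLiftExists : ¬ LocalLiftExists := main cuspVan

end TH824.BK
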