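import Pool.Agent.TH824.BK.Defs

open Polynomial IsDedekindDomain Matrix MeasureTheory
open scoped WithZero RestrictedProduct

noncomputable section

namespace TH824.BK

variable {F : Type} [Field F]

/-- scalar matrices -/
def zmat (z : Fˣ) : GL (Fin 2) F := bmat z z 0

/-- `diag(a, 1)` -/
def amat (a : Fˣ) : GL (Fin 2) F := bmat a 1 0

/-- `[[0,1],[1,0]]` -/
def smat : GL (Fin 2) F := ⟨!![0, 1; 1, 0], !![0, 1; 1, 0], by simp [Matrix.one_fin_two],
  by simp [Matrix.one_fin_two]⟩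

/-- `[[0,1],[p,0]]` -/
def wmat (p : Fˣ) : GL (Fin 2) F := smat * amat p

@[simp] lemma coe_nmat (x : F) : ((nmat x : GL (Fin 2) F) : Matrix (Fin 2) (Fin 2) F) =
    !![1, x; 0, 1] := rfl

@[simp] lemma coe_smat : ((smat : GL (Fin 2) F) : Matrix (Fin 2) (Fin 2) F) =
    !![0, 1; 1, 0] := rfl

@[simp] lemma coe_bmat (a d : Fˣ) (x : F) :
    ((bmat a d x : GL (Fin 2) F) : Matrix (Fin 2) (Fin 2) F) = !![(a : F), x; 0, (d : F)] := rfl

@[simp] lemma coe_zmat (z : Fˣ) :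
    ((zmat z : GL (Fin 2) F) : Matrix (Fin 2) (Fin 2) F) = !![(z : F), 0; 0, (z : F)] := rfl

@[simp] lemma coe_amat (a : Fˣ) :
    ((amat a : GL (Fin 2) F) : Matrix (Fin 2) (Fin 2) F) = !![(a : F), 0; 0, 1] := by
  simp [amat]

@[simp] lemma coe_wmat (p : Fˣ) :
    ((wmat p : GL (Fin 2) F) : Matrix (Fin 2) (Fin 2) F) = !![0, 1; (p : F), 0] := by
  simp [wmat]

/-- The Iwahori subgroup `{[[a,b],[c,d]] ∈ GL_2(O) : v(c) < 1}`. -/
def Iw (F : Type) [Field F] [Valued F ℤᵐ⁰] : Subgroup (GL (Fin 2) F) where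
  carrier := {g | g ∈ GO F ∧ Valued.v ((g : Matrix (Fin 2) (Fin 2) F) 1 0) < 1}
  one_mem' := ⟨(GO F).one_mem, by simp⟩
  mul_mem' := by
    rintro a b ⟨ha, ha'⟩ ⟨hb, hb'⟩
    refine ⟨(GO F).mul_mem ha hb, ?_⟩
    simp only [Units.val_mul, Matrix.mul_apply, Fin.sum_univ_two]
    refine (Valuation.map_add _ _ _).trans_lt (max_lt ?_ ?_)
    · rw [map_mul]; exact (mul_le_of_le_one_right' (hb.1 _ _)).trans_lt ha'
    · rw [map_mul]; exact (mul_le_of_le_one_left' (ha.1 _ _)).trans_lt hb'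
  inv_mem' := by
    rintro a ⟨ha, ha'⟩
    refine ⟨(GO F).inv_mem ha, ?_⟩
    have hinv : ((a⁻¹ : GL (Fin 2) F) : Matrix (Fin 2) (Fin 2) F) =
        ((a : Matrix (Fin 2) (Fin 2) F).det)⁻¹ • (a : Matrix (Fin 2) (Fin 2) F).adjugate := by
      rw [Matrix.coe_units_inv, Matrix.inv_def, Ring.inverse_eq_inv']
    rw [hinv, Matrix.smul_apply, smul_eq_mul, map_mul, map_inv₀, ha.2, inv_one, one_mul,
      Matrix.adjugate_fin_two]
    simpa [Valuation.map_neg] using ha'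

/-- The principal congruence subgroup of level `M`. -/
def KM (F : Type) [Field F] [Valued F ℤᵐ⁰] (M : ℕ) : Subgroup (GL (Fin 2) F) where
  carrier := {g | g ∈ GO F ∧ ∀ i j, Valued.v ((g : Matrix (Fin 2) (Fin 2) F) i j -
    (1 : Matrix (Fin 2) (Fin 2) F) i j) ≤ WithZero.exp (-(M : ℤ))}
  one_mem' := ⟨(GO F).one_mem, by simp⟩
  mul_mem' := by
    rintro a b ⟨ha, ha'⟩ ⟨hb, hb'⟩
    refine ⟨(GO F).mul_mem ha hb, fun i j => ?_⟩
    have h1 : ((a * b : GL (Fin 2) F) : Matrix (Fin 2) (Fin 2) F) - 1 =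
        ((a : Matrix (Fin 2) (Fin 2) F) - 1) * (b : Matrix (Fin 2) (Fin 2) F) +
          ((b : Matrix (Fin 2) (Fin 2) F) - 1) := by
      rw [Units.val_mul]; noncomm_ring
    have h2 := congrFun (congrFun h1 i) j
    rw [Matrix.sub_apply] at h2
    rw [h2, Matrix.add_apply, Matrix.mul_apply, Fin.sum_univ_two]
    refine (Valuation.map_add _ _ _).trans (max_le ?_ (hb' i j))
    refine (Valuation.map_add _ _ _).trans (max_le ?_ ?_)
    · rw [map_mul]; exact mul_le_of_le_of_le_one (ha' _ _) (hb.1 _ _)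
    · rw [map_mul]; exact mul_le_of_le_of_le_one (ha' _ _) (hb.1 _ _)
  inv_mem' := by
    rintro a ⟨ha, ha'⟩
    refine ⟨(GO F).inv_mem ha, fun i j => ?_⟩
    have h1 : ((a⁻¹ : GL (Fin 2) F) : Matrix (Fin 2) (Fin 2) F) - 1 =
        -(((a : Matrix (Fin 2) (Fin 2) F) - 1) * ((a⁻¹ : GL (Fin 2) F) :
          Matrix (Fin 2) (Fin 2) F)) := by
      rw [sub_mul, one_mul, ← Units.val_mul, mul_inv_cancel]; simp
    have h2 := congrFun (congrFun h1 i) j
    rw [Matrix.sub_apply] at h2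
    rw [h2, Matrix.neg_apply, Valuation.map_neg, Matrix.mul_apply, Fin.sum_univ_two]
    refine (Valuation.map_add _ _ _).trans (max_le ?_ ?_)
    · rw [map_mul]; exact mul_le_of_le_of_le_one (ha' _ _) (((GO F).inv_mem ha).1 _ _)
    · rw [map_mul]; exact mul_le_of_le_of_le_one (ha' _ _) (((GO F).inv_mem ha).1 _ _)

/-- The data of an Iwahori-Steinberg vector `u` in a representation `ρ` of `GL_2(F)`, for a
valued field with residue field `F_2` and uniformizer `p`. -/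
structure IsStVec [Valued F ℤᵐ⁰] {V : Type} [AddCommGroup V] [Module ℂ V]
    (ρ : Representation ℂ (GL (Fin 2) F) V) (p : Fˣ) (u : V) : Prop where
  iw : ∀ g ∈ Iw F, ρ g u = u
  z : ∀ z : Fˣ, ρ (zmat z) u = u
  w : ρ (wmat p) u = -u
  star : u + ρ smat u + ρ (nmat 1 * smat) u = 0

/-- the uniformizer `1/t` at infinity -/
def pinf : Kinfˣ := Units.mk0 (algebraMap Kx Kinf (RatFunc.X)⁻¹) (by simp [RatFunc.X_ne_zero])

/-- product subgroups of `G(A)` -/
def UA (U : ∀ v : Pl, Subgroup (GL (Fin 2) (Kv v))) (U' : Subgroup (GL (Fin 2) Kinf)) :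
    Subgroup GA where
  carrier := {g | (∀ v, g.1 v ∈ U v) ∧ g.2 ∈ U'}
  one_mem' := ⟨fun v => (U v).one_mem, U'.one_mem⟩
  mul_mem' := by
    rintro a b ⟨ha, ha'⟩ ⟨hb, hb'⟩
    exact ⟨fun v => by simpa using (U v).mul_mem (ha v) (hb v), U'.mul_mem ha' hb'⟩
  inv_mem' := by
    rintro a ⟨ha, ha'⟩
    exact ⟨fun v => by simpa using (U v).inv_mem (ha v), U'.inv_mem ha'⟩

end TH824.BK
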