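import Pool.Agent.TH824.BK.Mats

open Polynomial IsDedekindDomain Matrix MeasureTheory
open scoped WithZero RestrictedProduct

noncomputable section

namespace TH824.BK

section General

variable {G : Type} [Group G] {V : Type} [AddCommGroup V] [Module ℂ V]

/-- stable subspaces -/
def Stable (ρ : Representation ℂ G V) (W : Submodule ℂ V) : Prop :=
  ∀ g, ∀ x ∈ W, ρ g x ∈ W

/-- the subrepresentation generated by `u` -/
def orb (ρ : Representation ℂ G V) (u : V) : Submodule ℂ V :=
  Submodule.span ℂ (Set.range fun g => ρ g u)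

lemma orb_mem (ρ : Representation ℂ G V) (u : V) (g : G) : ρ g u ∈ orb ρ u :=
  Submodule.subset_span ⟨g, rfl⟩

lemma self_mem_orb (ρ : Representation ℂ G V) (u : V) : u ∈ orb ρ u := by
  have := orb_mem ρ u 1
  simpa using this

lemma orb_stable (ρ : Representation ℂ G V) (u : V) : Stable ρ (orb ρ u) := by
  intro g x hx
  refine Submodule.span_induction (p := fun x _ => ρ g x ∈ orb ρ u) ?_ ?_ ?_ ?_ hx
  · rintro _ ⟨h, rfl⟩
    have : ρ g (ρ h u) = ρ (g * h) u := by rw [map_mul]; rfl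
    rw [this]
    exact orb_mem ρ u _
  · simp
  · intro x y _ _ hx hy; rw [map_add]; exact add_mem hx hy
  · intro c x _ hx; rw [map_smul]; exact Submodule.smul_mem _ _ hx

lemma orb_le (ρ : Representation ℂ G V) {u : V} {W : Submodule ℂ V} (hW : Stable ρ W)
    (hu : u ∈ W) : orb ρ u ≤ W := by
  refine Submodule.span_le.mpr ?_
  rintro _ ⟨g, rfl⟩
  exact hW g u hu

lemma stable_sup (ρ : Representation ℂ G V) {W W' : Submodule ℂ V} (hW : Stable ρ W)
    (hW' : Stable ρ W') : Stable ρ (W ⊔ W') := by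
  intro g x hx
  obtain ⟨y, hy, z, hz, rfl⟩ := Submodule.mem_sup.mp hx
  rw [map_add]
  exact add_mem (Submodule.mem_sup_left (hW g y hy)) (Submodule.mem_sup_right (hW' g z hz))

/-- maximal stable subspaces avoiding a vector -/
lemma exists_max_stable (ρ : Representation ℂ G V) (C : Submodule ℂ V) (hC : Stable ρ C)
    (v₀ : V) (hv : v₀ ∉ C) : ∃ N : Submodule ℂ V, Stable ρ N ∧ C ≤ N ∧ N ≤ C ⊔ orb ρ v₀ ∧
      v₀ ∉ N ∧ ∀ M : Submodule ℂ V, Stable ρ M → N ≤ M → M ≤ C ⊔ orb ρ v₀ →
        M = N ∨ M = C ⊔ orb ρ v₀ := by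
  set W := C ⊔ orb ρ v₀ with hW
  let S : Set (Submodule ℂ V) := {N | Stable ρ N ∧ C ≤ N ∧ N ≤ W ∧ v₀ ∉ N}
  have hCS : C ∈ S := ⟨hC, le_rfl, le_sup_left, hv⟩
  obtain ⟨N, hCN, hN⟩ := zorn_le_nonempty₀ S (by
    intro c hcS hc y hy
    refine ⟨sSup c, ⟨?_, ?_, ?_, ?_⟩, fun z hz => le_sSup hz⟩
    · intro g x hx
      have hdir : DirectedOn (· ≤ ·) c := hc.directedOn
      rw [Submodule.mem_sSup_of_directed ⟨y, hy⟩ hdir] at hx ⊢
      obtain ⟨M, hM, hxM⟩ := hx
      exact ⟨M, hM, (hcS hM).1 g x hxM⟩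
    · exact (hcS hy).2.1.trans (le_sSup hy)
    · exact sSup_le fun M hM => (hcS hM).2.2.1
    · intro hx
      have hdir : DirectedOn (· ≤ ·) c := hc.directedOn
      rw [Submodule.mem_sSup_of_directed ⟨y, hy⟩ hdir] at hx
      obtain ⟨M, hM, hxM⟩ := hx
      exact (hcS hM).2.2.2 hxM) C hCS
  obtain ⟨hNS, hmax⟩ := hN
  refine ⟨N, hNS.1, hNS.2.1, hNS.2.2.1, hNS.2.2.2, ?_⟩
  intro M hM hNM hMW
  by_cases hvM : v₀ ∈ M
  · right
    apply le_antisymm hMW
    rw [hW]
    exact sup_le (hNS.2.1.trans hNM) (orb_le ρ hM hvM)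
  · left
    exact le_antisymm (hmax ⟨hM, hNS.2.1.trans hNM, hMW, hvM⟩ hNM) hNM

/-- restriction of a representation to a stable subspace -/
def subRep (ρ : Representation ℂ G V) (W : Submodule ℂ V) (hW : Stable ρ W) :
    Representation ℂ G W where
  toFun g := (ρ g).restrict (hW g)
  map_one' := by
    ext x; simp [LinearMap.restrict_apply]
  map_mul' a b := by
    ext x; simp [LinearMap.restrict_apply]

/-- quotient of a representation by a stable subspace -/
def quotRep (ρ : Representation ℂ G V) (N : Submodule ℂ V) (hN : Stable ρ N) :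
    Representation ℂ G (V ⧸ N) where
  toFun g := N.mapQ N (ρ g) (fun x hx => hN g x hx)
  map_one' := by
    apply LinearMap.ext
    intro x
    obtain ⟨x, rfl⟩ := N.mkQ_surjective x
    simp
  map_mul' a b := by
    apply LinearMap.ext
    intro x
    obtain ⟨x, rfl⟩ := N.mkQ_surjective x
    simp

@[simp] lemma quotRep_mk (ρ : Representation ℂ G V) (N : Submodule ℂ V) (hN : Stable ρ N)
    (g : G) (x : V) : quotRep ρ N hN g (N.mkQ x) = N.mkQ (ρ g x) := rfl

@[simp] lemma subRep_coe (ρ : Representation ℂ G V) (W : Submodule ℂ V) (hW : Stable ρ W)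
    (g : G) (x : W) : ((subRep ρ W hW g x : W) : V) = ρ g (x : V) := rfl

/-- smooth vectors -/
def IsSmooth [TopologicalSpace G] (ρ : Representation ℂ G V) (x : V) : Prop :=
  ∃ U : Subgroup G, IsOpen (U : Set G) ∧ ∀ g ∈ U, ρ g x = x

lemma IsSmooth.add [TopologicalSpace G] {ρ : Representation ℂ G V} {x y : V}
    (hx : IsSmooth ρ x) (hy : IsSmooth ρ y) : IsSmooth ρ (x + y) := by
  obtain ⟨U, hU, hU'⟩ := hx
  obtain ⟨U₂, hU₂, hU₂'⟩ := hy
  refine ⟨U ⊓ U₂, ?_, ?_⟩
  · exact hU.inter hU₂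
  · intro g hg
    rw [map_add, hU' g hg.1, hU₂' g hg.2]

lemma IsSmooth.smul [TopologicalSpace G] {ρ : Representation ℂ G V} {x : V} (c : ℂ)
    (hx : IsSmooth ρ x) : IsSmooth ρ (c • x) := by
  obtain ⟨U, hU, hU'⟩ := hx
  exact ⟨U, hU, fun g hg => by rw [map_smul, hU' g hg]⟩

lemma IsSmooth.zero [TopologicalSpace G] {ρ : Representation ℂ G V} : IsSmooth ρ (0 : V) :=
  ⟨⊤, isOpen_univ, fun g _ => by simp⟩

lemma IsSmooth.translate [TopologicalSpace G] [IsTopologicalGroup G]
    {ρ : Representation ℂ G V} {x : V} (g : G)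
    (hx : IsSmooth ρ x) : IsSmooth ρ (ρ g x) := by
  obtain ⟨U, hU, hU'⟩ := hx
  refine ⟨U.comap (MulAut.conj g⁻¹).toMonoidHom, ?_, ?_⟩
  · have hc : Continuous fun h : G => g⁻¹ * h * g := by fun_prop
    have := hU.preimage hc
    convert this using 1
    ext h
    simp [MulAut.conj_apply]
  · intro h hh
    have hh' : g⁻¹ * h * g ∈ U := by
      simpa [MulAut.conj_apply] using hh
    have h1 : ρ h (ρ g x) = ρ (g * (g⁻¹ * h * g)) x := by
      have : g * (g⁻¹ * h * g) = h * g := by group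
      rw [this, map_mul]; rfl
    rw [h1, map_mul]
    change ρ g (ρ _ x) = _
    rw [hU' _ hh']

lemma smooth_of_mem_orb [TopologicalSpace G] [IsTopologicalGroup G]
    {ρ : Representation ℂ G V} {u : V} (hu : IsSmooth ρ u) {x : V} (hx : x ∈ orb ρ u) :
    IsSmooth ρ x := by
  refine Submodule.span_induction (p := fun x _ => IsSmooth ρ x) ?_ ?_ ?_ ?_ hx
  · rintro _ ⟨g, rfl⟩; exact hu.translate g
  · exact IsSmooth.zero
  · intro x y _ _ hx hy; exact hx.add hy
  · intro c x _ hx; exact hx.smul c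

/-- The irreducible subquotient `W / N`. -/
def quotIrrep [TopologicalSpace G] (ρ : Representation ℂ G V) (W N : Submodule ℂ V)
    (hW : Stable ρ W) (hN : Stable ρ N) (hne : ∃ x ∈ W, x ∉ N)
    (hmax : ∀ M : Submodule ℂ V, Stable ρ M → N ≤ M → M ≤ W → M = N ∨ M = W)
    (hNW : N ≤ W)
    (hsm : ∀ x ∈ W, IsSmooth ρ x) : SmoothIrrep G where
  V := W ⧸ N.comap W.subtype
  ρ := quotRep (subRep ρ W hW) (N.comap W.subtype) (fun g x hx => hN g _ hx)
  smooth := by
    intro x
    obtain ⟨x, rfl⟩ := (N.comap W.subtype).mkQ_surjective x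
    obtain ⟨U, hU, hU'⟩ := hsm x x.2
    refine ⟨U, hU, fun g hg => ?_⟩
    rw [quotRep_mk]
    congr 1
    exact Subtype.ext (hU' g hg)
  nontriv := by
    obtain ⟨x, hx, hxN⟩ := hne
    refine ⟨(N.comap W.subtype).mkQ ⟨x, hx⟩, ?_⟩
    intro h
    rw [Submodule.mkQ_apply, Submodule.Quotient.mk_eq_zero] at h
    exact hxN h
  irred := by
    intro Q hQ
    have hst : Stable ρ ((Q.comap (N.comap W.subtype).mkQ).map W.subtype) := by
      rintro g _ ⟨x, hx, rfl⟩
      refine ⟨subRep ρ W hW g x, ?_, rfl⟩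
      change (N.comap W.subtype).mkQ (subRep ρ W hW g x) ∈ Q
      rw [← quotRep_mk (subRep ρ W hW) (N.comap W.subtype) (fun g x hx => hN g _ hx)]
      exact hQ g _ hx
    have h1 : N ≤ (Q.comap (N.comap W.subtype).mkQ).map W.subtype := by
      intro x hx
      refine ⟨⟨x, hNW hx⟩, ?_, rfl⟩
      change (N.comap W.subtype).mkQ ⟨x, hNW hx⟩ ∈ Q
      have : (N.comap W.subtype).mkQ ⟨x, hNW hx⟩ = 0 := by
        rw [Submodule.mkQ_apply, Submodule.Quotient.mk_eq_zero]
        exact hx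
      rw [this]; exact Q.zero_mem
    have h2 : (Q.comap (N.comap W.subtype).mkQ).map W.subtype ≤ W := by
      rintro _ ⟨x, _, rfl⟩; exact x.2
    rcases hmax _ hst h1 h2 with h | h
    · left
      rw [eq_bot_iff]
      intro q hq
      obtain ⟨x, rfl⟩ := (N.comap W.subtype).mkQ_surjective q
      have : (x : V) ∈ (Q.comap (N.comap W.subtype).mkQ).map W.subtype := ⟨x, hq, rfl⟩
      rw [h] at this
      rw [Submodule.mem_bot, Submodule.mkQ_apply, Submodule.Quotient.mk_eq_zero]
      exact this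
    · right
      rw [eq_top_iff]
      rintro q -
      obtain ⟨x, rfl⟩ := (N.comap W.subtype).mkQ_surjective q
      have : (x : V) ∈ (Q.comap (N.comap W.subtype).mkQ).map W.subtype := by
        rw [h]; exact x.2
      obtain ⟨y, hy, hxy⟩ := this
      have : y = x := Subtype.ext hxy
      rw [← this]; exact hy

/-- the projection `W → W/N` -/
def prj (W N : Submodule ℂ V) : W →ₗ[ℂ] W ⧸ N.comap W.subtype := (N.comap W.subtype).mkQ

/-- The irreducible representation generated by a vector each of whose nonzero descendants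
generates it. -/
def orbIrrep [TopologicalSpace G] (ρ : Representation ℂ G V) (u : V) (hu : u ≠ 0)
    (hirr : ∀ z ∈ orb ρ u, z ≠ 0 → u ∈ orb ρ z) (hsm : ∀ x ∈ orb ρ u, IsSmooth ρ x) :
    SmoothIrrep G where
  V := orb ρ u
  ρ := subRep ρ (orb ρ u) (orb_stable ρ u)
  smooth := by
    intro x
    obtain ⟨U, hU, hU'⟩ := hsm x x.2
    exact ⟨U, hU, fun g hg => Subtype.ext (hU' g hg)⟩
  nontriv := ⟨⟨u, self_mem_orb ρ u⟩, fun h => hu (congrArg Subtype.val h)⟩
  irred := by
    intro W hW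
    by_cases h0 : ∀ x ∈ W, x = 0
    · left; rw [eq_bot_iff]; intro x hx; exact h0 x hx
    · right
      push Not at h0
      obtain ⟨z, hz, hz0⟩ := h0
      have hst : Stable ρ (W.map (orb ρ u).subtype) := by
        rintro g _ ⟨x, hx, rfl⟩
        exact ⟨_, hW g x hx, rfl⟩
      have hz' : (z : V) ∈ W.map (orb ρ u).subtype := ⟨z, hz, rfl⟩
      have hu' : u ∈ W.map (orb ρ u).subtype := by
        refine orb_le ρ hst hz' (hirr z z.2 ?_)
        intro h; exact hz0 (Subtype.ext h)
      have hle := orb_le ρ hst hu'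
      rw [eq_top_iff]
      rintro x -
      obtain ⟨y, hy, hxy⟩ := hle x.2
      have : y = x := Subtype.ext hxy
      rw [← this]; exact hy

/-- In an irreducible representation every nonzero vector generates. -/
lemma _root_.TH824.LL.SmoothIrrep.orb_eq_top [TopologicalSpace G] (π : SmoothIrrep G) (u : π.V) (hu : u ≠ 0) :
    orb π.ρ u = ⊤ := by
  rcases π.irred (orb π.ρ u) (orb_stable π.ρ u) with h | h
  · exfalso
    have := self_mem_orb π.ρ u
    rw [h] at this
    exact hu this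
  · exact h

/-- the trivial representation -/
def trivIrrep (G : Type) [Group G] [TopologicalSpace G] : SmoothIrrep G where
  V := ℂ
  ρ := 1
  smooth := fun x => ⟨⊤, isOpen_univ, fun g _ => rfl⟩
  nontriv := ⟨1, one_ne_zero⟩
  irred := by
    intro W _
    by_cases h : ∃ x ∈ W, x ≠ 0
    · right
      obtain ⟨x, hx, hx0⟩ := h
      rw [eq_top_iff]
      rintro y -
      have : y = (y / x) • x := by simp [hx0]
      rw [this]; exact W.smul_mem _ hx
    · left
      push Not at h
      rw [eq_bot_iff]; intro x hx; exact h x hx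

end General

end TH824.BK
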